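import Mathlib

/-!
# Combinatorial part, I: simultaneous approximation and the choice of the shift vector
-/

namespace Pool.Agent.Work.MP_43381c_ag

/-- Simultaneous approximation with arbitrarily large denominators. -/
theorem dirichlet {n : ℕ} (y : Fin n → ℝ) {ε : ℝ} (hε : 0 < ε) (Q : ℕ) :
    ∃ q : ℕ, Q < q ∧ ∃ w : Fin n → ℤ, ∀ i, |(q : ℝ) * y i - w i| < ε := by
  classical
  set x : ℕ → Fin n → ℝ := fun k i => Int.fract ((k : ℝ) * y i) with hx
  have hmem : ∀ k, x k ∈ Set.Icc (0 : Fin n → ℝ) 1 := by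
    intro k
    refine ⟨fun i => Int.fract_nonneg _, fun i => (Int.fract_lt_one _).le⟩
  obtain ⟨a, _, φ, hφ, hlim⟩ := isCompact_Icc.tendsto_subseq hmem
  rw [Metric.tendsto_atTop] at hlim
  obtain ⟨N, hN⟩ := hlim (ε / 2) (by positivity)
  have h1 := hN N le_rfl
  have h2 := hN (N + Q + 1) (by omega)
  have hgap : φ N + (Q + 1) ≤ φ (N + Q + 1) := by
    have : ∀ t, φ N + t ≤ φ (N + t) := by
      intro t
      induction t with
      | zero => simp
      | succ t ih =>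
        have h3 : φ (N + t) < φ (N + t + 1) := hφ (Nat.lt_succ_self (N + t))
        have h4 : φ (N + (t + 1)) = φ (N + t + 1) := rfl
        omega
    exact this (Q + 1)
  refine ⟨φ (N + Q + 1) - φ N, by omega,
    fun i => ⌊((φ (N + Q + 1) : ℕ) : ℝ) * y i⌋ - ⌊((φ N : ℕ) : ℝ) * y i⌋, fun i => ?_⟩
  have e1 : dist (x (φ N) i) (a i) < ε / 2 := lt_of_le_of_lt (dist_le_pi_dist _ _ i) h1
  have e2 : dist (x (φ (N + Q + 1)) i) (a i) < ε / 2 := lt_of_le_of_lt (dist_le_pi_dist _ _ i) h2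
  rw [Real.dist_eq] at e1 e2
  have hc : ((φ (N + Q + 1) - φ N : ℕ) : ℝ) = (φ (N + Q + 1) : ℝ) - (φ N : ℝ) := by
    rw [Nat.cast_sub (by omega)]
  rw [hc]
  push_cast
  have key : ((φ (N + Q + 1) : ℝ) - (φ N : ℝ)) * y i -
      ((⌊((φ (N + Q + 1) : ℕ) : ℝ) * y i⌋ : ℝ) - (⌊((φ N : ℕ) : ℝ) * y i⌋ : ℝ)) =
      x (φ (N + Q + 1)) i - x (φ N) i := by
    simp only [hx, Int.fract]
    ring
  rw [key]
  calc |x (φ (N + Q + 1)) i - x (φ N) i| = |(x (φ (N + Q + 1)) i - a i) - (x (φ N) i - a i)| := by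
        congr 1; ring
    _ ≤ |x (φ (N + Q + 1)) i - a i| + |x (φ N) i - a i| := abs_sub _ _
    _ < ε := by linarith

/-- The linear form attached to a tuple of exponents. -/
noncomputable def hform {n s : ℕ} (A : Fin n → ℝ) (c : Fin s → ℝ) (τ : Fin s → Fin n → ℕ)
    (x : Fin n → ℝ) : ℝ :=
  ∑ i, A i * x i - ∑ j, c j * ∑ i, (τ j i : ℝ) * x i

theorem hform_sub {n s : ℕ} (A : Fin n → ℝ) (c : Fin s → ℝ) (τ : Fin s → Fin n → ℕ)
    (x y : Fin n → ℝ) : hform A c τ (x - y) = hform A c τ x - hform A c τ y := by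
  simp only [hform, Pi.sub_apply, mul_sub, Finset.sum_sub_distrib]
  ring

theorem hform_smul {n s : ℕ} (A : Fin n → ℝ) (c : Fin s → ℝ) (τ : Fin s → Fin n → ℕ)
    (t : ℝ) (x : Fin n → ℝ) : hform A c τ (t • x) = t * hform A c τ x := by
  have h1 : ∀ j, c j * ∑ i, (τ j i : ℝ) * (t * x i) = t * (c j * ∑ i, (τ j i : ℝ) * x i) := by
    intro j
    rw [show ∑ i, (τ j i : ℝ) * (t * x i) = t * ∑ i, (τ j i : ℝ) * x i by
      rw [Finset.mul_sum]; exact Finset.sum_congr rfl fun i _ => by ring]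
    ring
  simp only [hform, Pi.smul_apply, smul_eq_mul, h1]
  rw [← Finset.mul_sum, mul_sub]
  congr 1
  rw [Finset.mul_sum]
  exact Finset.sum_congr rfl fun i _ => by ring

theorem hform_bound {n s : ℕ} (A : Fin n → ℝ) (c : Fin s → ℝ) (T : Finset (Fin s → Fin n → ℕ)) :
    ∃ C : ℝ, 0 < C ∧ ∀ τ ∈ T, ∀ (x : Fin n → ℝ) (δ : ℝ), 0 ≤ δ → (∀ i, |x i| ≤ δ) →
      |hform A c τ x| ≤ C * δ := by
  classical
  have hnn : ∀ τ : Fin s → Fin n → ℕ, 0 ≤ ∑ i, |A i| + ∑ j, |c j| * ∑ i, (τ j i : ℝ) :=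
    fun τ => by positivity
  refine ⟨1 + (∑ τ ∈ T, (∑ i, |A i| + ∑ j, |c j| * ∑ i, (τ j i : ℝ))), ?_, ?_⟩
  · have : 0 ≤ ∑ τ ∈ T, (∑ i, |A i| + ∑ j, |c j| * ∑ i, (τ j i : ℝ)) :=
      Finset.sum_nonneg fun τ _ => hnn τ
    linarith
  · intro τ hτ x δ hδ hx
    have h1 : |∑ i, A i * x i| ≤ (∑ i, |A i|) * δ := by
      refine (Finset.abs_sum_le_sum_abs _ _).trans ?_
      rw [Finset.sum_mul]
      exact Finset.sum_le_sum fun i _ => by
        rw [abs_mul]; exact mul_le_mul_of_nonneg_left (hx i) (abs_nonneg _)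
    have h2 : |∑ j, c j * ∑ i, (τ j i : ℝ) * x i| ≤ (∑ j, |c j| * ∑ i, (τ j i : ℝ)) * δ := by
      refine (Finset.abs_sum_le_sum_abs _ _).trans ?_
      rw [Finset.sum_mul]
      refine Finset.sum_le_sum fun j _ => ?_
      rw [abs_mul, mul_assoc]
      refine mul_le_mul_of_nonneg_left ?_ (abs_nonneg _)
      refine (Finset.abs_sum_le_sum_abs _ _).trans ?_
      rw [Finset.sum_mul]
      refine Finset.sum_le_sum fun i _ => ?_
      rw [abs_mul, abs_of_nonneg (Nat.cast_nonneg _)]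
      exact mul_le_mul_of_nonneg_left (hx i) (Nat.cast_nonneg _)
    have h3 : |hform A c τ x| ≤ (∑ i, |A i| + ∑ j, |c j| * ∑ i, (τ j i : ℝ)) * δ := by
      unfold hform
      calc _ ≤ |∑ i, A i * x i| + |∑ j, c j * ∑ i, (τ j i : ℝ) * x i| := abs_sub _ _
        _ ≤ _ := by linarith
    refine h3.trans (mul_le_mul_of_nonneg_right ?_ hδ)
    have := Finset.single_le_sum (f := fun τ : Fin s → Fin n → ℕ =>
      ∑ i, |A i| + ∑ j, |c j| * ∑ i, (τ j i : ℝ)) (fun τ _ => hnn τ) hτ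
    linarith

/-- The choice of the shift vector. -/
theorem choose_shift {n s : ℕ} (y : Fin n → ℝ) (hy0 : ∀ i, 0 ≤ y i) (hy1 : ∃ i, 0 < y i)
    (A : Fin n → ℝ) (c : Fin s → ℝ) (μ : Fin s → ℝ) (T : Finset (Fin s → Fin n → ℕ))
    (hT : ∀ τ ∈ T, 0 ≤ hform A c τ y)
    (hT0 : ∀ τ ∈ T, hform A c τ y = 0 → ∀ j, ∑ i, (τ j i : ℝ) * y i = μ j) :
    ∃ w : Fin n → ℕ, (∃ i, w i ≠ 0) ∧ (∀ i, y i = 0 → w i = 0) ∧
      ∀ τ ∈ T, 0 ≤ hform A c τ (fun i => (w i : ℝ)) := by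
  classical
  obtain ⟨C, hC, hCb⟩ := hform_bound A c T
  -- positive lower bound for the positive values
  obtain ⟨δ, hδ, hδb⟩ : ∃ δ : ℝ, 0 < δ ∧ ∀ τ ∈ T, 0 < hform A c τ y → δ ≤ hform A c τ y := by
    rcases (T.filter fun τ => 0 < hform A c τ y).eq_empty_or_nonempty with h | h
    · refine ⟨1, one_pos, fun τ hτ hp => ?_⟩
      exact absurd (Finset.mem_filter.2 ⟨hτ, hp⟩) (by rw [h]; simp)
    · obtain ⟨τ0, h0, hmin⟩ := Finset.exists_min_image _ (fun τ => hform A c τ y) h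
      exact ⟨hform A c τ0 y, (Finset.mem_filter.1 h0).2, fun τ hτ hp =>
        hmin τ (Finset.mem_filter.2 ⟨hτ, hp⟩)⟩
  obtain ⟨η, hη, hηb⟩ : ∃ η : ℝ, 0 < η ∧ ∀ i, 0 < y i → η ≤ y i := by
    have hne : (Finset.univ.filter fun i => 0 < y i).Nonempty := by
      obtain ⟨i, hi⟩ := hy1
      exact ⟨i, by simp [hi]⟩
    obtain ⟨i0, h0, hmin⟩ := Finset.exists_min_image _ y hne
    exact ⟨y i0, (Finset.mem_filter.1 h0).2, fun i hi => hmin i (by simp [hi])⟩
  -- bound for the exponents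
  obtain ⟨N, hN, hNb⟩ : ∃ N : ℝ, 0 < N ∧ ∀ τ ∈ T, ∀ j, ∑ i, (τ j i : ℝ) ≤ N := by
    refine ⟨1 + ∑ τ ∈ T, ∑ j, ∑ i, (τ j i : ℝ), by positivity, fun τ hτ j => ?_⟩
    have h1 : ∑ i, (τ j i : ℝ) ≤ ∑ j, ∑ i, (τ j i : ℝ) :=
      Finset.single_le_sum (f := fun j => ∑ i, (τ j i : ℝ)) (fun j _ => by positivity)
        (Finset.mem_univ j)
    have h2 : ∑ j, ∑ i, (τ j i : ℝ) ≤ ∑ τ ∈ T, ∑ j, ∑ i, (τ j i : ℝ) :=
      Finset.single_le_sum (f := fun τ : Fin s → Fin n → ℕ => ∑ j, ∑ i, (τ j i : ℝ))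
        (fun τ _ => by positivity) hτ
    linarith
  obtain ⟨ε, hε, hε1, hε2, hε3, hε4⟩ : ∃ ε : ℝ, 0 < ε ∧ 2 * ε ≤ 1 / 2 ∧ 2 * ε ≤ η / 2 ∧
      C * (2 * ε) ≤ δ ∧ 2 * N * ε < 1 := by
    refine ⟨min (min (1 / 4) (η / 4)) (min (δ / (2 * C)) (1 / (4 * N))), ?_, ?_, ?_, ?_, ?_⟩
    · positivity
    · have := min_le_left (min (1 / 4 : ℝ) (η / 4)) (min (δ / (2 * C)) (1 / (4 * N)))
      have := min_le_left (1 / 4 : ℝ) (η / 4)
      linarith
    · have := min_le_left (min (1 / 4 : ℝ) (η / 4)) (min (δ / (2 * C)) (1 / (4 * N)))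
      have := min_le_right (1 / 4 : ℝ) (η / 4)
      linarith
    · have h1 := min_le_right (min (1 / 4 : ℝ) (η / 4)) (min (δ / (2 * C)) (1 / (4 * N)))
      have h2 := min_le_left (δ / (2 * C)) (1 / (4 * N))
      have h3 : min (min (1 / 4 : ℝ) (η / 4)) (min (δ / (2 * C)) (1 / (4 * N))) ≤ δ / (2 * C) :=
        h1.trans h2
      rw [le_div_iff₀ (by positivity)] at h3
      linarith
    · have h1 := min_le_right (min (1 / 4 : ℝ) (η / 4)) (min (δ / (2 * C)) (1 / (4 * N)))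
      have h2 := min_le_right (δ / (2 * C)) (1 / (4 * N))
      have h3 : min (min (1 / 4 : ℝ) (η / 4)) (min (δ / (2 * C)) (1 / (4 * N))) ≤ 1 / (4 * N) :=
        h1.trans h2
      rw [le_div_iff₀ (by positivity)] at h3
      linarith
  -- ties
  have htie : ∀ (q : ℕ) (w : Fin n → ℤ), (∀ i, |(q : ℝ) * y i - w i| < ε) → ∀ τ ∈ T, ∀ τ' ∈ T,
      hform A c τ y = 0 → hform A c τ' y = 0 →
      hform A c τ (fun i => (w i : ℝ)) = hform A c τ' (fun i => (w i : ℝ)) := by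
    intro q w hw τ hτ τ' hτ' h h'
    have hj : ∀ j, ∑ i, (τ j i : ℝ) * (w i : ℝ) = ∑ i, (τ' j i : ℝ) * (w i : ℝ) := by
      intro j
      have e1 := hT0 τ hτ h j
      have e2 := hT0 τ' hτ' h' j
      have habs : |∑ i, (τ j i : ℝ) * (w i : ℝ) - ∑ i, (τ' j i : ℝ) * (w i : ℝ)| < 1 := by
        have e3 : ∑ i, (τ j i : ℝ) * (w i : ℝ) - ∑ i, (τ' j i : ℝ) * (w i : ℝ) =
            ∑ i, (τ' j i : ℝ) * ((q : ℝ) * y i - w i) - ∑ i, (τ j i : ℝ) * ((q : ℝ) * y i - w i) := by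
          have f1 : ∑ i, (τ j i : ℝ) * ((q : ℝ) * y i - w i) = q * μ j - ∑ i, (τ j i : ℝ) * (w i : ℝ) := by
            rw [← e1, Finset.mul_sum, ← Finset.sum_sub_distrib]
            exact Finset.sum_congr rfl fun i _ => by ring
          have f2 : ∑ i, (τ' j i : ℝ) * ((q : ℝ) * y i - w i) = q * μ j - ∑ i, (τ' j i : ℝ) * (w i : ℝ) := by
            rw [← e2, Finset.mul_sum, ← Finset.sum_sub_distrib]
            exact Finset.sum_congr rfl fun i _ => by ring
          rw [f1, f2]; ring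
        have f3 : ∀ σ ∈ T, |∑ i, (σ j i : ℝ) * ((q : ℝ) * y i - w i)| ≤ N * ε := by
          intro σ hσ
          refine (Finset.abs_sum_le_sum_abs _ _).trans ?_
          calc ∑ i, |(σ j i : ℝ) * ((q : ℝ) * y i - w i)| ≤ ∑ i, (σ j i : ℝ) * ε := by
                refine Finset.sum_le_sum fun i _ => ?_
                rw [abs_mul, abs_of_nonneg (Nat.cast_nonneg _)]
                exact mul_le_mul_of_nonneg_left (hw i).le (Nat.cast_nonneg _)
            _ = (∑ i, (σ j i : ℝ)) * ε := by rw [Finset.sum_mul]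
            _ ≤ N * ε := mul_le_mul_of_nonneg_right (hNb σ hσ j) hε.le
        rw [e3]
        calc _ ≤ |∑ i, (τ' j i : ℝ) * ((q : ℝ) * y i - w i)| +
              |∑ i, (τ j i : ℝ) * ((q : ℝ) * y i - w i)| := abs_sub _ _
          _ ≤ N * ε + N * ε := add_le_add (f3 τ' hτ') (f3 τ hτ)
          _ < 1 := by linarith
      have hint : (∑ i, (τ j i : ℤ) * w i) - (∑ i, (τ' j i : ℤ) * w i) = 0 := by
        rw [← Int.abs_lt_one_iff]
        have : ((|(∑ i, (τ j i : ℤ) * w i) - (∑ i, (τ' j i : ℤ) * w i)| : ℤ) : ℝ) < ((1 : ℤ) : ℝ) := by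
          push_cast
          exact habs
        exact_mod_cast this
      have := congrArg (fun z : ℤ => (z : ℝ)) hint
      push_cast at this
      linarith
    unfold hform
    congr 1
    exact Finset.sum_congr rfl fun j _ => by rw [hj j]
  -- general conclusion from a good integer vector
  have hfin : ∀ (q : ℕ) (w : Fin n → ℤ), 1 ≤ q → (∀ i, |(q : ℝ) * y i - w i| ≤ 2 * ε) →
      (∀ τ ∈ T, hform A c τ y = 0 → 0 ≤ hform A c τ (fun i => (w i : ℝ))) →
      ∃ w : Fin n → ℕ, (∃ i, w i ≠ 0) ∧ (∀ i, y i = 0 → w i = 0) ∧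
        ∀ τ ∈ T, 0 ≤ hform A c τ (fun i => (w i : ℝ)) := by
    intro q w hq hw hw0
    have hq' : (1 : ℝ) ≤ q := by exact_mod_cast hq
    have hpos : ∀ i, 0 < y i → 0 < w i := by
      intro i hi
      have h1 := (abs_le.1 (hw i)).2
      have h2 := hηb i hi
      have h3 : y i ≤ q * y i := by nlinarith
      have : (0 : ℝ) < w i := by linarith
      exact_mod_cast this
    have hzero : ∀ i, y i = 0 → w i = 0 := by
      intro i hi
      have h1 := hw i
      rw [hi, mul_zero, zero_sub, abs_neg] at h1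
      rw [← Int.abs_lt_one_iff]
      have : ((|w i| : ℤ) : ℝ) < ((1 : ℤ) : ℝ) := by
        push_cast
        linarith
      exact_mod_cast this
    have hnonneg : ∀ i, 0 ≤ w i := by
      intro i
      rcases (hy0 i).lt_or_eq with h | h
      · exact (hpos i h).le
      · rw [hzero i h.symm]
    have hcast : ∀ i, ((w i).toNat : ℝ) = (w i : ℝ) := by
      intro i
      have : (((w i).toNat : ℤ) : ℝ) = (w i : ℝ) := by rw [Int.toNat_of_nonneg (hnonneg i)]
      exact_mod_cast this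
    refine ⟨fun i => (w i).toNat, ?_, ?_, ?_⟩
    · obtain ⟨i, hi⟩ := hy1
      refine ⟨i, ?_⟩
      have := hpos i hi
      simp only
      omega
    · intro i hi
      simp [hzero i hi]
    · intro τ hτ
      have e : (fun i => (((w i).toNat : ℕ) : ℝ)) = fun i => (w i : ℝ) := funext hcast
      rw [e]
      rcases (hT τ hτ).lt_or_eq with h | h
      · have h1 := hδb τ hτ h
        have h2 := hCb τ hτ (fun i => (q : ℝ) * y i - w i) (2 * ε) (by positivity) hw
        have h3 : hform A c τ (fun i => (q : ℝ) * y i - w i) =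
            q * hform A c τ y - hform A c τ (fun i => (w i : ℝ)) := by
          have := hform_sub A c τ ((q : ℝ) • y) (fun i => (w i : ℝ))
          rw [hform_smul] at this
          exact this
        rw [h3] at h2
        have h4 := (abs_le.1 h2).2
        nlinarith
      · exact hw0 τ hτ h.symm
  obtain ⟨q1, hq1, w1, hw1⟩ := dirichlet y hε 0
  by_cases hall : ∀ τ ∈ T, hform A c τ y = 0 → 0 ≤ hform A c τ (fun i => (w1 i : ℝ))
  · exact hfin q1 w1 hq1 (fun i => (hw1 i).le.trans (by linarith)) hall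
  · push Not at hall
    obtain ⟨τ1, hτ1, hz1, hneg⟩ := hall
    set g := - hform A c τ1 (fun i => (w1 i : ℝ)) with hg
    have hgpos : 0 < g := by linarith
    obtain ⟨q2, hq2, w2, hw2⟩ := dirichlet y (ε := min ε (g / (2 * C))) (by positivity) q1
    refine hfin (q2 - q1) (fun i => w2 i - w1 i) (by omega) (fun i => ?_) (fun τ hτ hz => ?_)
    · have e1 := hw1 i
      have e2 := (hw2 i).trans_le (min_le_left _ _)
      rw [Nat.cast_sub hq2.le]
      push_cast
      rw [show ((q2 : ℝ) - q1) * y i - ((w2 i : ℝ) - w1 i) =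
        ((q2 : ℝ) * y i - w2 i) - ((q1 : ℝ) * y i - w1 i) by ring]
      exact (abs_sub _ _).trans (by linarith)
    · have e0 : (fun i => ((w2 i - w1 i : ℤ) : ℝ)) =
          (fun i => (w2 i : ℝ)) - fun i => (w1 i : ℝ) := by
        funext i; simp
      rw [e0, hform_sub, htie q1 w1 hw1 τ hτ τ1 hτ1 hz hz1]
      have h2 := hCb τ hτ (fun i => (q2 : ℝ) * y i - w2 i) (g / (2 * C)) (by positivity)
        (fun i => (hw2 i).le.trans (min_le_right _ _))
      have h3 : hform A c τ (fun i => (q2 : ℝ) * y i - w2 i) =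
          q2 * hform A c τ y - hform A c τ (fun i => (w2 i : ℝ)) := by
        have := hform_sub A c τ ((q2 : ℝ) • y) (fun i => (w2 i : ℝ))
        rw [hform_smul] at this
        exact this
      rw [h3, hz, mul_zero, zero_sub, abs_neg] at h2
      have h4 := (abs_le.1 h2).1
      have h5 : C * (g / (2 * C)) = g / 2 := by field_simp
      rw [h5] at h4
      linarith

end Pool.Agent.Work.MP_43381c_ag
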