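import Pool.Agent.Work.MP_43381c_ag.CombA

/-!
# Combinatorial part, II: the orthant theorem for a fixed number of hypersurfaces
-/

open Filter Topology

namespace Pool.Agent.Work.MP_43381c_ag

/-- The descending chain condition for a set of real numbers. -/
def DCC (G : Set ℝ) : Prop := ¬ ∃ u : ℕ → ℝ, StrictAnti u ∧ ∀ n, u n ∈ G

theorem dcc_gap {G : Set ℝ} (hG : DCC G) (x : ℝ) :
    ¬ ∀ y, x < y → ∃ z ∈ G, x < z ∧ z < y := by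
  intro h
  have hstep : ∀ z : {z : ℝ // z ∈ G ∧ x < z}, ∃ z' : {z : ℝ // z ∈ G ∧ x < z}, z'.1 < z.1 := by
    rintro ⟨z, hz, hxz⟩
    obtain ⟨z', h1, h2, h3⟩ := h z hxz
    exact ⟨⟨z', h1, h2⟩, h3⟩
  choose g hg using hstep
  obtain ⟨z0, h1, h2, -⟩ := h (x + 1) (by linarith)
  refine hG ⟨fun n => (g^[n] ⟨z0, h1, h2⟩).1, strictAnti_nat_of_succ_lt fun n => ?_,
    fun n => (g^[n] _).2.1⟩
  rw [Function.iterate_succ_apply']
  exact hg _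

theorem dcc_ulim {G : Set ℝ} (hG : DCC G) (U : Ultrafilter ℕ) (f : ℕ → ℝ)
    (hf : ∀ k, f k ∈ G) {x : ℝ} (hx : Tendsto f U (𝓝 x)) : ∀ᶠ k in (U : Filter ℕ), f k ≤ x := by
  by_contra hcon
  rw [← Ultrafilter.eventually_not] at hcon
  refine dcc_gap hG x fun y hxy => ?_
  have h1 : ∀ᶠ k in (U : Filter ℕ), f k < y := hx.eventually_lt_const hxy
  obtain ⟨k, hk1, hk2⟩ := (hcon.and h1).exists
  exact ⟨f k, hf k, not_le.1 hk1, hk2⟩

theorem exists_ulim (U : Ultrafilter ℕ) (f : ℕ → ℝ) {a b : ℝ}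
    (h : ∀ᶠ k in (U : Filter ℕ), a ≤ f k ∧ f k ≤ b) :
    ∃ x, a ≤ x ∧ x ≤ b ∧ Tendsto f U (𝓝 x) := by
  obtain ⟨x, hx, hU⟩ := (isCompact_Icc (a := a) (b := b)).ultrafilter_le_nhds (U.map f) (by
    rw [le_principal_iff]; exact h)
  exact ⟨x, hx.1, hx.2, hU⟩

/-- Minimum of the linear forms `∑ m i u i`, `m ∈ S`. -/
noncomputable def ph {n : ℕ} (S : Finset (Fin n → ℕ)) (u : Fin n → ℝ) : ℝ :=
  sInf ((fun m : Fin n → ℕ => ∑ i, (m i : ℝ) * u i) '' (S : Set (Fin n → ℕ)))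

theorem ph_spec {n : ℕ} {S : Finset (Fin n → ℕ)} (hS : S.Nonempty) (u : Fin n → ℝ) :
    ∃ m ∈ S, ph S u = ∑ i, (m i : ℝ) * u i ∧ ∀ m' ∈ S, ph S u ≤ ∑ i, (m' i : ℝ) * u i := by
  obtain ⟨m, hm, hmin⟩ := Finset.exists_min_image S (fun m => ∑ i, (m i : ℝ) * u i) hS
  have hleast : IsLeast ((fun m : Fin n → ℕ => ∑ i, (m i : ℝ) * u i) '' (S : Set (Fin n → ℕ)))
      (∑ i, (m i : ℝ) * u i) := by
    refine ⟨⟨m, hm, rfl⟩, ?_⟩
    rintro _ ⟨m', hm', rfl⟩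
    exact hmin m' hm'
  have heq : ph S u = ∑ i, (m i : ℝ) * u i := hleast.csInf_eq
  exact ⟨m, hm, heq, fun m' hm' => heq ▸ hmin m' hm'⟩

theorem ph_nonneg {n : ℕ} {S : Finset (Fin n → ℕ)} (hS : S.Nonempty) {u : Fin n → ℝ}
    (hu : ∀ i, 0 ≤ u i) : 0 ≤ ph S u := by
  obtain ⟨m, _, h, _⟩ := ph_spec hS u
  rw [h]
  exact Finset.sum_nonneg fun i _ => mul_nonneg (Nat.cast_nonneg _) (hu i)

/-- The function `a`. -/
noncomputable def aw {n s : ℕ} (b : Fin n → ℝ) (c : Fin s → ℝ) (S : Fin s → Finset (Fin n → ℕ))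
    (u : Fin n → ℝ) : ℝ :=
  ∑ i, (1 - b i) * u i - ∑ j, c j * ph (S j) u

/-- Data of an lc configuration in the orthant. -/
structure Dat (n s : ℕ) (G : Set ℝ) (γ : ℝ) where
  Λ : AddSubgroup (Fin n → ℝ)
  hΛ : ∀ i, Pi.single i (1 : ℝ) ∈ Λ
  b : Fin n → ℝ
  hb : ∀ i, b i ∈ G
  c : Fin s → ℝ
  hc : ∀ j, c j ∈ G
  hγ : ∀ j, γ ≤ c j
  S : Fin s → Finset (Fin n → ℕ)
  hS : ∀ j, (S j).Nonempty
  lc : ∀ u ∈ Λ, (∀ i, 0 < u i) → 0 ≤ aw b c S u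

theorem nat_mem {n : ℕ} (Λ : AddSubgroup (Fin n → ℝ)) (hΛ : ∀ i, Pi.single i (1 : ℝ) ∈ Λ)
    (w : Fin n → ℕ) : (fun i => (w i : ℝ)) ∈ Λ := by
  have : (fun i => (w i : ℝ)) = ∑ i, w i • (Pi.single i (1 : ℝ) : Fin n → ℝ) := by
    funext j
    simp only [Finset.sum_apply, Pi.smul_apply, nsmul_eq_mul]
    rw [Finset.sum_eq_single j]
    · simp
    · intro i _ hij
      simp [Pi.single_apply, Ne.symm hij]
    · simp
  rw [this]
  exact Λ.sum_mem fun i _ => Λ.nsmul_mem (hΛ i) _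

theorem sum_b_le {n : ℕ} {b u : Fin n → ℝ} (hb : ∀ i, 0 ≤ b i) (hu : ∀ i, 0 ≤ u i) :
    ∑ i, (1 - b i) * u i ≤ ∑ i, u i :=
  Finset.sum_le_sum fun i _ => by nlinarith [hb i, hu i]

theorem Dat.ph_le {n s : ℕ} {G : Set ℝ} {γ : ℝ} (hγ : 0 < γ) (hG : ∀ g ∈ G, 0 ≤ g ∧ g ≤ 1)
    (D : Dat n s G γ) {u : Fin n → ℝ} (hu : u ∈ D.Λ) (hpos : ∀ i, 0 < u i) (j : Fin s) :
    γ * ph (D.S j) u ≤ ∑ i, u i := by
  have h1 := D.lc u hu hpos
  have h2 := sum_b_le (b := D.b) (u := u) (fun i => (hG _ (D.hb i)).1) (fun i => (hpos i).le)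
  have h3 : ∀ j, 0 ≤ ph (D.S j) u := fun j => ph_nonneg (D.hS j) fun i => (hpos i).le
  have h4 : D.c j * ph (D.S j) u ≤ ∑ j, D.c j * ph (D.S j) u :=
    Finset.single_le_sum (f := fun j => D.c j * ph (D.S j) u)
      (fun j _ => mul_nonneg (hγ.le.trans (D.hγ j)) (h3 j)) (Finset.mem_univ j)
  have h5 : γ * ph (D.S j) u ≤ D.c j * ph (D.S j) u := mul_le_mul_of_nonneg_right (D.hγ j) (h3 j)
  unfold aw at h1
  linarith

/-- The shift inequality at one stage. -/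
theorem shift_le {n s : ℕ} {b binf : Fin n → ℝ} {c cinf : Fin s → ℝ}
    {S : Fin s → Finset (Fin n → ℕ)} (hS : ∀ j, (S j).Nonempty) (u : Fin n → ℝ) (w : Fin n → ℕ)
    (hb : ∀ i, b i ≤ binf i) (hc : ∀ j, c j ≤ cinf j) (hc0 : ∀ j, 0 ≤ c j)
    (m : Fin s → Fin n → ℕ) (hm : ∀ j, m j ∈ S j)
    (hmin : ∀ j, ph (S j) (u - fun i => (w i : ℝ)) =
      ∑ i, (m j i : ℝ) * (u - fun i => (w i : ℝ)) i)
    (τ : Fin s → Fin n → ℕ) (hτ : ∀ j i, w i ≠ 0 → m j i = τ j i)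
    (hh : 0 ≤ hform (fun i => 1 - binf i) cinf τ (fun i => (w i : ℝ))) :
    aw b c S (u - fun i => (w i : ℝ)) ≤ aw b c S u := by
  have e1 : ∀ j, ∑ i, (m j i : ℝ) * (w i : ℝ) = ∑ i, (τ j i : ℝ) * (w i : ℝ) := by
    intro j
    refine Finset.sum_congr rfl fun i _ => ?_
    by_cases h : w i = 0
    · simp [h]
    · rw [hτ j i h]
  have e2 : ∀ j, c j * ph (S j) u - c j * ph (S j) (u - fun i => (w i : ℝ)) ≤
      cinf j * ∑ i, (τ j i : ℝ) * (w i : ℝ) := by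
    intro j
    obtain ⟨_, _, _, hle⟩ := ph_spec (hS j) u
    have h1 := hle (m j) (hm j)
    have h2 : ph (S j) (u - fun i => (w i : ℝ)) =
        ∑ i, (m j i : ℝ) * u i - ∑ i, (m j i : ℝ) * (w i : ℝ) := by
      rw [hmin j, ← Finset.sum_sub_distrib]
      exact Finset.sum_congr rfl fun i _ => by simp [mul_sub]
    have h3 : ph (S j) u - ph (S j) (u - fun i => (w i : ℝ)) ≤ ∑ i, (τ j i : ℝ) * (w i : ℝ) := by
      rw [h2, ← e1 j]; linarith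
    have h4 : 0 ≤ ∑ i, (τ j i : ℝ) * (w i : ℝ) := by positivity
    calc c j * ph (S j) u - c j * ph (S j) (u - fun i => (w i : ℝ))
        = c j * (ph (S j) u - ph (S j) (u - fun i => (w i : ℝ))) := by ring
      _ ≤ c j * ∑ i, (τ j i : ℝ) * (w i : ℝ) := mul_le_mul_of_nonneg_left h3 (hc0 j)
      _ ≤ cinf j * ∑ i, (τ j i : ℝ) * (w i : ℝ) := mul_le_mul_of_nonneg_right (hc j) h4
  have e3 : ∑ j, c j * ph (S j) u - ∑ j, c j * ph (S j) (u - fun i => (w i : ℝ)) ≤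
      ∑ j, cinf j * ∑ i, (τ j i : ℝ) * (w i : ℝ) := by
    rw [← Finset.sum_sub_distrib]
    exact Finset.sum_le_sum fun j _ => e2 j
  have e4 : ∑ i, (1 - b i) * (u - fun i => (w i : ℝ)) i =
      ∑ i, (1 - b i) * u i - ∑ i, (1 - b i) * (w i : ℝ) := by
    rw [← Finset.sum_sub_distrib]
    exact Finset.sum_congr rfl fun i _ => by simp [mul_sub]
  have e5 : ∑ i, (1 - binf i) * (w i : ℝ) ≤ ∑ i, (1 - b i) * (w i : ℝ) :=
    Finset.sum_le_sum fun i _ => mul_le_mul_of_nonneg_right (by linarith [hb i]) (Nat.cast_nonneg _)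
  unfold hform at hh
  unfold aw
  rw [e4]
  linarith

end Pool.Agent.Work.MP_43381c_ag
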