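import Pool.Agent.Work.MP_43381c_ag.CombB

/-!
# Combinatorial part, III: proof of the orthant theorem for a fixed number of hypersurfaces
-/

open Filter Topology

namespace Pool.Agent.Work.MP_43381c_ag

theorem near_min {α : Type*} (P : α → Prop) (f : α → ℝ) (hne : ∃ x, P x)
    (hb : ∀ x, P x → 0 ≤ f x) : ∃ x, P x ∧ ∀ y, P y → f x ≤ f y + 1 / 2 := by
  obtain ⟨x0, hx0⟩ := hne
  have hA : (f '' {x | P x}).Nonempty := ⟨f x0, x0, hx0, rfl⟩
  have hbdd : BddBelow (f '' {x | P x}) := ⟨0, by rintro _ ⟨x, hx, rfl⟩; exact hb x hx⟩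
  obtain ⟨t, ⟨x, hx, rfl⟩, ht⟩ := exists_lt_of_csInf_lt hA
    (show sInf (f '' {x | P x}) < sInf (f '' {x | P x}) + 1 / 2 by linarith)
  exact ⟨x, hx, fun y hy => by have := csInf_le hbdd ⟨y, hy, rfl⟩; linarith⟩

theorem orthant_fixed (n s : ℕ) {G : Set ℝ} (hG1 : ∀ g ∈ G, 0 ≤ g ∧ g ≤ 1) (hG : DCC G) {γ : ℝ}
    (hγ : 0 < γ) :
    ∃ l : ℝ, ∀ D : Dat n s G γ, ∀ u ∈ D.Λ, (∀ i, 0 < u i) →
      ∃ u' ∈ D.Λ, (∀ i, 0 < u' i) ∧ aw D.b D.c D.S u' ≤ aw D.b D.c D.S u ∧ ∑ i, u' i ≤ l := by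
  classical
  by_contra hcon
  push Not at hcon
  choose D v hv hvpos hvmin using fun k : ℕ => hcon (k : ℝ)
  have hnm : ∀ k, ∃ u, (u ∈ (D k).Λ ∧ (∀ i, 0 < u i) ∧
      aw (D k).b (D k).c (D k).S u ≤ aw (D k).b (D k).c (D k).S (v k)) ∧
      ∀ y, (y ∈ (D k).Λ ∧ (∀ i, 0 < y i) ∧
        aw (D k).b (D k).c (D k).S y ≤ aw (D k).b (D k).c (D k).S (v k)) →
        ∑ i, u i ≤ ∑ i, y i + 1 / 2 := fun k =>
    near_min (fun u => u ∈ (D k).Λ ∧ (∀ i, 0 < u i) ∧
      aw (D k).b (D k).c (D k).S u ≤ aw (D k).b (D k).c (D k).S (v k)) (fun u => ∑ i, u i)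
      ⟨v k, hv k, hvpos k, le_rfl⟩ (fun x hx => Finset.sum_nonneg fun i _ => (hx.2.1 i).le)
  choose u hu hunm using hnm
  have humem : ∀ k, u k ∈ (D k).Λ := fun k => (hu k).1
  have hupos : ∀ k i, 0 < u k i := fun k => (hu k).2.1
  set T : ℕ → ℝ := fun k => ∑ i, u k i with hTdef
  have hT : ∀ k : ℕ, (k : ℝ) < T k := fun k => hvmin k (u k) (hu k).1 (hu k).2.1 (hu k).2.2
  have hT0 : ∀ k, 0 < T k := fun k => (Nat.cast_nonneg k).trans_lt (hT k)
  have huT : ∀ k i, u k i ≤ T k := fun k i =>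
    Finset.single_le_sum (f := fun i => u k i) (fun i _ => (hupos k i).le) (Finset.mem_univ i)
  set U : Ultrafilter ℕ := Filter.hyperfilter ℕ with hUdef
  have hU : (U : Filter ℕ) ≤ atTop := Nat.hyperfilter_le_atTop
  have hTtop : Tendsto T U atTop :=
    (tendsto_atTop_mono (fun k => (hT k).le) tendsto_natCast_atTop_atTop).mono_left hU
  -- limits
  have hyex : ∀ i, ∃ x, 0 ≤ x ∧ x ≤ 1 ∧ Tendsto (fun k => u k i / T k) U (𝓝 x) := fun i =>
    exists_ulim U _ (Eventually.of_forall fun k =>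
      ⟨div_nonneg (hupos k i).le (hT0 k).le, (div_le_one (hT0 k)).2 (huT k i)⟩)
  choose y hy0 hy1 hy using hyex
  have hsum1 : ∑ i, y i = 1 := by
    have h1 : Tendsto (fun k => ∑ i, u k i / T k) U (𝓝 (∑ i, y i)) :=
      tendsto_finsetSum _ fun i _ => hy i
    have h2 : (fun k => ∑ i, u k i / T k) = fun _ => (1 : ℝ) := by
      funext k
      rw [← Finset.sum_div]
      exact div_self (hT0 k).ne'
    rw [h2] at h1
    exact tendsto_nhds_unique h1 tendsto_const_nhds
  have hyex1 : ∃ i, 0 < y i := by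
    by_contra hno
    push Not at hno
    have : ∑ i, y i ≤ 0 := Finset.sum_nonpos fun i _ => hno i
    linarith
  have hbex : ∀ i, ∃ x, 0 ≤ x ∧ x ≤ 1 ∧ Tendsto (fun k => (D k).b i) U (𝓝 x) := fun i =>
    exists_ulim U _ (Eventually.of_forall fun k => hG1 _ ((D k).hb i))
  choose binf hbinf0 hbinf1 hbinf using hbex
  have hcex : ∀ j, ∃ x, 0 ≤ x ∧ x ≤ 1 ∧ Tendsto (fun k => (D k).c j) U (𝓝 x) := fun j =>
    exists_ulim U _ (Eventually.of_forall fun k => hG1 _ ((D k).hc j))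
  choose cinf hcinf0 hcinf1 hcinf using hcex
  have hble : ∀ i, ∀ᶠ k in (U : Filter ℕ), (D k).b i ≤ binf i := fun i =>
    dcc_ulim hG U _ (fun k => (D k).hb i) (hbinf i)
  have hcle : ∀ j, ∀ᶠ k in (U : Filter ℕ), (D k).c j ≤ cinf j := fun j =>
    dcc_ulim hG U _ (fun k => (D k).hc j) (hcinf j)
  have hcpos : ∀ j, 0 < cinf j := fun j =>
    hγ.trans_le (ge_of_tendsto (hcinf j) (Eventually.of_forall fun k => (D k).hγ j))
  have hmuex : ∀ j, ∃ x, 0 ≤ x ∧ x ≤ 1 / γ ∧
      Tendsto (fun k => ph ((D k).S j) (u k) / T k) U (𝓝 x) := fun j =>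
    exists_ulim U _ (Eventually.of_forall fun k => by
      have h1 := (D k).ph_le hγ hG1 (humem k) (hupos k) j
      have h2 := ph_nonneg ((D k).hS j) fun i => (hupos k i).le
      refine ⟨div_nonneg h2 (hT0 k).le, ?_⟩
      rw [div_le_div_iff₀ (hT0 k) hγ]
      linarith)
  choose μ hmu0 hmu1 hmu using hmuex
  -- a (u k) is bounded
  have hawn : ∀ᶠ k in (U : Filter ℕ), aw (D k).b (D k).c (D k).S (u k) ≤ n := by
    have h1 : ∀ᶠ k : ℕ in (U : Filter ℕ), n + 1 ≤ k := hU (eventually_ge_atTop (n + 1))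
    filter_upwards [h1] with k hk
    by_contra hlt
    push Not at hlt
    have hone : (fun i => (((fun _ => 1 : Fin n → ℕ) i : ℕ) : ℝ)) ∈ (D k).Λ :=
      nat_mem (D k).Λ (D k).hΛ (fun _ => 1)
    have honepos : ∀ i, 0 < (fun i => (((fun _ => 1 : Fin n → ℕ) i : ℕ) : ℝ)) i := by
      intro i; simp
    have haw1 : aw (D k).b (D k).c (D k).S (fun i => (((fun _ => 1 : Fin n → ℕ) i : ℕ) : ℝ)) ≤ n := by
      unfold aw
      have e1 := sum_b_le (b := (D k).b) (u := fun i => (((fun _ => 1 : Fin n → ℕ) i : ℕ) : ℝ))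
        (fun i => (hG1 _ ((D k).hb i)).1) (fun i => (honepos i).le)
      have e2 : ∑ i, (fun i => (((fun _ => 1 : Fin n → ℕ) i : ℕ) : ℝ)) i = n := by simp
      have e3 : 0 ≤ ∑ j, (D k).c j * ph ((D k).S j) (fun i => (((fun _ => 1 : Fin n → ℕ) i : ℕ) : ℝ)) :=
        Finset.sum_nonneg fun j _ => mul_nonneg (hG1 _ ((D k).hc j)).1
          (ph_nonneg ((D k).hS j) fun i => (honepos i).le)
      linarith
    have h3 := hunm k _ ⟨hone, honepos, haw1.trans (hlt.le.trans (hu k).2.2)⟩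
    have e2 : ∑ i, (fun i => (((fun _ => 1 : Fin n → ℕ) i : ℕ) : ℝ)) i = n := by simp
    rw [e2] at h3
    have h4 := hT k
    have h5 : ((n + 1 : ℕ) : ℝ) ≤ k := by exact_mod_cast hk
    push_cast at h5
    simp only [hTdef] at h4
    linarith
  have heq : ∑ i, (1 - binf i) * y i = ∑ j, cinf j * μ j := by
    have h1 : Tendsto (fun k => aw (D k).b (D k).c (D k).S (u k) / T k) U
        (𝓝 (∑ i, (1 - binf i) * y i - ∑ j, cinf j * μ j)) := by
      have e : (fun k => aw (D k).b (D k).c (D k).S (u k) / T k) = fun k =>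
          ∑ i, (1 - (D k).b i) * (u k i / T k) -
            ∑ j, (D k).c j * (ph ((D k).S j) (u k) / T k) := by
        funext k
        unfold aw
        rw [sub_div, Finset.sum_div, Finset.sum_div]
        congr 1
        · exact Finset.sum_congr rfl fun i _ => by rw [mul_div_assoc]
        · exact Finset.sum_congr rfl fun j _ => by rw [mul_div_assoc]
      rw [e]
      exact (tendsto_finsetSum _ fun i _ => (tendsto_const_nhds.sub (hbinf i)).mul (hy i)).sub
        (tendsto_finsetSum _ fun j _ => (hcinf j).mul (hmu j))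
    have h2 : Tendsto (fun k => aw (D k).b (D k).c (D k).S (u k) / T k) U (𝓝 0) := by
      refine tendsto_of_tendsto_of_tendsto_of_le_of_le' (tendsto_const_nhds (x := (0 : ℝ)))
        ((tendsto_const_nhds (x := (n : ℝ))).div_atTop hTtop) ?_ ?_
      · exact Eventually.of_forall fun k =>
          div_nonneg ((D k).lc (u k) (humem k) (hupos k)) (hT0 k).le
      · filter_upwards [hawn] with k hk
        exact div_le_div_of_nonneg_right hk (hT0 k).le
    have := tendsto_nhds_unique h1 h2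
    linarith
  -- the finite set of tuples
  set Bd : Fin n → ℕ := fun i => if 0 < y i then ⌈2 / (γ * y i)⌉₊ else 0 with hBd
  set Tu : Finset (Fin s → Fin n → ℕ) :=
    (Fintype.piFinset fun _ : Fin s => Finset.Iic Bd).filter
      (fun τ => ∀ j, ∑ i, (τ j i : ℝ) * y i ≤ μ j) with hTu
  have hform_eq : ∀ τ : Fin s → Fin n → ℕ, hform (fun i => 1 - binf i) cinf τ y =
      ∑ j, cinf j * (μ j - ∑ i, (τ j i : ℝ) * y i) := by
    intro τ
    unfold hform
    rw [heq, ← Finset.sum_sub_distrib]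
    exact Finset.sum_congr rfl fun j _ => by ring
  obtain ⟨w, hw1, hw2, hw3⟩ := choose_shift y hy0 hyex1 (fun i => 1 - binf i) cinf μ Tu
    (fun τ hτ => by
      rw [hform_eq]
      exact Finset.sum_nonneg fun j _ => mul_nonneg (hcpos j).le
        (by have := (Finset.mem_filter.1 hτ).2 j; linarith))
    (fun τ hτ h0 j => by
      rw [hform_eq] at h0
      have h1 := (Finset.sum_eq_zero_iff_of_nonneg (fun j _ => mul_nonneg (hcpos j).le
        (by have := (Finset.mem_filter.1 hτ).2 j; linarith))).1 h0 j (Finset.mem_univ j)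
      have h2 := (mul_eq_zero.1 h1).resolve_left (hcpos j).ne'
      linarith)
  set W : Fin n → ℝ := fun i => (w i : ℝ) with hW
  -- positivity of u k - w
  have hTinv : Tendsto (fun k => (1 : ℝ) / T k) U (𝓝 0) := tendsto_const_nhds.div_atTop hTtop
  have hlim2 : ∀ i, Tendsto (fun k => (u k - W) i / T k) U (𝓝 (y i)) := by
    intro i
    have h1 : Tendsto (fun k => u k i / T k - W i * (1 / T k)) U (𝓝 (y i - W i * 0)) :=
      (hy i).sub (tendsto_const_nhds.mul hTinv)
    rw [mul_zero, sub_zero] at h1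
    refine h1.congr fun k => ?_
    simp only [Pi.sub_apply]
    ring
  have hE2 : ∀ i, 0 < y i → ∀ᶠ k in (U : Filter ℕ), y i / 2 * T k < (u k - W) i := by
    intro i hi
    have := (hlim2 i).eventually_const_lt (show y i / 2 < y i by linarith)
    filter_upwards [this] with k hk
    rwa [lt_div_iff₀ (hT0 k)] at hk
  have hE1 : ∀ i, ∀ᶠ k in (U : Filter ℕ), 0 < (u k - W) i := by
    intro i
    rcases (hy0 i).lt_or_eq with h | h
    · filter_upwards [hE2 i h] with k hk
      have : 0 < y i / 2 * T k := mul_pos (by linarith) (hT0 k)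
      linarith
    · refine Eventually.of_forall fun k => ?_
      have : W i = 0 := by simp [hW, hw2 i h.symm]
      simp only [Pi.sub_apply, this, sub_zero]
      exact hupos k i
  have hE1' : ∀ᶠ k in (U : Filter ℕ), ∀ i, 0 < (u k - W) i := eventually_all.2 hE1
  have hmem : ∀ k, u k - W ∈ (D k).Λ := fun k =>
    (D k).Λ.sub_mem (humem k) (nat_mem (D k).Λ (D k).hΛ w)
  have hW0 : ∀ i, 0 ≤ W i := fun i => Nat.cast_nonneg _
  -- minimisers
  choose m hm hmeq hmle using fun (k : ℕ) (j : Fin s) => ph_spec ((D k).hS j) (u k - W)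
  have hphle : ∀ k, (∀ i, 0 < (u k - W) i) → ∀ j, ph ((D k).S j) (u k - W) ≤ ph ((D k).S j) (u k) := by
    intro k _ j
    obtain ⟨m0, hm0, e0, _⟩ := ph_spec ((D k).hS j) (u k)
    rw [e0]
    refine (hmle k j m0 hm0).trans (Finset.sum_le_sum fun i _ => ?_)
    refine mul_le_mul_of_nonneg_left ?_ (Nat.cast_nonneg _)
    simp only [Pi.sub_apply]
    linarith [hW0 i]
  set tr : ℕ → Fin s → Fin n → ℕ := fun k j i => if 0 < y i then m k j i else 0 with htr
  have hbdd : ∀ j i, 0 < y i → ∀ᶠ k in (U : Filter ℕ), m k j i ≤ ⌈2 / (γ * y i)⌉₊ := by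
    intro j i hi
    filter_upwards [hE1', hE2 i hi] with k hk1 hk2
    have h1 := (D k).ph_le hγ hG1 (hmem k) hk1 j
    have h2 : ∑ i, (u k - W) i ≤ T k := by
      simp only [Pi.sub_apply, Finset.sum_sub_distrib]
      have : 0 ≤ ∑ i, W i := Finset.sum_nonneg fun i _ => hW0 i
      simp only [hTdef]
      linarith
    have h3 : (m k j i : ℝ) * (u k - W) i ≤ ph ((D k).S j) (u k - W) := by
      rw [hmeq k j]
      exact Finset.single_le_sum (f := fun i => (m k j i : ℝ) * (u k - W) i)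
        (fun i _ => mul_nonneg (Nat.cast_nonneg _) (hk1 i).le) (Finset.mem_univ i)
    have h4 : (m k j i : ℝ) * (y i / 2 * T k) ≤ (m k j i : ℝ) * (u k - W) i :=
      mul_le_mul_of_nonneg_left hk2.le (Nat.cast_nonneg _)
    have h5 : γ * ((m k j i : ℝ) * (y i / 2 * T k)) ≤ T k :=
      (mul_le_mul_of_nonneg_left (h4.trans h3) hγ.le).trans (h1.trans h2)
    have h6 : (m k j i : ℝ) * (γ * y i) ≤ 2 := by
      have h7 : ((m k j i : ℝ) * (γ * y i)) * T k ≤ 2 * T k := by nlinarith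
      exact le_of_mul_le_mul_right h7 (hT0 k)
    have h8 : (m k j i : ℝ) ≤ 2 / (γ * y i) := by
      rw [le_div_iff₀ (mul_pos hγ hi)]; exact h6
    exact_mod_cast h8.trans (Nat.le_ceil _)
  have hbdd' : ∀ᶠ k in (U : Filter ℕ), ∀ j i, 0 < y i → m k j i ≤ ⌈2 / (γ * y i)⌉₊ := by
    rw [eventually_all]; intro j
    rw [eventually_all]; intro i
    by_cases hi : 0 < y i
    · filter_upwards [hbdd j i hi] with k hk _ using hk
    · exact Eventually.of_forall fun k h => absurd h hi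
  have htrmem : ∀ᶠ k in (U : Filter ℕ), ∃ τ ∈ ((Fintype.piFinset fun _ : Fin s => Finset.Iic Bd :
      Finset (Fin s → Fin n → ℕ)) : Set (Fin s → Fin n → ℕ)), tr k = τ := by
    filter_upwards [hbdd'] with k hk
    refine ⟨tr k, ?_, rfl⟩
    rw [Finset.mem_coe, Fintype.mem_piFinset]
    intro j
    rw [Finset.mem_Iic]
    intro i
    simp only [htr, hBd]
    split_ifs with h
    · exact hk j i h
    · exact le_rfl
  obtain ⟨τ, hτmem, hτ⟩ := (Ultrafilter.eventually_exists_mem_iff (Finset.finite_toSet _)).1 htrmem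
  have hτle : ∀ j, ∑ i, (τ j i : ℝ) * y i ≤ μ j := by
    intro j
    have h1 : Tendsto (fun k => ∑ i, (τ j i : ℝ) * ((u k - W) i / T k)) U
        (𝓝 (∑ i, (τ j i : ℝ) * y i)) :=
      tendsto_finsetSum _ fun i _ => tendsto_const_nhds.mul (hlim2 i)
    refine le_of_tendsto_of_tendsto h1 (hmu j) ?_
    filter_upwards [hτ, hE1'] with k hk1 hk2
    have h2 : ∑ i, (τ j i : ℝ) * ((u k - W) i / T k) = (∑ i, (τ j i : ℝ) * (u k - W) i) / T k := by
      rw [Finset.sum_div]
      exact Finset.sum_congr rfl fun i _ => by rw [mul_div_assoc]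
    rw [h2]
    refine div_le_div_of_nonneg_right ?_ (hT0 k).le
    refine le_trans ?_ (hphle k hk2 j)
    rw [hmeq k j]
    refine Finset.sum_le_sum fun i _ => mul_le_mul_of_nonneg_right ?_ (hk2 i).le
    rw [← hk1]
    simp only [htr]
    split_ifs
    · exact le_rfl
    · simp
  have hτTu : τ ∈ Tu := by
    rw [hTu, Finset.mem_filter]
    exact ⟨by exact_mod_cast hτmem, hτle⟩
  -- choose one stage
  obtain ⟨k, hk1, hk2, hk3, hk4⟩ :=
    (hE1'.and (hτ.and ((eventually_all.2 hble).and (eventually_all.2 hcle)))).exists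
  have hshift : aw (D k).b (D k).c (D k).S (u k - W) ≤ aw (D k).b (D k).c (D k).S (u k) :=
    shift_le (D k).hS (u k) w hk3 hk4 (fun j => (hG1 _ ((D k).hc j)).1) (m k) (hm k)
      (fun j => hmeq k j) τ (fun j i hi => by
        have hyi : 0 < y i := by
          rcases (hy0 i).lt_or_eq with h | h
          · exact h
          · exact absurd (hw2 i h.symm) hi
        rw [← hk2]
        simp only [htr, if_pos hyi]) (hw3 τ hτTu)
  have hfin := hunm k (u k - W) ⟨hmem k, hk1, hshift.trans (hu k).2.2⟩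
  have hsumW : 1 ≤ ∑ i, W i := by
    obtain ⟨i, hi⟩ := hw1
    have h1 : (1 : ℝ) ≤ W i := by
      have : 1 ≤ w i := Nat.one_le_iff_ne_zero.2 hi
      simp only [hW]
      exact_mod_cast this
    exact h1.trans (Finset.single_le_sum (f := W) (fun i _ => hW0 i) (Finset.mem_univ i))
  simp only [Pi.sub_apply, Finset.sum_sub_distrib] at hfin
  linarith

end Pool.Agent.Work.MP_43381c_ag
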