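import Pool.Agent.Work.MP_43381c_ag.CombC

/-!
# Combinatorial part, IV: the orthant theorem, any number of hypersurfaces
-/

open Filter Topology

namespace Pool.Agent.Work.MP_43381c_ag

theorem dcc_insert_zero {G : Set ℝ} (hG1 : ∀ g ∈ G, 0 ≤ g) (hG : DCC G) : DCC (insert 0 G) := by
  rintro ⟨u, hu, hmem⟩
  refine hG ⟨u, hu, fun n => ?_⟩
  have h1 : 0 ≤ u (n + 1) := by
    rcases hmem (n + 1) with h | h
    · rw [h]
    · exact hG1 _ h
  have h2 : u (n + 1) < u n := hu (Nat.lt_succ_self n)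
  rcases hmem n with h | h
  · rw [h] at h2; linarith
  · exact h

theorem exists_gamma {G : Set ℝ} (hG : DCC G) : ∃ γ : ℝ, 0 < γ ∧ ∀ g ∈ G, 0 < g → γ ≤ g := by
  by_contra hcon
  push Not at hcon
  refine dcc_gap hG 0 fun y hy => ?_
  obtain ⟨g, hg, h0, hlt⟩ := hcon y hy
  exact ⟨g, hg, h0, hlt⟩

theorem ph_zero {n : ℕ} {S : Finset (Fin n → ℕ)} (h0 : (0 : Fin n → ℕ) ∈ S) {u : Fin n → ℝ}
    (hu : ∀ i, 0 ≤ u i) : ph S u = 0 := by
  refine le_antisymm ?_ (ph_nonneg ⟨_, h0⟩ hu)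
  obtain ⟨_, _, _, h⟩ := ph_spec ⟨_, h0⟩ u
  have := h 0 h0
  simpa using this

/-- The orthant theorem. -/
theorem orthant (n : ℕ) {G : Set ℝ} (hG1 : ∀ g ∈ G, 0 ≤ g ∧ g ≤ 1) (hG : DCC G) :
    ∃ l : ℝ, ∀ (Λ : AddSubgroup (Fin n → ℝ)) (_ : ∀ i, Pi.single i (1 : ℝ) ∈ Λ) (s : ℕ)
      (b : Fin n → ℝ) (_ : ∀ i, b i ∈ G) (c : Fin s → ℝ) (_ : ∀ j, c j = 0 ∨ c j ∈ G)
      (S : Fin s → Finset (Fin n → ℕ)) (_ : ∀ j, (S j).Nonempty)
      (_ : ∀ u ∈ Λ, (∀ i, 0 < u i) → 0 ≤ aw b c S u), ∀ u ∈ Λ, (∀ i, 0 < u i) →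
      ∃ u' ∈ Λ, (∀ i, 0 < u' i) ∧ aw b c S u' ≤ aw b c S u ∧ ∑ i, u' i ≤ l := by
  classical
  obtain ⟨γ, hγ, hγb⟩ := exists_gamma hG
  choose L hL using fun s' : ℕ => orthant_fixed n s' hG1 hG hγ
  refine ⟨∑ s' ∈ Finset.range (⌊(n : ℝ) / γ⌋₊ + 1), |L s'|, ?_⟩
  intro Λ hΛ s b hb c hc S hS lc u hu hpos
  have hc0 : ∀ j, 0 ≤ c j := by
    intro j
    rcases hc j with h | h
    · rw [h]
    · exact (hG1 _ h).1
  set R : Finset (Fin s) := Finset.univ.filter fun j => c j ≠ 0 ∧ (0 : Fin n → ℕ) ∉ S j with hR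
  have hcR : ∀ j ∈ R, c j ∈ G ∧ γ ≤ c j := by
    intro j hj
    have h1 := (Finset.mem_filter.1 hj).2.1
    have h2 : c j ∈ G := (hc j).resolve_left h1
    exact ⟨h2, hγb _ h2 (lt_of_le_of_ne (hc0 j) (Ne.symm h1))⟩
  -- reduction of the sum
  have hsum : ∀ v : Fin n → ℝ, (∀ i, 0 ≤ v i) →
      ∑ j, c j * ph (S j) v = ∑ j ∈ R, c j * ph (S j) v := by
    intro v hv
    rw [hR, Finset.sum_filter]
    refine Finset.sum_congr rfl fun j _ => ?_
    split_ifs with h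
    · rfl
    · by_cases h1 : c j = 0
      · rw [h1, zero_mul]
      · have h2 : (0 : Fin n → ℕ) ∈ S j := by
          by_contra h3
          exact h ⟨h1, h3⟩
        rw [ph_zero h2 hv, mul_zero]
  -- cardinality
  have hcard : R.card < ⌊(n : ℝ) / γ⌋₊ + 1 := by
    rw [Nat.lt_succ_iff]
    refine Nat.le_floor ?_
    rw [le_div_iff₀ hγ]
    have hone : (fun i => (((fun _ => 1 : Fin n → ℕ) i : ℕ) : ℝ)) ∈ Λ := nat_mem Λ hΛ (fun _ => 1)
    have honepos : ∀ i, 0 < (fun i => (((fun _ => 1 : Fin n → ℕ) i : ℕ) : ℝ)) i := by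
      intro i; simp
    have h1 := lc _ hone honepos
    unfold aw at h1
    rw [hsum _ fun i => (honepos i).le] at h1
    have e1 := sum_b_le (b := b) (u := fun i => (((fun _ => 1 : Fin n → ℕ) i : ℕ) : ℝ))
      (fun i => (hG1 _ (hb i)).1) (fun i => (honepos i).le)
    have e2 : ∑ i, (fun i => (((fun _ => 1 : Fin n → ℕ) i : ℕ) : ℝ)) i = n := by simp
    have e3 : (R.card : ℝ) * γ ≤
        ∑ j ∈ R, c j * ph (S j) (fun i => (((fun _ => 1 : Fin n → ℕ) i : ℕ) : ℝ)) := by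
      rw [← nsmul_eq_mul, ← Finset.sum_const]
      refine Finset.sum_le_sum fun j hj => ?_
      obtain ⟨m, hm, hme, _⟩ := ph_spec (hS j) (fun i => (((fun _ => 1 : Fin n → ℕ) i : ℕ) : ℝ))
      have h2 : (1 : ℝ) ≤ ph (S j) (fun i => (((fun _ => 1 : Fin n → ℕ) i : ℕ) : ℝ)) := by
        rw [hme]
        have h3 : m ≠ 0 := by
          rintro rfl
          exact (Finset.mem_filter.1 hj).2.2 hm
        obtain ⟨i, hi⟩ := Function.ne_iff.1 h3
        have h4 : (1 : ℝ) ≤ (m i : ℝ) := by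
          exact_mod_cast Nat.one_le_iff_ne_zero.2 hi
        refine h4.trans ?_
        have := Finset.single_le_sum
          (f := fun i => (m i : ℝ) * (((fun _ => 1 : Fin n → ℕ) i : ℕ) : ℝ))
          (fun i _ => by positivity) (Finset.mem_univ i)
        simpa using this
      have h5 := (hcR j hj).2
      nlinarith
    linarith
  -- transport to `Fin R.card`
  let e : Fin R.card ≃ R := R.equivFin.symm
  have htrans : ∀ g : Fin s → ℝ, ∑ j ∈ R, g j = ∑ t : Fin R.card, g (e t) := by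
    intro g
    rw [← Finset.sum_coe_sort R g]
    exact (Equiv.sum_comp e (fun j : R => g j)).symm
  have haw : ∀ v : Fin n → ℝ, (∀ i, 0 ≤ v i) →
      aw b (fun t => c (e t)) (fun t => S (e t)) v = aw b c S v := by
    intro v hv
    unfold aw
    rw [hsum v hv, htrans]
  obtain ⟨u', h1, h2, h3, h4⟩ := hL R.card
    { Λ := Λ, hΛ := hΛ, b := b, hb := hb, c := fun t => c (e t), hc := fun t => (hcR _ (e t).2).1,
      hγ := fun t => (hcR _ (e t).2).2, S := fun t => S (e t), hS := fun t => hS _,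
      lc := fun v hv hvpos => by rw [haw v fun i => (hvpos i).le]; exact lc v hv hvpos } u hu hpos
  refine ⟨u', h1, h2, ?_, ?_⟩
  · simp only at h3
    rwa [haw u' fun i => (h2 i).le, haw u fun i => (hpos i).le] at h3
  · refine h4.trans ((le_abs_self _).trans ?_)
    exact Finset.single_le_sum (f := fun s' => |L s'|) (fun _ _ => abs_nonneg _)
      (Finset.mem_range.2 hcard)

end Pool.Agent.Work.MP_43381c_ag
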