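import Pool.Agent.Work.MP_43381c_ag.Defs

/-!
# Cones: interior lattice vectors are positive combinations of linearly independent generators
-/

open Matrix

namespace Pool.Agent.Work.MP_43381c_ag

theorem clear_denoms {d : ℕ} (q : Fin d → ℚ) :
    ∃ N : ℕ, 0 < N ∧ ∃ m : Fin d → ℤ, ∀ l, (m l : ℚ) = N * q l := by
  classical
  refine ⟨∏ l, (q l).den, Finset.prod_pos fun l _ => (q l).den_pos, ?_⟩
  have : ∀ l, ∃ z : ℤ, (z : ℚ) = ((∏ l, (q l).den : ℕ) : ℚ) * q l := by
    intro l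
    refine ⟨(∏ t ∈ Finset.univ.erase l, (q t).den : ℕ) * (q l).num, ?_⟩
    rw [← Finset.mul_prod_erase Finset.univ (fun t => (q t).den) (Finset.mem_univ l)]
    push_cast
    have h : ((q l).den : ℚ) * q l = (q l).num := by
      rw [mul_comm]; exact Rat.mul_den_eq_num (q l)
    calc (∏ t ∈ Finset.univ.erase l, ((q t).den : ℚ)) * ((q l).num : ℚ)
        = (∏ t ∈ Finset.univ.erase l, ((q t).den : ℚ)) * (((q l).den : ℚ) * q l) := by rw [h]
      _ = _ := by ring
  choose m hm using this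
  exact ⟨m, hm⟩

/-- Real version of an integral vector. -/
def rv {d : ℕ} (v : Fin d → ℤ) : Fin d → ℝ := fun l => (v l : ℝ)

theorem dot_cast {d : ℕ} (m w : Fin d → ℤ) : ((m ⬝ᵥ w : ℤ) : ℝ) = ∑ l, (m l : ℝ) * (w l : ℝ) := by
  simp [dotProduct]

/-- Rational vectors are dense: an open condition on `y` can be met by an integral vector up to
a positive factor. -/
theorem exists_int_near {d : ℕ} (O : Set (Fin d → ℝ)) (hO : IsOpen O) (hne : O.Nonempty) :
    ∃ m : Fin d → ℤ, ∃ N : ℕ, 0 < N ∧ (fun l => (m l : ℝ) / N) ∈ O := by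
  have hd : DenseRange (Pi.map fun (_ : Fin d) (q : ℚ) => (q : ℝ)) :=
    DenseRange.piMap fun _ => Rat.denseRange_cast
  obtain ⟨q, hq⟩ := hd.exists_mem_open hO hne
  obtain ⟨N, hN, m, hm⟩ := clear_denoms q
  refine ⟨m, N, hN, ?_⟩
  have : (fun l => (m l : ℝ) / N) = Pi.map (fun (_ : Fin d) (q : ℚ) => (q : ℝ)) q := by
    funext l
    have hN' : (N : ℝ) ≠ 0 := by exact_mod_cast hN.ne'
    have h1 : ((m l : ℚ) : ℝ) = ((N * q l : ℚ) : ℝ) := by rw [hm l]
    push_cast at h1
    simp only [Pi.map_apply]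
    rw [h1]
    field_simp
  rw [this]
  exact hq

section

variable {r d : ℕ} {v : Fin r → Fin d → ℤ} {mK : Fin d → ℚ}

/-- `m_K` is positive at interior vectors. -/
theorem mK_pos (hmK : ∀ ρ, ∑ i, mK i * (v ρ i : ℚ) = 1) (hr : 0 < r) {w : Fin d → ℤ}
    (hw : IntPt v w) : 0 < ∑ l, (mK l : ℝ) * (w l : ℝ) := by
  obtain ⟨N, hN, m, hm⟩ := clear_denoms mK
  have hval : ∀ ρ, ((m ⬝ᵥ v ρ : ℤ) : ℚ) = N := by
    intro ρ
    have : ((m ⬝ᵥ v ρ : ℤ) : ℚ) = ∑ l, (m l : ℚ) * (v ρ l : ℚ) := by simp [dotProduct]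
    rw [this]
    calc ∑ l, (m l : ℚ) * (v ρ l : ℚ) = ∑ l, N * (mK l * (v ρ l : ℚ)) :=
          Finset.sum_congr rfl fun l _ => by rw [hm l]; ring
      _ = N := by rw [← Finset.mul_sum, hmK ρ, mul_one]
  have hval' : ∀ ρ, m ⬝ᵥ v ρ = N := fun ρ => by exact_mod_cast hval ρ
  have hne : m ≠ 0 := by
    rintro rfl
    have := hval' ⟨0, hr⟩
    rw [zero_dotProduct] at this
    omega
  have h1 := hw m (fun ρ => by rw [hval' ρ]; exact Int.natCast_nonneg _) hne
  have h2 : (0 : ℝ) < ((m ⬝ᵥ w : ℤ) : ℝ) := by exact_mod_cast h1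
  rw [dot_cast] at h2
  have h3 : ∑ l, (m l : ℝ) * (w l : ℝ) = N * ∑ l, (mK l : ℝ) * (w l : ℝ) := by
    rw [Finset.mul_sum]
    refine Finset.sum_congr rfl fun l _ => ?_
    have h4 : ((m l : ℚ) : ℝ) = ((N * mK l : ℚ) : ℝ) := by rw [hm l]
    push_cast at h4
    rw [h4]; ring
  rw [h3] at h2
  exact pos_of_mul_pos_right h2 (Nat.cast_nonneg _)

/-- Interior vectors are positive combinations of linearly independent generators. -/
theorem exists_rep (hmK : ∀ ρ, ∑ i, mK i * (v ρ i : ℚ) = 1) (hr : 0 < r) {w : Fin d → ℤ}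
    (hw : IntPt v w) : ∃ n : ℕ, n ≤ d ∧ ∃ (σ : Fin n → Fin r) (c : Fin n → ℝ),
      (∀ i, 0 < c i) ∧ ∀ l, (w l : ℝ) = ∑ i, c i * (v (σ i) l : ℝ) := by
  classical
  have hκ := mK_pos hmK hr hw
  set κ := ∑ l, (mK l : ℝ) * (w l : ℝ) with hκdef
  have hκv : ∀ ρ, ∑ l, (mK l : ℝ) * (v ρ l : ℝ) = 1 := by
    intro ρ
    have := congrArg (fun t : ℚ => (t : ℝ)) (hmK ρ)
    push_cast at this
    exact this
  set x : Fin d → ℝ := κ⁻¹ • rv w with hx
  have hmem : x ∈ convexHull ℝ (Set.range fun ρ => rv (v ρ)) := by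
    by_contra hnot
    obtain ⟨f, u, hf1, hf2⟩ := geometric_hahn_banach_closed_point
      (convex_convexHull ℝ (Set.range fun ρ => rv (v ρ)))
      ((Set.finite_range _).isClosed_convexHull ℝ) hnot
    have hf : ∀ z : Fin d → ℝ, f z = ∑ l, z l * f (Pi.single l 1) := by
      intro z
      conv_lhs => rw [pi_eq_sum_univ z]
      rw [map_sum]
      refine Finset.sum_congr rfl fun l _ => ?_
      rw [map_smul, smul_eq_mul]
      congr 2
      funext t
      simp [Pi.single_apply, eq_comm]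
    set y : Fin d → ℝ := fun l => u * mK l - f (Pi.single l 1) with hy
    have hyz : ∀ z : Fin d → ℝ, ∑ l, y l * z l = u * (∑ l, (mK l : ℝ) * z l) - f z := by
      intro z
      rw [hf z, Finset.mul_sum, ← Finset.sum_sub_distrib]
      exact Finset.sum_congr rfl fun l _ => by simp only [hy]; ring
    have h1 : ∀ ρ, 0 < ∑ l, y l * (v ρ l : ℝ) := by
      intro ρ
      have h2 := hyz (rv (v ρ))
      have h3 := hf1 (rv (v ρ)) (subset_convexHull ℝ _ ⟨ρ, rfl⟩)
      simp only [rv] at h2 h3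
      rw [h2, hκv ρ, mul_one]
      linarith
    have h4 : ∑ l, y l * (w l : ℝ) < 0 := by
      have h2 := hyz (rv w)
      have h3 : f x = κ⁻¹ * f (rv w) := by rw [hx, map_smul, smul_eq_mul]
      rw [h3] at hf2
      have h5 : u * κ < f (rv w) := by
        rw [inv_mul_eq_div, lt_div_iff₀ hκ] at hf2
        exact hf2
      simp only [rv] at h2
      rw [h2]
      have : f (rv w) = f fun l => (w l : ℝ) := rfl
      rw [← hκdef]
      linarith
    set O : Set (Fin d → ℝ) := {z | (∀ ρ, 0 < ∑ l, z l * (v ρ l : ℝ)) ∧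
      ∑ l, z l * (w l : ℝ) < 0} with hO
    have hopen : IsOpen O := by
      have e : O = (⋂ ρ, {z : Fin d → ℝ | 0 < ∑ l, z l * (v ρ l : ℝ)}) ∩
          {z : Fin d → ℝ | ∑ l, z l * (w l : ℝ) < 0} := by
        ext z; simp [hO]
      rw [e]
      refine IsOpen.inter (isOpen_iInter_of_finite fun ρ => ?_) ?_
      · exact isOpen_lt continuous_const (by fun_prop)
      · exact isOpen_lt (by fun_prop) continuous_const
    obtain ⟨m, N, hN, hm⟩ := exists_int_near O hopen ⟨y, h1, h4⟩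
    have hN' : (0 : ℝ) < N := by exact_mod_cast hN
    have e : ∀ z : Fin d → ℤ, ∑ l, (m l : ℝ) / N * (z l : ℝ) = ((m ⬝ᵥ z : ℤ) : ℝ) / N := by
      intro z
      rw [dot_cast, Finset.sum_div]
      exact Finset.sum_congr rfl fun l _ => by ring
    have hm1 : ∀ ρ, 0 < m ⬝ᵥ v ρ := by
      intro ρ
      have := hm.1 ρ
      simp only at this
      rw [e (v ρ)] at this
      have h5 : (0 : ℝ) < ((m ⬝ᵥ v ρ : ℤ) : ℝ) := by
        rcases (div_pos_iff.1 this) with h | h
        · exact h.1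
        · exact absurd h.2 (not_lt.2 hN'.le)
      exact_mod_cast h5
    have hm2 : m ⬝ᵥ w < 0 := by
      have := hm.2
      simp only at this
      rw [e w] at this
      have h5 : ((m ⬝ᵥ w : ℤ) : ℝ) < 0 := by
        by_contra h6
        exact absurd this (not_lt.2 (div_nonneg (not_lt.1 h6) hN'.le))
      exact_mod_cast h5
    have hmne : m ≠ 0 := by
      rintro rfl
      rw [zero_dotProduct] at hm2
      exact lt_irrefl _ hm2
    have := hw m (fun ρ => (hm1 ρ).le) hmne
    omega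
  obtain ⟨ι, _, z, ω, hz, haff, hω, hω1, hωx⟩ := eq_pos_convex_span_of_mem_convexHull hmem
  have hσ : ∀ i, ∃ ρ, rv (v ρ) = z i := fun i => hz ⟨i, rfl⟩
  choose σ hσ using hσ
  have hlin : LinearIndependent ℝ z := by
    rw [Fintype.linearIndependent_iff]
    intro g hg i
    have h1 : ∑ i, g i = 0 := by
      have h2 : ∑ l, (mK l : ℝ) * (∑ i, g i • z i) l = 0 := by rw [hg]; simp
      have h3 : ∑ l, (mK l : ℝ) * (∑ i, g i • z i) l = ∑ i, g i := by
        simp only [Finset.sum_apply, Pi.smul_apply, smul_eq_mul, Finset.mul_sum]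
        rw [Finset.sum_comm]
        refine Finset.sum_congr rfl fun i _ => ?_
        have h4 : ∑ l, (mK l : ℝ) * (g i * z i l) = g i * ∑ l, (mK l : ℝ) * (v (σ i) l : ℝ) := by
          rw [Finset.mul_sum]
          refine Finset.sum_congr rfl fun l _ => ?_
          rw [← hσ i]
          simp only [rv]
          ring
        rw [h4, hκv, mul_one]
      rw [← h3, h2]
    exact affineIndependent_iff.1 haff Finset.univ g h1 hg i (Finset.mem_univ i)
  have hcard : Fintype.card ι ≤ d := by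
    have := hlin.fintype_card_le_finrank
    simpa using this
  let e := (Fintype.equivFin ι).symm
  refine ⟨Fintype.card ι, hcard, fun i => σ (e i), fun i => κ * ω (e i),
    fun i => mul_pos hκ (hω _), fun l => ?_⟩
  have h1 : (w l : ℝ) = κ * x l := by
    simp only [hx, Pi.smul_apply, smul_eq_mul, rv]
    field_simp
  rw [h1, ← hωx]
  simp only [Finset.sum_apply, Pi.smul_apply, smul_eq_mul, Finset.mul_sum]
  rw [← Equiv.sum_comp e (fun i => κ * (ω i * z i l))]
  refine Finset.sum_congr rfl fun i _ => ?_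
  rw [← hσ (e i)]
  simp only [rv]
  ring

end

end Pool.Agent.Work.MP_43381c_ag
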