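import Pool.Agent.Work.MP_43381c_ag.ConeA
import Pool.Agent.Work.MP_43381c_ag.CombD

/-!
# Cones, II: the combinatorial theorem for arbitrary cones
-/

open Matrix

namespace Pool.Agent.Work.MP_43381c_ag

/-- Minimum of `⟨m, w⟩` over `m ∈ S`. -/
noncomputable def phiS {d : ℕ} (S : Finset (Fin d → ℤ)) (w : Fin d → ℤ) : ℤ :=
  sInf ((fun m => m ⬝ᵥ w) '' (S : Set (Fin d → ℤ)))

theorem phi_eq {k : Type*} [Field k] {d : ℕ} (f : (Fin d → ℤ) →₀ k) (w : Fin d → ℤ) :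
    phi f w = phiS f.support w := rfl

theorem phiS_spec {d : ℕ} {S : Finset (Fin d → ℤ)} (hS : S.Nonempty) (w : Fin d → ℤ) :
    ∃ m ∈ S, phiS S w = m ⬝ᵥ w ∧ ∀ m' ∈ S, phiS S w ≤ m' ⬝ᵥ w := by
  obtain ⟨m, hm, hmin⟩ := Finset.exists_min_image S (fun m => m ⬝ᵥ w) hS
  have hleast : IsLeast ((fun m => m ⬝ᵥ w) '' (S : Set (Fin d → ℤ))) (m ⬝ᵥ w) := by
    refine ⟨⟨m, hm, rfl⟩, ?_⟩
    rintro _ ⟨m', hm', rfl⟩
    exact hmin m' hm'
  have heq : phiS S w = m ⬝ᵥ w := hleast.csInf_eq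
  exact ⟨m, hm, heq, fun m' hm' => heq ▸ hmin m' hm'⟩

/-- The function `a(w) = ⟨m0, w⟩ - ∑ c_j φ_j(w)`. -/
noncomputable def aT {d s : ℕ} (m0 : Fin d → ℝ) (c : Fin s → ℝ) (S : Fin s → Finset (Fin d → ℤ))
    (w : Fin d → ℤ) : ℝ :=
  pair m0 w - ∑ j, c j * (phiS (S j) w : ℝ)

section

variable {r d n s : ℕ}

theorem pair_sum {m : Fin d → ℝ} {w : Fin d → ℤ} {v : Fin r → Fin d → ℤ} {σ : Fin n → Fin r}
    {u : Fin n → ℝ} (hw : ∀ l, (w l : ℝ) = ∑ i, u i * (v (σ i) l : ℝ)) :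
    pair m w = ∑ i, u i * pair m (v (σ i)) := by
  unfold pair
  calc ∑ l, m l * (w l : ℝ) = ∑ l, ∑ i, u i * (m l * (v (σ i) l : ℝ)) := by
        refine Finset.sum_congr rfl fun l _ => ?_
        rw [hw l, Finset.mul_sum]
        exact Finset.sum_congr rfl fun i _ => by ring
    _ = _ := by
        rw [Finset.sum_comm]
        exact Finset.sum_congr rfl fun i _ => by rw [Finset.mul_sum]

theorem dot_sum {m : Fin d → ℤ} {w : Fin d → ℤ} {v : Fin r → Fin d → ℤ} {σ : Fin n → Fin r}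
    {u : Fin n → ℝ} (hw : ∀ l, (w l : ℝ) = ∑ i, u i * (v (σ i) l : ℝ)) :
    ((m ⬝ᵥ w : ℤ) : ℝ) = ∑ i, u i * ((m ⬝ᵥ v (σ i) : ℤ) : ℝ) := by
  have h := pair_sum (m := fun l => (m l : ℝ)) hw
  simp only [pair] at h
  rw [dot_cast, h]
  exact Finset.sum_congr rfl fun i _ => by rw [dot_cast]

/-- Exponents in the coordinates of a simplicial subcone. -/
noncomputable def loc (S : Finset (Fin d → ℤ)) (v : Fin r → Fin d → ℤ) (σ : Fin n → Fin r)
    (m : Fin d → ℤ) : Fin n → ℕ :=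
  fun i => (m ⬝ᵥ v (σ i) - phiS S (v (σ i))).toNat

theorem ph_loc {S : Finset (Fin d → ℤ)} (hS : S.Nonempty) {v : Fin r → Fin d → ℤ}
    {σ : Fin n → Fin r} {w : Fin d → ℤ} {u : Fin n → ℝ}
    (hw : ∀ l, (w l : ℝ) = ∑ i, u i * (v (σ i) l : ℝ)) :
    ph (S.image (loc S v σ)) u = (phiS S w : ℝ) - ∑ i, u i * (phiS S (v (σ i)) : ℝ) := by
  classical
  have hval : ∀ m ∈ S, ∑ i, (loc S v σ m i : ℝ) * u i =
      ((m ⬝ᵥ w : ℤ) : ℝ) - ∑ i, u i * (phiS S (v (σ i)) : ℝ) := by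
    intro m hm
    rw [dot_sum (m := m) hw, ← Finset.sum_sub_distrib]
    refine Finset.sum_congr rfl fun i _ => ?_
    obtain ⟨_, _, _, hle⟩ := phiS_spec hS (v (σ i))
    have h1 : (0 : ℤ) ≤ m ⬝ᵥ v (σ i) - phiS S (v (σ i)) := by linarith [hle m hm]
    have h2 : ((loc S v σ m i : ℕ) : ℝ) = ((m ⬝ᵥ v (σ i) - phiS S (v (σ i)) : ℤ) : ℝ) := by
      have : ((loc S v σ m i : ℕ) : ℤ) = m ⬝ᵥ v (σ i) - phiS S (v (σ i)) := Int.toNat_of_nonneg h1
      exact_mod_cast this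
    rw [h2]
    push_cast
    ring
  obtain ⟨m1, hm1, he1, hle1⟩ := ph_spec (hS.image (loc S v σ)) u
  obtain ⟨m2, hm2, he2, hle2⟩ := phiS_spec hS w
  obtain ⟨m, hm, rfl⟩ := Finset.mem_image.1 hm1
  apply le_antisymm
  · have := hle1 _ (Finset.mem_image_of_mem (loc S v σ) hm2)
    rw [hval m2 hm2, ← he2] at this
    exact this
  · rw [he1, hval m hm]
    have : ((phiS S w : ℤ) : ℝ) ≤ ((m ⬝ᵥ w : ℤ) : ℝ) := by exact_mod_cast hle2 m hm
    linarith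

theorem aw_loc {m0 : Fin d → ℝ} {c : Fin s → ℝ} {b : Fin r → ℝ} {v : Fin r → Fin d → ℤ}
    {S : Fin s → Finset (Fin d → ℤ)} (hS : ∀ j, (S j).Nonempty)
    (h0 : ∀ ρ, pair m0 (v ρ) = 1 - b ρ + ∑ j, c j * (phiS (S j) (v ρ) : ℝ))
    {σ : Fin n → Fin r} {w : Fin d → ℤ} {u : Fin n → ℝ}
    (hw : ∀ l, (w l : ℝ) = ∑ i, u i * (v (σ i) l : ℝ)) :
    aw (fun i => b (σ i)) c (fun j => (S j).image (loc (S j) v σ)) u = aT m0 c S w := by
  unfold aw aT
  have h1 : ∑ j, c j * ph ((S j).image (loc (S j) v σ)) u =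
      ∑ j, c j * (phiS (S j) w : ℝ) - ∑ i, u i * ∑ j, c j * (phiS (S j) (v (σ i)) : ℝ) := by
    have h2 : ∀ j, c j * ph ((S j).image (loc (S j) v σ)) u =
        c j * (phiS (S j) w : ℝ) - ∑ i, u i * (c j * (phiS (S j) (v (σ i)) : ℝ)) := by
      intro j
      rw [ph_loc (hS j) hw, mul_sub, Finset.mul_sum]
      congr 1
      exact Finset.sum_congr rfl fun i _ => by ring
    rw [Finset.sum_congr rfl fun j _ => h2 j, Finset.sum_sub_distrib, Finset.sum_comm]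
    congr 1
    exact Finset.sum_congr rfl fun i _ => by rw [Finset.mul_sum]
  rw [h1, pair_sum hw]
  have h3 : ∑ i, u i * pair m0 (v (σ i)) =
      ∑ i, (1 - b (σ i)) * u i + ∑ i, u i * ∑ j, c j * (phiS (S j) (v (σ i)) : ℝ) := by
    rw [← Finset.sum_add_distrib]
    exact Finset.sum_congr rfl fun i _ => by rw [h0 (σ i)]; ring
  rw [h3]
  ring

end

/-- Descent: every interior vector can be replaced by one with bounded `⟨m_K, w⟩` without
increasing `a`. -/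
theorem descent (d : ℕ) {G : Set ℝ} (hG1 : ∀ g ∈ G, 0 ≤ g ∧ g ≤ 1) (hG : DCC G) :
    ∃ l : ℝ, 0 < l ∧ ∀ (r s : ℕ) (_ : 0 < r) (v : Fin r → Fin d → ℤ) (mK : Fin d → ℚ)
      (_ : ∀ ρ, ∑ i, mK i * (v ρ i : ℚ) = 1)
      (b : Fin r → ℝ) (_ : ∀ ρ, b ρ ∈ G) (c : Fin s → ℝ) (_ : ∀ j, c j = 0 ∨ c j ∈ G)
      (S : Fin s → Finset (Fin d → ℤ)) (_ : ∀ j, (S j).Nonempty) (m0 : Fin d → ℝ)
      (_ : ∀ ρ, pair m0 (v ρ) = 1 - b ρ + ∑ j, c j * (phiS (S j) (v ρ) : ℝ))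
      (_ : ∀ w, IntPt v w → 0 ≤ aT m0 c S w), ∀ w, IntPt v w →
      ∃ w', IntPt v w' ∧ aT m0 c S w' ≤ aT m0 c S w ∧
        ∑ i, (mK i : ℝ) * (w' i : ℝ) ≤ l := by
  classical
  choose L hL using fun n : ℕ => orthant n hG1 hG
  refine ⟨1 + ∑ n ∈ Finset.range (d + 1), |L n|, ?_, ?_⟩
  · have : 0 ≤ ∑ n ∈ Finset.range (d + 1), |L n| := Finset.sum_nonneg fun _ _ => abs_nonneg _
    linarith
  intro r s hr v mK hmK b hb c hc S hS m0 h0 hlc w hw
  obtain ⟨n, hn, σ, c', hc', hwc⟩ := exists_rep hmK hr hw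
  have hκv : ∀ ρ, ∑ l, (mK l : ℝ) * (v ρ l : ℝ) = 1 := by
    intro ρ
    have := congrArg (fun t : ℚ => (t : ℝ)) (hmK ρ)
    push_cast at this
    exact this
  -- positive combinations of the same generators are interior
  have hint : ∀ (w' : Fin d → ℤ) (u : Fin n → ℝ), (∀ i, 0 < u i) →
      (∀ l, (w' l : ℝ) = ∑ i, u i * (v (σ i) l : ℝ)) → IntPt v w' := by
    intro w' u hu hw' m hm hne
    have h1 : (0 : ℝ) < ((m ⬝ᵥ w : ℤ) : ℝ) := by exact_mod_cast hw m hm hne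
    rw [dot_sum hwc] at h1
    have h2 : (0 : ℝ) < ((m ⬝ᵥ w' : ℤ) : ℝ) := by
      rw [dot_sum hw']
      have hnn : ∀ i, 0 ≤ u i * ((m ⬝ᵥ v (σ i) : ℤ) : ℝ) := fun i =>
        mul_nonneg (hu i).le (by exact_mod_cast hm (σ i))
      rcases (Finset.sum_nonneg fun i _ => hnn i).lt_or_eq with h | h
      · exact h
      · exfalso
        have h3 := (Finset.sum_eq_zero_iff_of_nonneg fun i _ => hnn i).1 h.symm
        have h4 : ∑ i, c' i * ((m ⬝ᵥ v (σ i) : ℤ) : ℝ) = 0 := by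
          refine Finset.sum_eq_zero fun i _ => ?_
          have := (mul_eq_zero.1 (h3 i (Finset.mem_univ i))).resolve_left (hu i).ne'
          rw [this, mul_zero]
        linarith
    exact_mod_cast h2
  -- the lattice
  let Λ : AddSubgroup (Fin n → ℝ) :=
    { carrier := {u | ∃ w' : Fin d → ℤ, ∀ l, (w' l : ℝ) = ∑ i, u i * (v (σ i) l : ℝ)}
      zero_mem' := ⟨0, fun l => by simp⟩
      add_mem' := by
        rintro u u' ⟨w1, h1⟩ ⟨w2, h2⟩
        refine ⟨w1 + w2, fun l => ?_⟩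
        simp only [Pi.add_apply, Int.cast_add, h1 l, h2 l, ← Finset.sum_add_distrib]
        exact Finset.sum_congr rfl fun i _ => by ring
      neg_mem' := by
        rintro u ⟨w1, h1⟩
        refine ⟨-w1, fun l => ?_⟩
        simp only [Pi.neg_apply, Int.cast_neg, h1 l, ← Finset.sum_neg_distrib]
        exact Finset.sum_congr rfl fun i _ => by ring }
  have hΛ : ∀ i, Pi.single i (1 : ℝ) ∈ Λ := by
    intro i
    refine ⟨v (σ i), fun l => ?_⟩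
    rw [Finset.sum_eq_single i]
    · simp
    · intro t _ ht
      simp [ht]
    · simp
  obtain ⟨u', ⟨w', hw'⟩, hpos, hle, hsum⟩ := hL n Λ hΛ s (fun i => b (σ i)) (fun i => hb _) c hc
    (fun j => (S j).image (loc (S j) v σ)) (fun j => (hS j).image _)
    (fun u hu hup => by
      obtain ⟨w1, h1⟩ := hu
      rw [aw_loc hS h0 h1]
      exact hlc w1 (hint w1 u hup h1)) c' ⟨w, hwc⟩ hc'
  refine ⟨w', hint w' u' hpos hw', ?_, ?_⟩
  · rw [aw_loc hS h0 hw', aw_loc hS h0 hwc] at hle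
    exact hle
  · have e1 : ∑ i, (mK i : ℝ) * (w' i : ℝ) = ∑ i, u' i := by
      have h := pair_sum (m := fun l => (mK l : ℝ)) hw'
      simp only [pair] at h
      rw [h]
      exact Finset.sum_congr rfl fun i _ => by rw [hκv (σ i), mul_one]
    rw [e1]
    refine hsum.trans ((le_abs_self _).trans ?_)
    have := Finset.single_le_sum (f := fun n => |L n|) (fun _ _ => abs_nonneg _)
      (Finset.mem_range.2 (Nat.lt_succ_of_le hn))
    linarith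

end Pool.Agent.Work.MP_43381c_ag
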