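import Pool.Agent.Work.MP_43381c_ag.ConeB

/-!
# Cones, III: existence of a primitive interior vector computing the minimum, with bounded
`⟨m_K, w⟩`
-/

open Matrix

namespace Pool.Agent.Work.MP_43381c_ag

theorem exists_primitive {d : ℕ} {w : Fin d → ℤ} (hw : w ≠ 0) :
    ∃ g : ℤ, 0 < g ∧ ∃ w1 : Fin d → ℤ, (∀ l, w l = g * w1 l) ∧ ∃ u : Fin d → ℤ, u ⬝ᵥ w1 = 1 := by
  classical
  obtain ⟨g, hg⟩ := IsPrincipalIdealRing.principal (Ideal.span (Set.range w))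
  have hg' : Ideal.span (Set.range w) = Ideal.span {g} := hg
  have hdiv : ∀ l, g ∣ w l := by
    intro l
    rw [← Ideal.mem_span_singleton, ← hg']
    exact Ideal.subset_span ⟨l, rfl⟩
  have hmem : g ∈ Ideal.span (Set.range w) := by
    rw [hg']; exact Ideal.mem_span_singleton_self g
  obtain ⟨c, hc⟩ := Ideal.mem_span_range_iff_exists_fun.1 hmem
  have hg0 : g ≠ 0 := by
    rintro rfl
    exact hw (funext fun l => by simpa using hdiv l)
  choose w1 hw1 using hdiv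
  have hone : ∑ l, c l * w1 l = 1 := by
    have : g * ∑ l, c l * w1 l = g * 1 := by
      rw [mul_one]
      conv_rhs => rw [← hc]
      rw [Finset.mul_sum]
      exact Finset.sum_congr rfl fun l _ => by rw [hw1 l]; ring
    exact mul_left_cancel₀ hg0 this
  rcases lt_or_gt_of_ne hg0 with h | h
  · refine ⟨-g, by omega, -w1, fun l => ?_, -c, ?_⟩
    · rw [hw1 l]; simp
    · simpa [dotProduct] using hone
  · exact ⟨g, h, w1, hw1, c, by simpa [dotProduct] using hone⟩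

theorem pair_smul {d : ℕ} (m : Fin d → ℝ) {w w1 : Fin d → ℤ} {g : ℤ} (h : ∀ l, w l = g * w1 l) :
    pair m w = g * pair m w1 := by
  unfold pair
  rw [Finset.mul_sum]
  exact Finset.sum_congr rfl fun l _ => by rw [h l]; push_cast; ring

theorem dot_smul' {d : ℕ} (m : Fin d → ℤ) {w w1 : Fin d → ℤ} {g : ℤ} (h : ∀ l, w l = g * w1 l) :
    m ⬝ᵥ w = g * (m ⬝ᵥ w1) := by
  simp only [dotProduct, Finset.mul_sum]
  exact Finset.sum_congr rfl fun l _ => by rw [h l]; ring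

theorem phiS_smul {d : ℕ} {S : Finset (Fin d → ℤ)} (hS : S.Nonempty) {w w1 : Fin d → ℤ} {g : ℤ}
    (hg : 0 < g) (h : ∀ l, w l = g * w1 l) : phiS S w = g * phiS S w1 := by
  obtain ⟨m1, hm1, he1, hle1⟩ := phiS_spec hS w
  obtain ⟨m2, hm2, he2, hle2⟩ := phiS_spec hS w1
  apply le_antisymm
  · have := hle1 m2 hm2
    rwa [dot_smul' m2 h, ← he2] at this
  · rw [he1, dot_smul' m1 h]
    exact mul_le_mul_of_nonneg_left (hle2 m1 hm1) hg.le

theorem aT_smul {d s : ℕ} (m0 : Fin d → ℝ) (c : Fin s → ℝ) {S : Fin s → Finset (Fin d → ℤ)}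
    (hS : ∀ j, (S j).Nonempty) {w w1 : Fin d → ℤ} {g : ℤ} (hg : 0 < g)
    (h : ∀ l, w l = g * w1 l) : aT m0 c S w = g * aT m0 c S w1 := by
  unfold aT
  rw [pair_smul m0 h, mul_sub, Finset.mul_sum]
  congr 1
  refine Finset.sum_congr rfl fun j _ => ?_
  rw [phiS_smul (hS j) hg h]
  push_cast
  ring

theorem intPt_sum {r d : ℕ} {v : Fin r → Fin d → ℤ}
    (full : ∀ m : Fin d → ℤ, (∀ ρ, m ⬝ᵥ v ρ = 0) → m = 0) : IntPt v (∑ ρ, v ρ) := by
  intro m hm hne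
  have h1 : m ⬝ᵥ (∑ ρ, v ρ) = ∑ ρ, m ⬝ᵥ v ρ := by
    rw [dotProduct_sum]
  rw [h1]
  rcases (Finset.sum_nonneg fun ρ _ => hm ρ).lt_or_eq with h | h
  · exact h
  · exfalso
    refine hne (full m fun ρ => ?_)
    exact (Finset.sum_eq_zero_iff_of_nonneg fun ρ _ => hm ρ).1 h.symm ρ (Finset.mem_univ ρ)

theorem finite_bounded {r d : ℕ} (hr : 0 < r) {v : Fin r → Fin d → ℤ} {mK : Fin d → ℚ}
    (hmK : ∀ ρ, ∑ i, mK i * (v ρ i : ℚ) = 1) (l : ℝ) :
    {w : Fin d → ℤ | IntPt v w ∧ ∑ i, (mK i : ℝ) * (w i : ℝ) ≤ l}.Finite := by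
  classical
  have hκv : ∀ ρ, ∑ l, (mK l : ℝ) * (v ρ l : ℝ) = 1 := by
    intro ρ
    have := congrArg (fun t : ℚ => (t : ℝ)) (hmK ρ)
    push_cast at this
    exact this
  set V : ℝ := ∑ ρ, ∑ l, |(v ρ l : ℝ)| with hV
  have hVle : ∀ ρ l, |(v ρ l : ℝ)| ≤ V := by
    intro ρ l
    have h1 : |(v ρ l : ℝ)| ≤ ∑ l, |(v ρ l : ℝ)| :=
      Finset.single_le_sum (f := fun l => |(v ρ l : ℝ)|) (fun _ _ => abs_nonneg _)
        (Finset.mem_univ l)
    have h2 : ∑ l, |(v ρ l : ℝ)| ≤ V :=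
      Finset.single_le_sum (f := fun ρ => ∑ l, |(v ρ l : ℝ)|)
        (fun _ _ => Finset.sum_nonneg fun _ _ => abs_nonneg _) (Finset.mem_univ ρ)
    exact h1.trans h2
  have hV0 : 0 ≤ V := Finset.sum_nonneg fun _ _ => Finset.sum_nonneg fun _ _ => abs_nonneg _
  refine (Set.finite_Icc (fun _ : Fin d => -⌈l * V⌉) (fun _ => ⌈l * V⌉)).subset ?_
  rintro w ⟨hw, hle⟩
  obtain ⟨n, _, σ, c, hc, hwc⟩ := exists_rep hmK hr hw
  have hsum : ∑ i, c i ≤ l := by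
    have h := pair_sum (m := fun l => (mK l : ℝ)) hwc
    simp only [pair] at h
    rw [h] at hle
    refine le_trans (le_of_eq ?_) hle
    exact Finset.sum_congr rfl fun i _ => by rw [hκv (σ i), mul_one]
  have hb : ∀ t, |(w t : ℝ)| ≤ l * V := by
    intro t
    rw [hwc t]
    refine (Finset.abs_sum_le_sum_abs _ _).trans ?_
    calc ∑ i, |c i * (v (σ i) t : ℝ)| ≤ ∑ i, c i * V := by
          refine Finset.sum_le_sum fun i _ => ?_
          rw [abs_mul, abs_of_pos (hc i)]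
          exact mul_le_mul_of_nonneg_left (hVle _ _) (hc i).le
      _ = (∑ i, c i) * V := by rw [Finset.sum_mul]
      _ ≤ l * V := mul_le_mul_of_nonneg_right hsum hV0
  constructor
  · intro t
    have h1 := (abs_le.1 (hb t)).1
    have h2 : (-(⌈l * V⌉ : ℤ) : ℝ) ≤ (w t : ℝ) := by
      have := Int.le_ceil (l * V)
      linarith
    exact_mod_cast h2
  · intro t
    have h1 := (abs_le.1 (hb t)).2
    exact_mod_cast h1.trans (Int.le_ceil _)

/-- The combinatorial theorem. -/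
theorem comb_main (d : ℕ) (hd : 0 < d) {G : Set ℝ} (hG1 : ∀ g ∈ G, 0 ≤ g ∧ g ≤ 1) (hG : DCC G) :
    ∃ l : ℝ, 0 < l ∧ ∀ (r s : ℕ) (v : Fin r → Fin d → ℤ)
      (_ : ∀ m : Fin d → ℤ, (∀ ρ, m ⬝ᵥ v ρ = 0) → m = 0) (mK : Fin d → ℚ)
      (_ : ∀ ρ, ∑ i, mK i * (v ρ i : ℚ) = 1)
      (b : Fin r → ℝ) (_ : ∀ ρ, b ρ ∈ G) (c : Fin s → ℝ) (_ : ∀ j, c j = 0 ∨ c j ∈ G)
      (S : Fin s → Finset (Fin d → ℤ)) (_ : ∀ j, (S j).Nonempty) (m0 : Fin d → ℝ)
      (_ : ∀ ρ, pair m0 (v ρ) = 1 - b ρ + ∑ j, c j * (phiS (S j) (v ρ) : ℝ))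
      (_ : ∀ w, IntPt v w → 0 ≤ aT m0 c S w),
      ∃ w, IntPt v w ∧ (∃ u : Fin d → ℤ, u ⬝ᵥ w = 1) ∧
        (∀ w', IntPt v w' → aT m0 c S w ≤ aT m0 c S w') ∧
        ∑ i, (mK i : ℝ) * (w i : ℝ) ≤ l := by
  classical
  obtain ⟨l, hl, hdesc⟩ := descent d hG1 hG
  refine ⟨l, hl, ?_⟩
  intro r s v full mK hmK b hb c hc S hS m0 h0 hlc
  have hr : 0 < r := by
    rcases Nat.eq_zero_or_pos r with h | h
    · exfalso
      subst h
      have := full (fun _ => 1) (fun ρ => ρ.elim0)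
      have h1 := congrFun this ⟨0, hd⟩
      simp at h1
    · exact h
  have hfin := finite_bounded hr hmK l
  obtain ⟨w1, hw1, _, hw1l⟩ := hdesc r s hr v mK hmK b hb c hc S hS m0 h0 hlc _ (intPt_sum full)
  obtain ⟨w0, hw0, hmin⟩ := Set.exists_min_image _ (fun w => aT m0 c S w) hfin ⟨w1, hw1, hw1l⟩
  have hmin' : ∀ w', IntPt v w' → aT m0 c S w0 ≤ aT m0 c S w' := by
    intro w' hw'
    obtain ⟨w2, h1, h2, h3⟩ := hdesc r s hr v mK hmK b hb c hc S hS m0 h0 hlc w' hw'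
    exact (hmin w2 ⟨h1, h3⟩).trans h2
  have hκ := mK_pos hmK hr hw0.1
  have hne : w0 ≠ 0 := by
    rintro rfl
    simp at hκ
  obtain ⟨g, hg, w2, hw2, hprim⟩ := exists_primitive hne
  have hg' : (1 : ℝ) ≤ g := by exact_mod_cast hg
  have hint2 : IntPt v w2 := by
    intro m hm hmne
    have := hw0.1 m hm hmne
    rw [dot_smul' m hw2] at this
    exact pos_of_mul_pos_right this hg.le
  refine ⟨w2, hint2, hprim, fun w' hw' => ?_, ?_⟩
  · refine le_trans ?_ (hmin' w' hw')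
    rw [aT_smul m0 c hS hg hw2]
    have := hlc w2 hint2
    nlinarith
  · have e := pair_smul (fun i => (mK i : ℝ)) hw2
    simp only [pair] at e
    have h1 := hw0.2
    rw [e] at h1
    have h2 := mK_pos hmK hr hint2
    nlinarith

end Pool.Agent.Work.MP_43381c_ag
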