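import Mathlib

/-!
# Toric germs, Newton nondegenerate boundaries, log discrepancies

`K` is the function field of a `d`-dimensional torus over `k`: it is generated over `k` by
algebraically independent elements `x 0, ..., x (d-1)`.  Characters and one-parameter subgroups
are integral vectors, `m ⬝ᵥ w` is their pairing.
-/

open Matrix

namespace Pool.Agent.Work.MP_43381c_ag

/-- The Laurent monomial `x^m`. -/
noncomputable def mono {K : Type*} [Field K] {d : ℕ} (x : Fin d → K) (m : Fin d → ℤ) : K :=
  ∏ i, x i ^ m i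

/-- The value at `p` of the Laurent polynomial `f = ∑ f m x^m` (finitely supported `f`). -/
noncomputable def ev {k L : Type*} [Field k] [Field L] [Algebra k L] {d : ℕ}
    (p : Fin d → L) (f : (Fin d → ℤ) →₀ k) : L :=
  f.sum fun m c => algebraMap k L c * mono p m

/-- The value at `p` of `x_l ∂f/∂x_l`, for a Laurent polynomial `f`. -/
noncomputable def dev {k L : Type*} [Field k] [Field L] [Algebra k L] {d : ℕ}
    (p : Fin d → L) (l : Fin d) (f : (Fin d → ℤ) →₀ k) : L :=
  f.sum fun m c => algebraMap k L c * (m l : L) * mono p m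

/-- `phi f w` is the minimum of `⟨m, w⟩` over the exponents `m` of `f`. -/
noncomputable def phi {k : Type*} [Field k] {d : ℕ} (f : (Fin d → ℤ) →₀ k) (w : Fin d → ℤ) : ℤ :=
  sInf ((fun m => m ⬝ᵥ w) '' (f.support : Set (Fin d → ℤ)))

/-- The initial form of `f` in the direction `w`: the part of `f` supported on the exponents
where `⟨m, w⟩` takes its minimum. -/
noncomputable def init {k : Type*} [Field k] {d : ℕ} (f : (Fin d → ℤ) →₀ k) (w : Fin d → ℤ) :
    (Fin d → ℤ) →₀ k :=
  f.filter fun m => m ⬝ᵥ w = phi f w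

/-- Pairing of a real character with an integral vector. -/
def pair {d : ℕ} (m : Fin d → ℝ) (w : Fin d → ℤ) : ℝ := ∑ i, m i * (w i : ℝ)

/-- `w` is an integral vector in the interior of the cone `σ` generated by the `v ρ` (stated
by duality: every nonzero character which is nonnegative on `σ` is positive at `w`). -/
def IntPt {r d : ℕ} (v : Fin r → Fin d → ℤ) (w : Fin d → ℤ) : Prop :=
  ∀ m : Fin d → ℤ, (∀ ρ, 0 ≤ m ⬝ᵥ v ρ) → m ≠ 0 → 0 < m ⬝ᵥ w

/-- A prime divisor over a variety with function field `K`, `d` the transcendence degree of `K`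
over `k`: a discrete valuation of `K`, trivial on `k`, whose residue field has transcendence
degree at least (hence equal to) `d - 1` over `k`: there are `d - 1` elements of the valuation
ring with algebraically independent residues. -/
structure PrimeDivisor (k K : Type*) [Field k] [Field K] [Algebra k K] (d : ℕ) where
  /-- order of vanishing along the divisor -/
  ord : AddValuation K (WithTop ℤ)
  ord_const : ∀ a : k, a ≠ 0 → ord (algebraMap k K a) = 0
  exists_one : ∃ t : K, ord t = 1
  exists_res : ∃ u : Fin (d - 1) → K, ∀ P : MvPolynomial (Fin (d - 1)) k, P ≠ 0 →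
    ord (MvPolynomial.aeval u P) = 0

/-- The embedding of `ℤ ∪ {∞}` in the extended reals. -/
noncomputable def toE : WithTop ℤ → EReal
  | none => ⊤
  | some n => ((n : ℝ) : EReal)

namespace PrimeDivisor

variable {k K : Type*} [Field k] [Field K] [Algebra k K] {d : ℕ}

/-- The order along `E` of a nonzero element, as an integer. -/
noncomputable def ordZ (E : PrimeDivisor k K d) (f : K) : ℤ := (E.ord f).untopD 0

/-- A derivation of `K` over `k` that preserves the valuation ring of `E`. -/
def Reg (E : PrimeDivisor k K d) (D : Derivation k K K) : Prop :=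
  ∀ f, 0 ≤ E.ord f → 0 ≤ E.ord (D f)

/-- The order along `E` of the rational differential form `dlog x_0 ∧ ... ∧ dlog x_(d-1)`: the
minimum of the orders of its values on `d`-tuples of derivations preserving the valuation ring of
`E` (these derivations form a free module of rank `d` over that ring, dual to its
differentials). -/
noncomputable def formOrd (E : PrimeDivisor k K d) (x : Fin d → K) : EReal :=
  ⨅ D : {D : Fin d → Derivation k K K // ∀ i, E.Reg (D i)},
    toE (E.ord (Matrix.det (Matrix.of fun i j => D.1 i (x j) / x j)))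

end PrimeDivisor

/-- A toric pair. `x` are coordinates of the torus, `v` the primitive generators of the rays of a
strongly convex full dimensional rational cone `σ`; `X` is the affine toric variety
`Spec k[σ^∨ ∩ ℤ^d]`, assumed `ℚ`-Gorenstein (`mK`), and the point is the torus fixed point. The
boundary is `B = ∑ b ρ D_ρ + ∑ c j B_j`, `D_ρ` the toric prime divisors, `B_j` the closure in
`X` of the hypersurface `f j = 0` of the torus. `K_X + B` is `ℝ`-Cartier (`m0`), and the `f j`
are jointly Newton nondegenerate at the fixed point: for `w` in the interior of `σ` the initial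
forms that vanish at a point `p` of the torus have linearly independent differentials at `p`. -/
structure ToricPair (k K : Type*) [Field k] [Field K] [Algebra k K] (d : ℕ) where
  x : Fin d → K
  algInd : AlgebraicIndependent k x
  gen : IntermediateField.adjoin k (Set.range x) = ⊤
  r : ℕ
  v : Fin r → Fin d → ℤ
  primitive : ∀ ρ, ∃ m : Fin d → ℤ, m ⬝ᵥ v ρ = 1
  extremal : ∀ ρ, ∃ m : Fin d → ℤ, m ⬝ᵥ v ρ = 0 ∧ ∀ τ, τ ≠ ρ → 0 < m ⬝ᵥ v τ
  full : ∀ m : Fin d → ℤ, (∀ ρ, m ⬝ᵥ v ρ = 0) → m = 0
  mK : Fin d → ℚ
  mK_eq : ∀ ρ, ∑ i, mK i * (v ρ i : ℚ) = 1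
  b : Fin r → ℝ
  s : ℕ
  f : Fin s → (Fin d → ℤ) →₀ k
  f_ne : ∀ j, f j ≠ 0
  c : Fin s → ℝ
  m0 : Fin d → ℝ
  m0_eq : ∀ ρ, pair m0 (v ρ) = 1 - b ρ + ∑ j, c j * (phi (f j) (v ρ) : ℝ)
  nondeg : ∀ w, IntPt v w → ∀ p : Fin d → k, (∀ i, p i ≠ 0) →
    LinearIndependent k fun j : {j : Fin s // ev p (init (f j) w) = 0} =>
      fun l => dev p l (init (f j) w)

namespace ToricPair

variable {k K : Type*} [Field k] [Field K] [Algebra k K] {d : ℕ}

/-- The coefficients of `B` belong to `Γ`. -/
def CoefIn (P : ToricPair k K d) (Γ : Set ℝ) : Prop :=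
  (∀ ρ, P.b ρ = 0 ∨ P.b ρ ∈ Γ) ∧ ∀ j, P.c j = 0 ∨ P.c j ∈ Γ

/-- `E` is a prime divisor over the torus fixed point: every monomial of `k[σ^∨ ∩ ℤ^d]` different
from `1` has positive order. -/
def Over (P : ToricPair k K d) (E : PrimeDivisor k K d) : Prop :=
  ∀ m : Fin d → ℤ, (∀ ρ, 0 ≤ m ⬝ᵥ P.v ρ) → m ≠ 0 → 0 < E.ord (mono P.x m)

/-- The orders of the coordinates. -/
noncomputable def vec (P : ToricPair k K d) (E : PrimeDivisor k K d) : Fin d → ℤ :=
  fun i => E.ordZ (P.x i)

/-- The log discrepancy `a(E, X, B)`: on `X` the divisor of `dlog x_0 ∧ ... ∧ dlog x_(d-1)` is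
`- ∑ D_ρ`, so that `K_X + B = ∑ c j div (f j) - div (x^m0)`. -/
noncomputable def a (P : ToricPair k K d) (E : PrimeDivisor k K d) : EReal :=
  1 + E.formOrd P.x +
    ((pair P.m0 (P.vec E) - ∑ j, P.c j * (E.ordZ (ev P.x (P.f j)) : ℝ) : ℝ) : EReal)

/-- The log discrepancy `a(E, X, 0)`. -/
noncomputable def aX (P : ToricPair k K d) (E : PrimeDivisor k K d) : EReal :=
  1 + E.formOrd P.x + ((pair (fun i => (P.mK i : ℝ)) (P.vec E) : ℝ) : EReal)

/-- The pair is log canonical at the point. -/
def IsLC (P : ToricPair k K d) : Prop := ∀ E, P.Over E → 0 ≤ P.a E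

/-- The minimal log discrepancy at the point. -/
noncomputable def mld (P : ToricPair k K d) : EReal := ⨅ E : {E // P.Over E}, P.a E

end ToricPair

end Pool.Agent.Work.MP_43381c_ag
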