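import Pool.Agent.Work.MP_43381c_ag.Low

set_option autoImplicit false

namespace Pool.Agent.Work.MP_43381c_ag

open Finset MvPolynomial Matrix

section frac

variable {k K : Type*} [Field k] [Field K] [Algebra k K] {d : ℕ} {x : Fin d → K}

theorem exists_frac (hg : IntermediateField.adjoin k (Set.range x) = ⊤) (f : K) :
    ∃ P Q : MvPolynomial (Fin d) k, aeval x Q ≠ 0 ∧ f * aeval x Q = aeval x P := by
  have h : f ∈ IntermediateField.adjoin k (Set.range x) := by
    rw [hg]
    exact IntermediateField.mem_top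
  obtain ⟨r, s, h⟩ := (IntermediateField.mem_adjoin_range_iff k x f).mp h
  by_cases hs : aeval x s = 0
  · refine ⟨0, 1, ?_, ?_⟩
    · rw [map_one]; exact one_ne_zero
    · rw [h, hs, div_zero, zero_mul, map_zero]
  · refine ⟨r, s, hs, ?_⟩
    rw [h, div_mul_cancel₀ _ hs]

theorem exists_lift (hx : AlgebraicIndependent k x)
    (hg : IntermediateField.adjoin k (Set.range x) = ⊤) {R : Type*} [CommRing R] [Algebra k R]
    (y : Fin d → R) (hy : ∀ P : MvPolynomial (Fin d) k, P ≠ 0 → IsUnit (aeval y P)) :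
    ∃ Θ : K →ₐ[k] R, ∀ P : MvPolynomial (Fin d) k, Θ (aeval x P) = aeval y P := by
  let _ : Algebra (MvPolynomial (Fin d) k) K := (aeval x : MvPolynomial (Fin d) k →ₐ[k] K).toRingHom.toAlgebra
  have hinj : Function.Injective (algebraMap (MvPolynomial (Fin d) k) K) := hx
  have : IsFractionRing (MvPolynomial (Fin d) k) K := by
    refine ⟨⟨?_, ?_, ?_⟩⟩
    · rintro ⟨Q, hQ⟩
      rw [isUnit_iff_ne_zero]
      intro h0
      exact nonZeroDivisors.ne_zero hQ (hinj (by rw [h0, map_zero]))
    · intro f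
      obtain ⟨P, Q, hQ, h⟩ := exists_frac hg f
      refine ⟨(P, ⟨Q, mem_nonZeroDivisors_of_ne_zero ?_⟩), h⟩
      rintro rfl
      exact hQ (map_zero _)
    · intro P Q h
      exact ⟨1, by rw [hinj h]⟩
  let g : MvPolynomial (Fin d) k →+* R := (aeval y : MvPolynomial (Fin d) k →ₐ[k] R).toRingHom
  have hgu : ∀ s : nonZeroDivisors (MvPolynomial (Fin d) k), IsUnit (g s) := fun s =>
    hy s (nonZeroDivisors.ne_zero s.2)
  let Θ : K →+* R := IsLocalization.lift hgu
  have hΘ : ∀ P : MvPolynomial (Fin d) k, Θ (aeval x P) = aeval y P := fun P =>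
    IsLocalization.lift_eq hgu P
  refine ⟨{ Θ with commutes' := ?_ }, hΘ⟩
  intro c
  have h := hΘ (C c)
  rw [aeval_C, aeval_C] at h
  exact h

theorem exists_deriv (hx : AlgebraicIndependent k x)
    (hg : IntermediateField.adjoin k (Set.range x) = ⊤) (η : Fin d → K) :
    ∃ D : Derivation k K K, ∀ i, D (x i) = η i := by
  classical
  let y : Fin d → TrivSqZeroExt K K := fun i => TrivSqZeroExt.inl (x i) + TrivSqZeroExt.inr (η i)
  have hfst : ∀ P : MvPolynomial (Fin d) k, (aeval y P).fst = aeval x P := by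
    intro P
    have h : (TrivSqZeroExt.fstHom k K K).comp (aeval y) = aeval x := by
      apply MvPolynomial.algHom_ext
      intro i
      simp [y]
    exact DFunLike.congr_fun h P
  obtain ⟨Θ, hΘ⟩ := exists_lift hx hg y (by
    intro P hP
    rw [TrivSqZeroExt.isUnit_iff_isUnit_fst, hfst, isUnit_iff_ne_zero]
    intro h0
    exact hP ((algebraicIndependent_iff.mp hx) _ h0))
  have hid : ∀ f, (Θ f).fst = f := by
    intro f
    obtain ⟨P, Q, hQ, h⟩ := exists_frac hg f
    have h1 := congrArg (fun z => (Θ z).fst) h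
    simp only [map_mul, TrivSqZeroExt.fst_mul] at h1
    rw [hΘ, hΘ, hfst, hfst, ← h] at h1
    exact mul_right_cancel₀ hQ h1
  refine ⟨Derivation.mk' { toFun := fun f => (Θ f).snd, map_add' := ?_, map_smul' := ?_ } ?_, ?_⟩
  · intro a b
    simp
  · intro c a
    simp
  · intro a b
    simp only [LinearMap.coe_mk, AddHom.coe_mk, map_mul, TrivSqZeroExt.snd_mul, hid]
    simp [mul_comm]
  · intro i
    have h := hΘ (X i)
    rw [aeval_X, aeval_X] at h
    simp [h, y]

end frac

section embed

variable {k L : Type*} [Field k] [Field L] [Algebra k L] {d n : ℕ}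

theorem zpow_sum' {a : L} (ha : a ≠ 0) {ι : Type*} (s : Finset ι) (f : ι → ℤ) :
    a ^ (∑ l ∈ s, f l) = ∏ l ∈ s, a ^ f l := by
  classical
  induction s using Finset.induction_on with
  | empty => simp
  | insert b s hb ih => rw [Finset.sum_insert hb, Finset.prod_insert hb, zpow_add₀ ha, ih]

/-- `∑ α_l M_l` -/
def comb (M : Fin n → Fin d → ℤ) (α : Fin n →₀ ℕ) : Fin d → ℤ := fun i => ∑ l, M l i * (α l : ℤ)

theorem mono_comb {p : Fin d → L} (hp : ∀ i, p i ≠ 0) (M : Fin n → Fin d → ℤ) (α : Fin n →₀ ℕ) :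
    mono p (comb M α) = ∏ l, mono p (M l) ^ (α l) := by
  unfold mono comb
  rw [Finset.prod_congr rfl fun i _ => zpow_sum' (hp i) _ _, Finset.prod_comm]
  refine Finset.prod_congr rfl fun l _ => ?_
  rw [← Finset.prod_pow]
  refine Finset.prod_congr rfl fun i _ => ?_
  rw [_root_.zpow_mul, zpow_natCast]

/-- the Laurent polynomial obtained by substituting monomials in a polynomial -/
noncomputable def toF (M : Fin n → Fin d → ℤ) (P : MvPolynomial (Fin n) k) :
    (Fin d → ℤ) →₀ k :=
  ∑ α ∈ P.support, Finsupp.single (comb M α) (coeff α P)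

theorem ev_single (p : Fin d → L) (m : Fin d → ℤ) (c : k) :
    ev p (Finsupp.single m c) = algebraMap k L c * mono p m := by
  unfold ev
  rw [Finsupp.sum_single_index]
  simp

theorem ev_add (p : Fin d → L) (f g : (Fin d → ℤ) →₀ k) : ev p (f + g) = ev p f + ev p g := by
  unfold ev
  rw [Finsupp.sum_add_index']
  · intro m
    simp
  · intro m a b
    rw [map_add, add_mul]

theorem ev_zero (p : Fin d → L) : ev p (0 : (Fin d → ℤ) →₀ k) = 0 := by
  unfold ev
  simp

theorem ev_sum (p : Fin d → L) {ι : Type*} (s : Finset ι) (f : ι → (Fin d → ℤ) →₀ k) :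
    ev p (∑ i ∈ s, f i) = ∑ i ∈ s, ev p (f i) := by
  classical
  induction s using Finset.induction_on with
  | empty => simp [ev_zero]
  | insert b s hb ih => rw [Finset.sum_insert hb, Finset.sum_insert hb, ev_add, ih]

theorem ev_toF {p : Fin d → L} (hp : ∀ i, p i ≠ 0) (M : Fin n → Fin d → ℤ)
    (P : MvPolynomial (Fin n) k) : ev p (toF M P) = aeval (fun l => mono p (M l)) P := by
  unfold toF
  rw [ev_sum, aeval_def, eval₂_eq']
  refine Finset.sum_congr rfl fun α _ => ?_
  rw [ev_single, mono_comb hp]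

theorem toF_apply (M : Fin n → Fin d → ℤ) (hM : Function.Injective (comb M))
    (P : MvPolynomial (Fin n) k) (α : Fin n →₀ ℕ) : toF M P (comb M α) = coeff α P := by
  classical
  unfold toF
  rw [Finsupp.finsetSum_apply]
  by_cases h : α ∈ P.support
  · rw [Finset.sum_eq_single α]
    · simp
    · intro β _ hne
      rw [Finsupp.single_apply, if_neg fun h => hne (hM h)]
    · exact fun h' => absurd h h'
  · rw [Finset.sum_eq_zero, eq_comm]
    · exact notMem_support_iff.mp h
    · intro β hβ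
      rw [Finsupp.single_apply, if_neg]
      intro h'
      rw [hM h'] at hβ
      exact h hβ

theorem toF_ne_zero (M : Fin n → Fin d → ℤ) (hM : Function.Injective (comb M))
    {P : MvPolynomial (Fin n) k} (hP : P ≠ 0) : toF M P ≠ 0 := by
  obtain ⟨α, hα⟩ := MvPolynomial.ne_zero_iff.mp hP
  intro h0
  apply hα
  rw [← toF_apply M hM, h0]
  rfl

theorem mem_toF (M : Fin n → Fin d → ℤ) (P : MvPolynomial (Fin n) k) {m : Fin d → ℤ}
    (hm : m ∈ (toF M P).support) : ∃ α, comb M α = m := by
  classical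
  by_contra hc
  push Not at hc
  apply Finsupp.mem_support_iff.mp hm
  unfold toF
  rw [Finsupp.finsetSum_apply]
  refine Finset.sum_eq_zero fun α _ => ?_
  rw [Finsupp.single_apply, if_neg (hc α)]

/-- standard basis -/
def std : Fin d → Fin d → ℤ := fun l => Pi.single l 1

theorem mono_std (p : Fin d → L) (l : Fin d) : mono p (std l) = p l := by
  unfold mono std
  rw [Finset.prod_eq_single l]
  · simp
  · intro i _ hi
    simp [hi]
  · exact fun h => absurd (Finset.mem_univ l) h

theorem comb_std_inj : Function.Injective (comb (std : Fin d → Fin d → ℤ)) := by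
  intro α β h
  ext i
  have h1 := congrFun h i
  unfold comb std at h1
  rw [Finset.sum_eq_single i, Finset.sum_eq_single i] at h1
  · simpa using h1
  · intro j _ hj
    simp [hj.symm]
  · exact fun h => absurd (Finset.mem_univ i) h
  · intro j _ hj
    simp [hj.symm]
  · exact fun h => absurd (Finset.mem_univ i) h

theorem aeval_eq_ev {p : Fin d → L} (hp : ∀ i, p i ≠ 0) (P : MvPolynomial (Fin d) k) :
    aeval p P = ev p (toF std P) := by
  rw [ev_toF hp]
  congr 2
  funext l
  rw [mono_std]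

end embed

section hahn

variable {k K : Type*} [Field k] [Field K] [Algebra k K] {d : ℕ} {x : Fin d → K}

theorem map_mono {L L' : Type*} [Field L] [Field L'] (F : L →+* L') (p : Fin d → L)
    (m : Fin d → ℤ) : F (mono p m) = mono (fun i => F (p i)) m := by
  unfold mono
  rw [map_prod]
  exact Finset.prod_congr rfl fun i _ => map_zpow₀ F _ _

theorem map_ev {L L' : Type*} [Field L] [Field L'] [Algebra k L] [Algebra k L'] (F : L →+* L')
    (hF : ∀ c : k, F (algebraMap k L c) = algebraMap k L' c) (p : Fin d → L)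
    (f : (Fin d → ℤ) →₀ k) : F (ev p f) = ev (fun i => F (p i)) f := by
  rw [ev_eq, ev_eq, map_sum]
  refine Finset.sum_congr rfl fun m _ => ?_
  rw [map_mul, hF, map_mono]

theorem exists_val (hx : AlgebraicIndependent k x)
    (hg : IntermediateField.adjoin k (Set.range x) = ⊤) (w : Fin d → ℤ) :
    ∃ v : AddValuation K (WithTop ℤ), ∀ f : (Fin d → ℤ) →₀ k, f ≠ 0 →
      v (ev x f) = ((phi f w : ℤ) : WithTop ℤ) := by
  classical
  have hx0 : ∀ i, x i ≠ 0 := fun i => hx.ne_zero i
  set V : AddValuation (HahnSeries ℤ K) (WithTop ℤ) := HahnSeries.addVal ℤ K with hV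
  set t : HahnSeries ℤ K := HahnSeries.single (1 : ℤ) (1 : K) with ht
  have hVt : V t = 1 := by
    rw [hV, HahnSeries.addVal_apply, ht, HahnSeries.orderTop_single one_ne_zero]
    rfl
  have hVC : ∀ c : K, c ≠ 0 → V (HahnSeries.C c) = 0 := by
    intro c hc
    rw [hV, HahnSeries.addVal_apply, HahnSeries.C_apply, HahnSeries.orderTop_single hc]
    rfl
  have ht0 : t ≠ 0 := by
    intro h
    rw [h, V.map_zero] at hVt
    exact WithTop.top_ne_one hVt
  have ht' : V t = ((1 : ℤ) : WithTop ℤ) := by simpa using hVt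
  set u : Fin d → HahnSeries ℤ K := fun i => HahnSeries.C (x i) with hu
  set y : Fin d → HahnSeries ℤ K := fun i => u i * t ^ w i with hy
  have hu0 : ∀ i, u i ≠ 0 := fun i => by
    rw [hu]
    simp only
    rw [Ne, map_eq_zero]
    exact hx0 i
  have hy0 : ∀ i, y i ≠ 0 := fun i => mul_ne_zero (hu0 i) (zpow_ne_zero _ ht0)
  have hyu : ∀ m, mono y m = mono u m * t ^ (m ⬝ᵥ w) := by
    intro m
    rw [← mono_zpow ht0, ← mono_mul]
  have halg : ∀ c : k, algebraMap k (HahnSeries ℤ K) c = HahnSeries.C (algebraMap k K c) := by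
    intro c
    rw [HahnSeries.algebraMap_apply', PowerSeries.algebraMap_apply, HahnSeries.ofPowerSeries_C]
  have hev : ∀ f : (Fin d → ℤ) →₀ k, f ≠ 0 → V (ev y f) = ((phi f w : ℤ) : WithTop ℤ) := by
    intro f hf
    have h1 := (g_congr V hVt w (fun i => hVC _ (hx0 i)) hyu f
      (fun m => algebraMap k (HahnSeries ℤ K) (f m)) (fun m => by
        rw [halg]
        by_cases h : f m = 0
        · simp [h]
        · rw [hVC]
          simpa using h)).2
    rw [← ev_eq, ← init_sum f w (fun m c => algebraMap k (HahnSeries ℤ K) c * mono u m),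
      ← ev_eq, hu, ← map_ev (HahnSeries.C : K →+* HahnSeries ℤ K) (fun c => (halg c).symm) x
        (init f w)] at h1
    have h2 := hVC _ (ev_ne_zero hx (init_ne_zero hf w))
    have h3 : V (t ^ (-phi f w) * ev y f) = 0 := by
      have h4 : t ^ (-phi f w) * ev y f = HahnSeries.C (ev x (init f w)) +
        (t ^ (-phi f w) * ev y f - HahnSeries.C (ev x (init f w))) := by ring
      rw [h4]
      rw [V.map_add_eq_of_lt_left, h2]
      rw [h2]
      exact h1
    have h5 : ev y f = t ^ (phi f w) * (t ^ (-phi f w) * ev y f) := by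
      rw [← mul_assoc, ← zpow_add₀ ht0, add_neg_cancel, zpow_zero, one_mul]
    rw [h5, V.map_mul, h3, v_zpow V ht', mul_one, add_zero]
  obtain ⟨Θ, hΘ⟩ := exists_lift hx hg y (by
    intro P hP
    rw [isUnit_iff_ne_zero, aeval_eq_ev hy0]
    intro h0
    have h1 := hev _ (toF_ne_zero std comb_std_inj hP)
    rw [h0, V.map_zero] at h1
    exact WithTop.top_ne_coe h1)
  refine ⟨V.comap Θ.toRingHom, fun f hf => ?_⟩
  change V (Θ.toRingHom (ev x f)) = _
  have h1 := map_ev (k := k) Θ.toRingHom (fun c => Θ.commutes c) x f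
  have h2 : (fun i => Θ.toRingHom (x i)) = y := by
    funext i
    have h3 := hΘ (X i)
    rw [aeval_X, aeval_X] at h3
    exact h3
  rw [h1, h2, hev f hf]

end hahn

section monodiv

variable {k K : Type*} [Field k] [Field K] [Algebra k K] {d : ℕ} {x : Fin d → K}

theorem phi_single (m w : Fin d → ℤ) {c : k} (hc : c ≠ 0) :
    phi (Finsupp.single m c) w = m ⬝ᵥ w := by
  obtain ⟨m', hm', h⟩ := exists_phi (f := Finsupp.single m c)
    (by simpa using hc) w
  rw [Finsupp.support_single _ hc, Finset.mem_singleton] at hm'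
  rw [← h, hm']

theorem mono_zero' {L : Type*} [Field L] (p : Fin d → L) : mono p 0 = 1 := by
  unfold mono
  simp

theorem v_monomial {v : AddValuation K (WithTop ℤ)} {w : Fin d → ℤ}
    (hv : ∀ f : (Fin d → ℤ) →₀ k, f ≠ 0 → v (ev x f) = ((phi f w : ℤ) : WithTop ℤ))
    (m : Fin d → ℤ) : v (mono x m) = ((m ⬝ᵥ w : ℤ) : WithTop ℤ) := by
  have h := hv (Finsupp.single m 1) (by simp)
  rw [ev_single, map_one, one_mul, phi_single _ _ one_ne_zero] at h
  exact h

theorem v_const {v : AddValuation K (WithTop ℤ)} {w : Fin d → ℤ}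
    (hv : ∀ f : (Fin d → ℤ) →₀ k, f ≠ 0 → v (ev x f) = ((phi f w : ℤ) : WithTop ℤ))
    {c : k} (hc : c ≠ 0) : v (algebraMap k K c) = 0 := by
  have h := hv (Finsupp.single 0 c) (by simpa using hc)
  rw [ev_single, mono_zero', mul_one, phi_single _ _ hc, zero_dotProduct] at h
  exact h

/-- residues: the valuation is `0` on nonzero polynomials in the monomials orthogonal to `w` -/
theorem v_res {v : AddValuation K (WithTop ℤ)} {n : ℕ} {x : Fin (n + 1) → K}
    (hx0 : ∀ i, x i ≠ 0) {w : Fin (n + 1) → ℤ}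
    (hv : ∀ f : (Fin (n + 1) → ℤ) →₀ k, f ≠ 0 → v (ev x f) = ((phi f w : ℤ) : WithTop ℤ))
    {l : Fin (n + 1)} (hl : w l ≠ 0) :
    ∃ u : Fin n → K, ∀ P : MvPolynomial (Fin n) k, P ≠ 0 → v (aeval u P) = 0 := by
  classical
  set M : Fin n → Fin (n + 1) → ℤ := fun i =>
    w l • std (l.succAbove i) - w (l.succAbove i) • std l with hM
  have hMi : ∀ i j, M i (l.succAbove j) = if i = j then w l else 0 := by
    intro i j
    simp only [hM, std, Pi.sub_apply, Pi.smul_apply, smul_eq_mul, Pi.single_apply,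
      Fin.succAbove_ne, if_false, mul_zero, sub_zero, Fin.succAbove_right_inj]
    by_cases h : i = j
    · simp [h]
    · simp [h, Ne.symm h]
  have hMw : ∀ i, M i ⬝ᵥ w = 0 := by
    intro i
    simp only [hM, std, sub_dotProduct, smul_dotProduct, single_one_dotProduct, smul_eq_mul]
    ring
  have hinj : Function.Injective (comb M) := by
    intro α β h
    ext j
    have h1 := congrFun h (l.succAbove j)
    unfold comb at h1
    simp only [hMi] at h1
    simp only [ite_mul, zero_mul, Finset.sum_ite_eq', Finset.mem_univ, if_true] at h1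
    have h2 := mul_left_cancel₀ hl h1
    exact_mod_cast h2
  refine ⟨fun i => mono x (M i), fun P hP => ?_⟩
  rw [← ev_toF hx0, hv _ (toF_ne_zero M hinj hP)]
  obtain ⟨m, hm, h⟩ := exists_phi (toF_ne_zero M hinj hP) w
  obtain ⟨α, rfl⟩ := mem_toF M P hm
  have h3 : comb M α ⬝ᵥ w = 0 := by
    have h4 : comb M α = ∑ i, (α i : ℤ) • M i := by
      funext j
      simp only [comb, Finset.sum_apply, Pi.smul_apply, smul_eq_mul]
      exact Finset.sum_congr rfl fun i _ => mul_comm _ _
    rw [h4, sum_dotProduct]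
    exact Finset.sum_eq_zero fun i _ => by rw [smul_dotProduct, hMw, smul_zero]
  rw [← h, h3]
  rfl

/-- a derivation multiplying the coordinates by `g` maps `ev x f` to `∑ g l * dev x l f` -/
theorem D_ev_of {D : Derivation k K K} (hx0 : ∀ i, x i ≠ 0) {g : Fin d → K}
    (hD : ∀ i, D (x i) = g i * x i) (f : (Fin d → ℤ) →₀ k) :
    D (ev x f) = ∑ l, g l * dev x l f := by
  rw [D_ev D hx0]
  refine Finset.sum_congr rfl fun l _ => ?_
  rw [lD, hD, mul_div_cancel_right₀ _ (hx0 l)]

theorem v_dev {v : AddValuation K (WithTop ℤ)} {w : Fin d → ℤ}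
    (hv : ∀ f : (Fin d → ℤ) →₀ k, f ≠ 0 → v (ev x f) = ((phi f w : ℤ) : WithTop ℤ))
    (f : (Fin d → ℤ) →₀ k) (l : Fin d) : ((phi f w : ℤ) : WithTop ℤ) ≤ v (dev x l f) := by
  rw [dev_eq]
  refine v.map_le_sum fun m hm => ?_
  rw [v.map_mul, v.map_mul, v_monomial hv]
  have h1 : 0 ≤ v (algebraMap k K (f m)) :=
    v_const_nonneg v (fun c hc => v_const hv hc) _
  have h2 : 0 ≤ v ((m l : K)) := v_intCast v _
  refine le_trans ?_ (le_add_of_nonneg_left (add_nonneg h1 h2))
  exact_mod_cast phi_le w hm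

/-- elements are quotients of Laurent polynomials -/
theorem exists_ev (hx0 : ∀ i, x i ≠ 0) (hg : IntermediateField.adjoin k (Set.range x) = ⊤)
    (f : K) : ∃ a b : (Fin d → ℤ) →₀ k, b ≠ 0 ∧ ev x b ≠ 0 ∧ f * ev x b = ev x a := by
  obtain ⟨P, Q, hQ, h⟩ := exists_frac hg f
  rw [aeval_eq_ev hx0] at hQ
  rw [aeval_eq_ev hx0, aeval_eq_ev hx0] at h
  refine ⟨_, _, ?_, hQ, h⟩
  intro h0
  rw [h0, ev_zero] at hQ
  exact hQ rfl

theorem reg_theta {v : AddValuation K (WithTop ℤ)} {w : Fin d → ℤ}
    (hx0 : ∀ i, x i ≠ 0) (hg : IntermediateField.adjoin k (Set.range x) = ⊤)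
    (hv : ∀ f : (Fin d → ℤ) →₀ k, f ≠ 0 → v (ev x f) = ((phi f w : ℤ) : WithTop ℤ))
    {D : Derivation k K K} {g : Fin d → K} (hg0 : ∀ i, 0 ≤ v (g i))
    (hD : ∀ i, D (x i) = g i * x i) {f : K} (hf : 0 ≤ v f) : 0 ≤ v (D f) := by
  obtain ⟨a, b, hb, hb0, hfab⟩ := exists_ev hx0 hg f
  have hDv : ∀ q : (Fin d → ℤ) →₀ k, q ≠ 0 → v (ev x q) ≤ v (D (ev x q)) := by
    intro q hq
    rw [hv q hq, D_ev_of hx0 hD]
    refine v.map_le_sum fun l _ => ?_
    rw [v.map_mul]
    exact le_trans (v_dev hv q l) (le_add_of_nonneg_left (hg0 l))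
  by_cases ha : a = 0
  · rw [ha, ev_zero] at hfab
    have : f = 0 := (mul_eq_zero.mp hfab).resolve_right hb0
    rw [this, map_zero, v.map_zero]
    exact le_top
  have h1 : D f * ev x b = D (ev x a) - f * D (ev x b) := by
    rw [← hfab, D.leibniz]
    simp only [smul_eq_mul]
    ring
  have h2 : v (ev x b) ≤ v (ev x a) := by
    rw [← hfab, v.map_mul]
    exact le_add_of_nonneg_left hf
  have h3 : v (ev x b) ≤ v (D f * ev x b) := by
    rw [h1]
    refine v.map_le_sub (le_trans h2 (hDv a ha)) ?_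
    rw [v.map_mul]
    exact le_trans (hDv b hb) (le_add_of_nonneg_left hf)
  rw [v.map_mul, hv b hb] at h3
  generalize v (D f) = q at h3 ⊢
  induction q using WithTop.recTopCoe with
  | top => exact le_top
  | coe q =>
    rw [← WithTop.coe_add] at h3
    have h4 : phi b w ≤ q + phi b w := by exact_mod_cast h3
    exact_mod_cast (by omega : (0 : ℤ) ≤ q)

theorem reg_euler {v : AddValuation K (WithTop ℤ)} {w : Fin d → ℤ}
    (hx0 : ∀ i, x i ≠ 0) (hg : IntermediateField.adjoin k (Set.range x) = ⊤)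
    (hv : ∀ f : (Fin d → ℤ) →₀ k, f ≠ 0 → v (ev x f) = ((phi f w : ℤ) : WithTop ℤ))
    {D : Derivation k K K} (hD : ∀ i, D (x i) = (w i : K) * x i) {f : K} (hf : 0 ≤ v f) :
    0 < v (D f) := by
  obtain ⟨a, b, hb, hb0, hfab⟩ := exists_ev hx0 hg f
  have hDv : ∀ q : (Fin d → ℤ) →₀ k, q ≠ 0 →
      ((phi q w : ℤ) : WithTop ℤ) < v (D (ev x q) - (phi q w : K) * ev x q) := by
    intro q hq
    rw [D_ev_of hx0 hD]
    have h1 : ∑ l, (w l : K) * dev x l q - (phi q w : K) * ev x q =
        ∑ m ∈ q.support, algebraMap k K (q m) * ((m ⬝ᵥ w - phi q w : ℤ) : K) * mono x m := by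
      simp only [dev_eq, ev_eq, Finset.mul_sum]
      rw [Finset.sum_comm, ← Finset.sum_sub_distrib]
      refine Finset.sum_congr rfl fun m _ => ?_
      rw [dotProduct]
      push_cast
      rw [mul_sub, sub_mul, Finset.mul_sum, Finset.sum_mul]
      congr 1
      · exact Finset.sum_congr rfl fun l _ => by ring
      · ring
    rw [h1]
    refine v.map_lt_sum' (WithTop.coe_lt_top _) fun m hm => ?_
    by_cases h : m ⬝ᵥ w = phi q w
    · rw [h, sub_self, Int.cast_zero, mul_zero, zero_mul, v.map_zero]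
      exact WithTop.coe_lt_top _
    · rw [v.map_mul, v.map_mul, v_monomial hv]
      have h1 : 0 ≤ v (algebraMap k K (q m)) :=
        v_const_nonneg v (fun c hc => v_const hv hc) _
      have h2 : 0 ≤ v (((m ⬝ᵥ w - phi q w : ℤ) : K)) := v_intCast v _
      refine lt_of_lt_of_le ?_ (le_add_of_nonneg_left (add_nonneg h1 h2))
      have h3 := phi_le w hm
      exact_mod_cast lt_of_le_of_ne h3 (Ne.symm h)
  by_cases ha : a = 0
  · rw [ha, ev_zero] at hfab
    have : f = 0 := (mul_eq_zero.mp hfab).resolve_right hb0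
    rw [this, map_zero, v.map_zero]
    exact WithTop.coe_lt_top _
  have h1 : D f * ev x b = (D (ev x a) - (phi a w : K) * ev x a) -
      f * (D (ev x b) - (phi b w : K) * ev x b) + ((phi a w - phi b w : ℤ) : K) * ev x a := by
    push_cast
    rw [← hfab, D.leibniz]
    simp only [smul_eq_mul]
    ring
  have h2 : phi b w ≤ phi a w := by
    have h : v (ev x b) ≤ v (ev x a) := by
      rw [← hfab, v.map_mul]
      exact le_add_of_nonneg_left hf
    rw [hv a ha, hv b hb] at h
    exact_mod_cast h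
  have h3 : ((phi b w : ℤ) : WithTop ℤ) < v (D f * ev x b) := by
    rw [h1]
    rw [sub_eq_add_neg]
    refine v.map_lt_add (v.map_lt_add ?_ ?_) ?_
    · refine lt_of_le_of_lt ?_ (hDv a ha)
      exact_mod_cast h2
    · rw [v.map_neg, v.map_mul]
      exact lt_of_lt_of_le (hDv b hb) (le_add_of_nonneg_left hf)
    · rcases h2.lt_or_eq with h | h
      · rw [v.map_mul, hv a ha]
        refine lt_of_lt_of_le ?_ (le_add_of_nonneg_left (v_intCast v _))
        exact_mod_cast h
      · rw [h, sub_self, Int.cast_zero, zero_mul, v.map_zero]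
        exact WithTop.coe_lt_top _
  rw [v.map_mul, hv b hb] at h3
  generalize v (D f) = q at h3 ⊢
  induction q using WithTop.recTopCoe with
  | top => exact WithTop.coe_lt_top _
  | coe q =>
    rw [← WithTop.coe_add] at h3
    have h4 : phi b w < q + phi b w := by exact_mod_cast h3
    exact_mod_cast (by omega : (0 : ℤ) < q)

end monodiv

section main

variable {k K : Type*} [Field k] [Field K] [Algebra k K] {d : ℕ} {x : Fin d → K}

theorem v_int {v : AddValuation K (WithTop ℤ)} {w : Fin d → ℤ} [CharZero k]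
    (hv : ∀ f : (Fin d → ℤ) →₀ k, f ≠ 0 → v (ev x f) = ((phi f w : ℤ) : WithTop ℤ))
    {n : ℤ} (hn : n ≠ 0) : v (n : K) = 0 := by
  have h := v_const hv (c := (n : k)) (by exact_mod_cast hn)
  rwa [map_intCast] at h

/-- the monomial prime divisor of a primitive vector -/
theorem exists_monoDiv [CharZero k] (hx : AlgebraicIndependent k x)
    (hg : IntermediateField.adjoin k (Set.range x) = ⊤) (w : Fin d → ℤ)
    (hprim : ∃ u : Fin d → ℤ, u ⬝ᵥ w = 1) :
    ∃ E : PrimeDivisor k K d, (∀ f : (Fin d → ℤ) →₀ k, f ≠ 0 →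
      E.ord (ev x f) = ((phi f w : ℤ) : WithTop ℤ)) ∧ E.formOrd x ≤ -1 := by
  classical
  have hx0 : ∀ i, x i ≠ 0 := fun i => hx.ne_zero i
  obtain ⟨v, hv⟩ := exists_val hx hg w
  obtain ⟨m0, hm0⟩ := hprim
  have hw : ∃ l, w l ≠ 0 := by
    by_contra hc
    push Not at hc
    have : w = 0 := funext hc
    rw [this, dotProduct_zero] at hm0
    exact zero_ne_one hm0
  obtain ⟨l0, hl0⟩ := hw
  have hres : ∃ u : Fin (d - 1) → K, ∀ P : MvPolynomial (Fin (d - 1)) k, P ≠ 0 →
      v (MvPolynomial.aeval u P) = 0 := by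
    have hd : d ≠ 0 := by
      rintro rfl
      exact l0.elim0
    obtain ⟨n, rfl⟩ := Nat.exists_eq_succ_of_ne_zero hd
    exact v_res hx0 hv hl0
  set E : PrimeDivisor k K d :=
    { ord := v
      ord_const := fun a ha => v_const hv ha
      exists_one := ⟨mono x m0, by rw [v_monomial hv, hm0]; rfl⟩
      exists_res := hres } with hE
  refine ⟨E, hv, ?_⟩
  -- derivations
  choose θ hθ using fun l : Fin d => exists_deriv hx hg (fun i => (if i = l then 1 else 0) * x i)
  obtain ⟨D0, hD0⟩ := exists_deriv hx hg (fun i => (w i : K) * x i)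
  set c : K := mono x (-m0) with hc
  have hvc : v c = ((-1 : ℤ) : WithTop ℤ) := by
    rw [hc, v_monomial hv, neg_dotProduct, hm0]
  set D : Fin d → Derivation k K K := fun i => if i = l0 then c • D0 else θ i with hD
  have hreg : ∀ i, E.Reg (D i) := by
    intro i f hf
    by_cases h : i = l0
    · have h1 : D i f = c * D0 f := by
        simp only [hD, if_pos h]
        rfl
      have h2 : 0 < v (D0 f) := reg_euler hx0 hg hv hD0 hf
      rw [h1]
      change 0 ≤ v (c * D0 f)
      rw [v.map_mul, hvc]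
      generalize v (D0 f) = q at h2 ⊢
      induction q using WithTop.recTopCoe with
      | top => exact le_top
      | coe q =>
        have h3 : 0 < q := by exact_mod_cast h2
        rw [← WithTop.coe_add]
        exact_mod_cast (by omega : (0 : ℤ) ≤ -1 + q)
    · have h1 : D i = θ i := by
        simp only [hD, if_neg h]
      rw [h1]
      refine reg_theta (v := v) (w := w) hx0 hg hv (g := fun j => if j = i then 1 else 0) ?_
        (hθ i) hf
      intro j
      by_cases h2 : j = i
      · simp [h2]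
      · simp [h2]
  have hdet : (Matrix.of fun i j => D i (x j) / x j).det = c * (w l0 : K) := by
    have h1 : (Matrix.of fun i j => D i (x j) / x j) =
        (1 : Matrix (Fin d) (Fin d) K).updateRow l0 (fun j => c * (w j : K)) := by
      ext i j
      rw [Matrix.of_apply, Matrix.updateRow_apply]
      by_cases h : i = l0
      · rw [if_pos h]
        have h2 : D i (x j) = c * D0 (x j) := by
          simp only [hD, if_pos h]
          rfl
        rw [h2, hD0, ← mul_assoc, mul_div_cancel_right₀ _ (hx0 j)]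
      · rw [if_neg h]
        have h2 : D i = θ i := by
          simp only [hD, if_neg h]
        rw [h2, hθ, mul_div_cancel_right₀ _ (hx0 j), Matrix.one_apply]
        simp only [eq_comm]
    rw [h1, ← Matrix.cramer_transpose_apply, Matrix.transpose_one, Matrix.cramer_one]
    rfl
  have hord : E.ord (Matrix.of fun i j => D i (x j) / x j).det = ((-1 : ℤ) : WithTop ℤ) := by
    rw [hdet]
    change v (c * (w l0 : K)) = _
    rw [v.map_mul, hvc, v_int hv hl0, add_zero]
  refine iInf_le_of_le (⟨D, hreg⟩ : {D : Fin d → Derivation k K K // ∀ i, E.Reg (D i)}) ?_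
  rw [hord]
  have h : toE ((-1 : ℤ) : WithTop ℤ) = -1 := by
    change (((-1 : ℤ) : ℝ) : EReal) = -1
    norm_num
  rw [h]

/-- The monomial divisor of a primitive vector in the interior of the cone. -/
theorem exists_mono [CharZero k] (P : ToricPair k K d) (w : Fin d → ℤ) (hw : IntPt P.v w)
    (hprim : ∃ u : Fin d → ℤ, u ⬝ᵥ w = 1) :
    ∃ E : PrimeDivisor k K d, P.Over E ∧ P.vec E = w ∧
      (∀ j, E.ordZ (ev P.x (P.f j)) = phi (P.f j) w) ∧ E.formOrd P.x ≤ -1 := by
  obtain ⟨E, hE, hf⟩ := exists_monoDiv P.algInd P.gen w hprim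
  refine ⟨E, ?_, ?_, ?_, hf⟩
  · intro m hm hm0
    rw [v_monomial (v := E.ord) hE m]
    exact_mod_cast hw m hm hm0
  · funext i
    have h := v_monomial (v := E.ord) hE (std i)
    rw [mono_std] at h
    unfold ToricPair.vec PrimeDivisor.ordZ
    rw [h]
    simp [std]
  · intro j
    unfold PrimeDivisor.ordZ
    rw [hE _ (P.f_ne j)]
    rfl

end main

end Pool.Agent.Work.MP_43381c_ag
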