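import Pool.Agent.Work.MP_43381c_ag.ConeC
import Pool.Agent.Work.MP_43381c_ag.Mono

/-!
# Assembly of the theorem on toric pairs
-/

open Matrix

namespace Pool.Agent.Work.MP_43381c_ag



section

variable {k K : Type*} [Field k] [Field K] [Algebra k K] {d : ℕ}

theorem toE_mono {a b : WithTop ℤ} (h : a ≤ b) : toE a ≤ toE b := by
  cases b with
  | top => exact le_top
  | coe b =>
    cases a with
    | top => simp at h
    | coe a =>
      have h1 : a ≤ b := by exact_mod_cast h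
      change ((a : ℝ) : EReal) ≤ ((b : ℝ) : EReal)
      exact_mod_cast h1

theorem ord_ne_top (E : PrimeDivisor k K d) {f : K} (hf : f ≠ 0) : E.ord f ≠ ⊤ := by
  intro h
  exact hf ((AddValuation.top_iff E.ord).1 h)

theorem ord_eq (E : PrimeDivisor k K d) {f : K} (hf : f ≠ 0) : E.ord f = (E.ordZ f : ℤ) := by
  unfold PrimeDivisor.ordZ
  cases h : E.ord f with
  | top => exact absurd h (ord_ne_top E hf)
  | coe n => simp

theorem x_ne (P : ToricPair k K d) (i : Fin d) : P.x i ≠ 0 := P.algInd.ne_zero i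

theorem ordZ_mul (E : PrimeDivisor k K d) {f g : K} (hf : f ≠ 0) (hg : g ≠ 0) :
    E.ordZ (f * g) = E.ordZ f + E.ordZ g := by
  have h := E.ord.map_mul f g
  rw [ord_eq E hf, ord_eq E hg, ord_eq E (mul_ne_zero hf hg)] at h
  exact_mod_cast h

theorem ordZ_one (E : PrimeDivisor k K d) : E.ordZ 1 = 0 := by
  have h := ordZ_mul E (one_ne_zero (α := K)) one_ne_zero
  rw [mul_one] at h
  omega

theorem ordZ_inv (E : PrimeDivisor k K d) {f : K} (hf : f ≠ 0) : E.ordZ f⁻¹ = - E.ordZ f := by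
  have h := ordZ_mul E hf (inv_ne_zero hf)
  rw [mul_inv_cancel₀ hf, ordZ_one] at h
  omega

theorem ordZ_pow (E : PrimeDivisor k K d) {f : K} (hf : f ≠ 0) (n : ℕ) :
    E.ordZ (f ^ n) = n * E.ordZ f := by
  induction n with
  | zero => simp [ordZ_one]
  | succ n ih => rw [pow_succ, ordZ_mul E (pow_ne_zero n hf) hf, ih]; push_cast; ring

theorem ordZ_zpow (E : PrimeDivisor k K d) {f : K} (hf : f ≠ 0) (n : ℤ) :
    E.ordZ (f ^ n) = n * E.ordZ f := by
  cases n with
  | ofNat n => simpa using ordZ_pow E hf n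
  | negSucc n =>
    rw [zpow_negSucc, ordZ_inv E (pow_ne_zero _ hf), ordZ_pow E hf]
    push_cast [Int.negSucc_eq]
    ring

theorem ordZ_prod (E : PrimeDivisor k K d) {ι : Type*} (s : Finset ι) (f : ι → K)
    (hf : ∀ i ∈ s, f i ≠ 0) : E.ordZ (∏ i ∈ s, f i) = ∑ i ∈ s, E.ordZ (f i) := by
  classical
  induction s using Finset.induction_on with
  | empty => simp [ordZ_one]
  | insert a s ha ih =>
    rw [Finset.prod_insert ha, Finset.sum_insert ha, ordZ_mul E (hf a (Finset.mem_insert_self a s))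
      (Finset.prod_ne_zero_iff.2 fun i hi => hf i (Finset.mem_insert_of_mem hi)),
      ih fun i hi => hf i (Finset.mem_insert_of_mem hi)]

theorem mono_ne (P : ToricPair k K d) (m : Fin d → ℤ) : mono P.x m ≠ 0 :=
  Finset.prod_ne_zero_iff.2 fun i _ => zpow_ne_zero _ (x_ne P i)

theorem ordZ_mono (P : ToricPair k K d) (E : PrimeDivisor k K d) (m : Fin d → ℤ) :
    E.ordZ (mono P.x m) = m ⬝ᵥ P.vec E := by
  unfold mono
  rw [ordZ_prod E _ _ fun i _ => zpow_ne_zero _ (x_ne P i)]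
  simp only [dotProduct, ToricPair.vec]
  exact Finset.sum_congr rfl fun i _ => ordZ_zpow E (x_ne P i) _

theorem intPt_of_over (P : ToricPair k K d) {E : PrimeDivisor k K d} (hE : P.Over E) :
    IntPt P.v (P.vec E) := by
  intro m hm hne
  have h := hE m hm hne
  rw [ord_eq E (mono_ne P m), ordZ_mono] at h
  exact_mod_cast h

/-- `a(w)` for the pair. -/
noncomputable def ToricPair.aw (P : ToricPair k K d) (w : Fin d → ℤ) : ℝ :=
  aT P.m0 P.c (fun j => (P.f j).support) w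

theorem le_formOrd [IsAlgClosed k] [CharZero k] (P : ToricPair k K d) (E : PrimeDivisor k K d)
    (hE : P.Over E) (hd : 0 < d) :
    ((∑ j, ((E.ordZ (ev P.x (P.f j)) : ℝ) - (phi (P.f j) (P.vec E) : ℝ)) - 1 : ℝ) : EReal) ≤
      E.formOrd P.x := by
  refine le_iInf fun D => ?_
  have h := toE_mono (low P E hE D.1 D.2)
  refine le_trans (le_of_eq ?_) h
  change _ = (((∑ j, (E.ordZ (ev P.x (P.f j)) - phi (P.f j) (P.vec E)) - 1 : ℤ) : ℝ) : EReal)
  congr 1
  push_cast
  rfl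

theorem aw_le_a [IsAlgClosed k] [CharZero k] (P : ToricPair k K d) (hc : ∀ j, P.c j ≤ 1)
    (E : PrimeDivisor k K d) (hE : P.Over E) (hd : 0 < d) :
    ((P.aw (P.vec E) : ℝ) : EReal) ≤ P.a E := by
  have h1 := le_formOrd P E hE hd
  have h2 : ((P.aw (P.vec E) : ℝ) : EReal) ≤
      1 + ((∑ j, ((E.ordZ (ev P.x (P.f j)) : ℝ) - (phi (P.f j) (P.vec E) : ℝ)) - 1 : ℝ) : EReal) +
      ((pair P.m0 (P.vec E) - ∑ j, P.c j * (E.ordZ (ev P.x (P.f j)) : ℝ) : ℝ) : EReal) := by
    have e1 : (1 : EReal) = ((1 : ℝ) : EReal) := rfl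
    rw [e1, ← EReal.coe_add, ← EReal.coe_add]
    rw [EReal.coe_le_coe_iff]
    have h3 : ∑ j, P.c j * (E.ordZ (ev P.x (P.f j)) : ℝ) ≤
        ∑ j, (((E.ordZ (ev P.x (P.f j)) : ℝ) - (phi (P.f j) (P.vec E) : ℝ)) +
          P.c j * (phi (P.f j) (P.vec E) : ℝ)) := by
      refine Finset.sum_le_sum fun j _ => ?_
      have h4 : (phi (P.f j) (P.vec E) : ℝ) ≤ (E.ordZ (ev P.x (P.f j)) : ℝ) := by
        exact_mod_cast phi_le_ord P E j
      have h5 := hc j
      nlinarith
    rw [Finset.sum_add_distrib] at h3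
    have h6 : P.aw (P.vec E) = pair P.m0 (P.vec E) -
        ∑ j, P.c j * (phi (P.f j) (P.vec E) : ℝ) := rfl
    rw [h6]
    linarith
  refine h2.trans ?_
  unfold ToricPair.a
  gcongr

theorem a_mono [IsAlgClosed k] [CharZero k] (P : ToricPair k K d) (hd : 0 < d) {w : Fin d → ℤ}
    (hw : IntPt P.v w) (hprim : ∃ u : Fin d → ℤ, u ⬝ᵥ w = 1) :
    ∃ E : PrimeDivisor k K d, P.Over E ∧ P.a E = ((P.aw w : ℝ) : EReal) ∧
      P.aX E = ((pair (fun i => (P.mK i : ℝ)) w : ℝ) : EReal) := by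
  obtain ⟨E, hE, hvec, hord, hform⟩ := exists_mono P w hw hprim
  have h1 : E.formOrd P.x = ((-1 : ℝ) : EReal) := by
    apply le_antisymm
    · refine hform.trans (le_of_eq ?_)
      rw [EReal.coe_neg]; rfl
    · have h2 := le_formOrd P E hE hd
      refine le_trans (le_of_eq ?_) h2
      congr 1
      rw [hvec]
      simp [hord]
  refine ⟨E, hE, ?_, ?_⟩
  · unfold ToricPair.a
    rw [h1, hvec]
    have e1 : (1 : EReal) = ((1 : ℝ) : EReal) := rfl
    rw [e1, ← EReal.coe_add, ← EReal.coe_add]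
    congr 1
    have h6 : P.aw w = pair P.m0 w - ∑ j, P.c j * (phi (P.f j) w : ℝ) := rfl
    rw [h6]
    simp only [hord]
    ring
  · unfold ToricPair.aX
    rw [h1, hvec]
    have e1 : (1 : EReal) = ((1 : ℝ) : EReal) := rfl
    rw [e1, ← EReal.coe_add, ← EReal.coe_add]
    congr 1
    ring

end

universe u

/-- The main theorem. -/
theorem toric_main (d : ℕ) (hd : 0 < d) (Γ : Set ℝ) (hΓ : Γ ⊆ Set.Icc 0 1)
    (hdcc : ¬ ∃ u : ℕ → ℝ, StrictAnti u ∧ ∀ n, u n ∈ Γ) :
    ∃ l : ℝ, 0 < l ∧ ∀ (k K : Type u) [Field k] [IsAlgClosed k] [CharZero k] [Field K]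
      [Algebra k K] (P : ToricPair k K d), P.CoefIn Γ → P.IsLC →
      ∃ E : PrimeDivisor k K d, P.Over E ∧ P.a E = P.mld ∧ P.aX E ≤ (l : EReal) := by
  classical
  have hG1 : ∀ g ∈ insert (0 : ℝ) Γ, 0 ≤ g ∧ g ≤ 1 := by
    rintro g (h | h)
    · rw [h]; exact ⟨le_rfl, zero_le_one⟩
    · exact hΓ h
  have hG : DCC (insert (0 : ℝ) Γ) := dcc_insert_zero (fun g hg => (hΓ hg).1) hdcc
  obtain ⟨l, hl, hcomb⟩ := comb_main d hd hG1 hG
  refine ⟨l, hl, ?_⟩
  intro k K _ _ _ _ _ P hcoef hlc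
  have hb : ∀ ρ, P.b ρ ∈ insert (0 : ℝ) Γ := fun ρ => hcoef.1 ρ
  have hc' : ∀ j, P.c j = 0 ∨ P.c j ∈ insert (0 : ℝ) Γ := fun j => by
    rcases hcoef.2 j with h | h
    · exact Or.inl h
    · exact Or.inr (Or.inr h)
  have hc1 : ∀ j, P.c j ≤ 1 := by
    intro j
    rcases hcoef.2 j with h | h
    · rw [h]; exact zero_le_one
    · exact (hΓ h).2
  have hS : ∀ j, ((P.f j).support).Nonempty := fun j => by
    rw [Finset.nonempty_iff_ne_empty]
    intro h
    exact P.f_ne j (Finsupp.support_eq_empty.1 h)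
  have hr : 0 < P.r := by
    rcases Nat.eq_zero_or_pos P.r with h | h
    · exfalso
      have := P.full (fun _ => 1) (fun ρ => by rw [h] at ρ; exact ρ.elim0)
      have h1 := congrFun this ⟨0, hd⟩
      simp at h1
    · exact h
  have hlc' : ∀ w, IntPt P.v w → 0 ≤ aT P.m0 P.c (fun j => (P.f j).support) w := by
    intro w hw
    have hne : w ≠ 0 := by
      rintro rfl
      have := mK_pos P.mK_eq hr hw
      simp at this
    obtain ⟨g, hg, w1, hw1, hprim⟩ := exists_primitive hne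
    have hint : IntPt P.v w1 := by
      intro m hm hmne
      have := hw m hm hmne
      rw [dot_smul' m hw1] at this
      exact pos_of_mul_pos_right this hg.le
    obtain ⟨E, hE, ha, _⟩ := a_mono P hd hint hprim
    have h1 := hlc E hE
    rw [ha] at h1
    have h2 : 0 ≤ P.aw w1 := by exact_mod_cast h1
    rw [aT_smul P.m0 P.c hS hg hw1]
    exact mul_nonneg (by exact_mod_cast hg.le) h2
  obtain ⟨w, hw, hprim, hmin, hle⟩ := hcomb P.r P.s P.v P.full P.mK P.mK_eq P.b hb P.c hc'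
    (fun j => (P.f j).support) hS P.m0 P.m0_eq hlc'
  obtain ⟨E, hE, ha, haX⟩ := a_mono P hd hw hprim
  refine ⟨E, hE, ?_, ?_⟩
  · unfold ToricPair.mld
    apply le_antisymm
    · refine le_iInf fun E' => ?_
      refine le_trans ?_ (aw_le_a P hc1 E'.1 E'.2 hd)
      rw [ha]
      have h1 : P.aw w ≤ P.aw (P.vec E'.1) := hmin _ (intPt_of_over P E'.2)
      exact_mod_cast h1
    · exact iInf_le (fun E' : {E // P.Over E} => P.a E'.1) ⟨E, hE⟩
  · rw [haX]
    have h1 : pair (fun i => (P.mK i : ℝ)) w ≤ l := hle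
    exact_mod_cast h1

end Pool.Agent.Work.MP_43381c_ag
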