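import Pool.Agent.Work.MP_43381c_ag.Defs

set_option autoImplicit false

/-!
# Lower bound for the order of the toric form along a divisor
-/

namespace Pool.Agent.Work.MP_43381c_ag

open Finset MvPolynomial Matrix

section minors

theorem exists_rinv {J d F : Type*} [Fintype J] [DecidableEq J] [Fintype d] [DecidableEq d]
    [Field F] (A : Matrix J d F) (h : LinearIndependent F A.row) :
    ∃ B : Matrix d J F, A * B = 1 := by
  classical
  rw [← Matrix.mulVec_surjective_iff_exists_right_inverse]
  have h1 : A.rank = Fintype.card J := h.rank_matrix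
  have h2 : LinearMap.range A.mulVecLin = ⊤ := by
    apply Submodule.eq_top_of_finrank_eq
    rw [Module.finrank_fintype_fun_eq_card]
    exact h1
  intro y
  have := LinearMap.range_eq_top.mp h2 y
  simpa using this

/-- expansion of det (A * B) over all maps -/
theorem det_mul_expand {J d R : Type*} [Fintype J] [DecidableEq J] [Fintype d] [DecidableEq d]
    [CommRing R] (A : Matrix J d R) (B : Matrix d J R) :
    (A * B).det = ∑ ρ : J → d, (∏ j, B (ρ j) j) * (A.submatrix id ρ).det := by
  classical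
  rw [Matrix.det_apply']
  simp only [Matrix.mul_apply]
  simp only [Finset.prod_univ_sum, Fintype.piFinset_univ, Finset.mul_sum]
  rw [Finset.sum_comm]
  refine Finset.sum_congr rfl fun ρ _ => ?_
  rw [Matrix.det_apply', Finset.mul_sum]
  refine Finset.sum_congr rfl fun σ _ => ?_
  simp only [Matrix.submatrix_apply, id_eq, Finset.prod_mul_distrib]
  ring

theorem exists_minor {J d F : Type*} [Fintype J] [DecidableEq J] [Fintype d] [DecidableEq d]
    [Field F] (A : Matrix J d F) (h : LinearIndependent F A.row) :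
    ∃ ρ : J → d, (A.submatrix id ρ).det ≠ 0 := by
  classical
  by_contra hc
  push Not at hc
  obtain ⟨B, hB⟩ := exists_rinv A h
  have := det_mul_expand A B
  rw [hB, Matrix.det_one] at this
  rw [Finset.sum_eq_zero (fun ρ _ => by rw [hc ρ, mul_zero])] at this
  exact one_ne_zero this

end minors

section bound

variable {K : Type*} [Field K] (v : AddValuation K (WithTop ℤ))

theorem v_prod {ι : Type*} (s : Finset ι) (f : ι → K) : v (∏ i ∈ s, f i) = ∑ i ∈ s, v (f i) := by
  classical
  induction s using Finset.induction_on with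
  | empty => simp
  | insert a s ha ih => rw [Finset.prod_insert ha, Finset.sum_insert ha, v.map_mul, ih]

theorem v_det_nonneg {n : Type*} [Fintype n] [DecidableEq n] (A : Matrix n n K)
    (h : ∀ i j, 0 ≤ v (A i j)) : 0 ≤ v A.det := by
  classical
  rw [Matrix.det_apply']
  refine v.map_le_sum fun σ _ => ?_
  rw [v.map_mul]
  have h1 : 0 ≤ v (((Equiv.Perm.sign σ : ℤ) : K)) := by
    rcases Int.units_eq_one_or (Equiv.Perm.sign σ) with h | h <;> rw [h] <;> simp
  have h2 : 0 ≤ v (∏ i, A (σ i) i) := by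
    rw [v_prod]
    exact Finset.sum_nonneg fun i _ => h _ _
  exact add_nonneg h1 h2

theorem v_det_rank_one {n : Type*} [Fintype n] [DecidableEq n] (R : Matrix n n K)
    (a c : n → K) {t : K} (ht : v t = 1) (hR : ∀ i j, 0 ≤ v (R i j))
    (ha : ∀ i, 0 ≤ v (t * a i)) (hc : ∀ j, 0 ≤ v (c j)) :
    0 ≤ v (t * (Matrix.of fun i j => R i j + a i * c j).det) := by
  classical
  set M : Matrix (Unit ⊕ n) (Unit ⊕ n) K :=
    Matrix.fromBlocks 1 (Matrix.of fun _ j => - c j) (Matrix.of fun i _ => a i) R with hM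
  have hdet : M.det = (Matrix.of fun i j => R i j + a i * c j).det := by
    rw [hM, Matrix.det_fromBlocks_one₁₁]
    congr 1
    ext i j
    simp [Matrix.mul_apply]
  set N : Matrix (Unit ⊕ n) (Unit ⊕ n) K :=
    M * Matrix.diagonal (Sum.elim (fun _ => t) (fun _ => 1)) with hN
  have hNd : N.det = t * M.det := by
    rw [hN, Matrix.det_mul, Matrix.det_diagonal, mul_comm]
    simp
  rw [← hdet, ← hNd]
  apply v_det_nonneg
  intro i j
  rw [hN, Matrix.mul_diagonal]
  rcases i with i | i <;> rcases j with j | j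
  · simp [hM, ht]
  · simp [hM, v.map_neg, hc]
  · simp only [hM, Matrix.fromBlocks_apply₂₁, Matrix.of_apply, Sum.elim_inl]
    rw [mul_comm]; exact ha i
  · simp [hM, hR]


open Classical in
theorem main_bound {n J : Type*} [Fintype n] [DecidableEq n] [Fintype J] [DecidableEq J]
    (G : Matrix n n K) (A : Matrix J n K) (ρ : J → n)
    (hρ : v (A.submatrix id ρ).det = 0) {t : K} (ht : v t = 1) (e : J → ℕ)
    (a w : n → K) (b : J → K) (r : n → J → K)
    (ha : ∀ i, 0 ≤ v (t * a i)) (hw : ∀ l, 0 ≤ v (w l)) (hb : ∀ j, 0 ≤ v (b j))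
    (hr : ∀ i j, 0 ≤ v (r i j))
    (hG : ∀ i l, 0 ≤ v (G i l - a i * w l))
    (hA : ∀ i j, ∑ l, G i l * A j l = t ^ (e j) * (r i j + a i * b j)) :
    ((∑ j, e j : ℕ) : WithTop ℤ) ≤ v (t * G.det) := by
  classical
  have hdet0 : (A.submatrix id ρ).det ≠ 0 := by
    intro h0
    rw [h0, v.map_zero] at hρ
    exact WithTop.top_ne_zero hρ
  have hinj : Function.Injective ρ := by
    intro j j' hjj
    by_contra hne
    apply hdet0
    apply Matrix.det_zero_of_column_eq hne
    intro i
    simp [hjj]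
  set C : Matrix n n K := Matrix.of fun l' l =>
    if h : ∃ j, ρ j = l then A h.choose l' else if l' = l then 1 else 0 with hC
  have hCρ : ∀ l' j, C l' (ρ j) = A j l' := by
    intro l' j
    have h : ∃ j', ρ j' = ρ j := ⟨j, rfl⟩
    have h2 : h.choose = j := hinj h.choose_spec
    simp only [hC, Matrix.of_apply, dif_pos h, h2]
  have hCn : ∀ l' l, l ∉ Set.range ρ → C l' l = if l' = l then 1 else 0 := by
    intro l' l hl
    have h : ¬ ∃ j, ρ j = l := fun ⟨j, hj⟩ => hl ⟨j, hj⟩
    simp only [hC, Matrix.of_apply, dif_neg h]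
  -- determinant of C
  have hdC : C.det = (A.submatrix id ρ).det := by
    rw [Matrix.twoBlockTriangular_det C (fun l => l ∉ Set.range ρ)]
    · have h1 : (C.toSquareBlockProp (fun l => l ∉ Set.range ρ)).det = 1 := by
        have : C.toSquareBlockProp (fun l => l ∉ Set.range ρ) = 1 := by
          ext i j
          simp only [Matrix.toSquareBlockProp_def, Matrix.of_apply, hCn _ _ j.2, Matrix.one_apply]
          congr 1
          rw [Subtype.ext_iff]
        rw [this, Matrix.det_one]
      rw [h1, one_mul]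
      let E : J ≃ {l // ¬ (l ∉ Set.range ρ)} :=
        Equiv.ofBijective (fun j => ⟨ρ j, by simp⟩) ⟨fun j j' h => hinj (by simpa using h), by
          rintro ⟨l, hl⟩
          rw [not_not] at hl
          obtain ⟨j, rfl⟩ := hl
          exact ⟨j, rfl⟩⟩
      rw [← Matrix.det_submatrix_equiv_self E, ← Matrix.det_transpose]
      congr 1
      ext i j
      simp only [Matrix.transpose_apply, Matrix.submatrix_apply, Matrix.toSquareBlockProp_def,
        Matrix.of_apply, id_eq]
      exact hCρ _ _
    · intro i hi j hj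
      rw [not_not] at hi
      rw [hCn _ _ hj, if_neg]
      rintro rfl
      exact hj hi
  set s : n → K := fun l => if h : ∃ j, ρ j = l then t ^ (e h.choose) else 1 with hs
  set c : n → K := fun l => if h : ∃ j, ρ j = l then b h.choose else w l with hc
  set R : Matrix n n K := Matrix.of fun i l =>
    if h : ∃ j, ρ j = l then r i h.choose else G i l - a i * w l with hR
  have hGC : G * C = (Matrix.of fun i l => R i l + a i * c l) * Matrix.diagonal s := by
    ext i l
    rw [Matrix.mul_diagonal, Matrix.mul_apply]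
    by_cases h : ∃ j, ρ j = l
    · obtain ⟨j, rfl⟩ := h
      have h : ∃ j', ρ j' = ρ j := ⟨j, rfl⟩
      have h2 : h.choose = j := hinj h.choose_spec
      simp only [hCρ, hA, hR, hc, hs, Matrix.of_apply, dif_pos h, h2]
      ring
    · have hl : l ∉ Set.range ρ := fun ⟨j, hj⟩ => h ⟨j, hj⟩
      simp only [hCn _ _ hl, hR, hc, hs, Matrix.of_apply, dif_neg h]
      simp
  have hprod : ∏ l, s l = t ^ (∑ j, e j) := by
    rw [← Finset.prod_pow_eq_pow_sum]
    rw [← Finset.prod_subset (Finset.subset_univ (Finset.univ.image ρ))]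
    · rw [Finset.prod_image (fun x _ y _ h => hinj h)]
      refine Finset.prod_congr rfl fun j _ => ?_
      have h : ∃ j', ρ j' = ρ j := ⟨j, rfl⟩
      have h2 : h.choose = j := hinj h.choose_spec
      simp only [hs, dif_pos h, h2]
    · intro l _ hl
      have h : ¬ ∃ j, ρ j = l := by
        rintro ⟨j, rfl⟩
        exact hl (by simp)
      simp only [hs, dif_neg h]
  have hfin : G.det * (A.submatrix id ρ).det =
      (Matrix.of fun i l => R i l + a i * c l).det * t ^ (∑ j, e j) := by
    rw [← hdC, ← Matrix.det_mul, hGC, Matrix.det_mul, Matrix.det_diagonal, hprod]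
  have hrk := v_det_rank_one v R a c ht (by
      intro i l
      by_cases h : ∃ j, ρ j = l
      · simp only [hR, Matrix.of_apply, dif_pos h]; exact hr _ _
      · simp only [hR, Matrix.of_apply, dif_neg h]; exact hG _ _) ha (by
      intro l
      by_cases h : ∃ j, ρ j = l
      · simp only [hc, dif_pos h]; exact hb _
      · simp only [hc, dif_neg h]; exact hw _)
  have h3 : v (t * G.det) = v (t * (Matrix.of fun i l => R i l + a i * c l).det) +
      ((∑ j, e j : ℕ) : WithTop ℤ) := by
    have h4 : v (t * (G.det * (A.submatrix id ρ).det)) =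
        v (t * ((Matrix.of fun i l => R i l + a i * c l).det * t ^ (∑ j, e j))) := by
      rw [hfin]
    rw [← mul_assoc, ← mul_assoc, v.map_mul (t * G.det), hρ, add_zero,
      v.map_mul (t * (Matrix.of fun i l => R i l + a i * c l).det), v.map_pow, ht] at h4
    rw [h4]
    simp
  rw [h3]
  exact le_add_of_nonneg_left hrk

end bound

section logder

variable {k K : Type*} [Field k] [Field K] [Algebra k K]

/-- logarithmic derivative -/
def lD (D : Derivation k K K) (y : K) : K := D y / y

theorem lD_mul (D : Derivation k K K) {x y : K} (hx : x ≠ 0) (hy : y ≠ 0) :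
    lD D (x * y) = lD D x + lD D y := by
  unfold lD
  rw [D.leibniz]
  simp only [smul_eq_mul]
  field_simp
  ring

theorem lD_one (D : Derivation k K K) : lD D 1 = 0 := by simp [lD]

theorem lD_inv (D : Derivation k K K) {x : K} (hx : x ≠ 0) : lD D x⁻¹ = - lD D x := by
  have := lD_mul D hx (inv_ne_zero hx)
  rw [mul_inv_cancel₀ hx, lD_one] at this
  linear_combination -this

theorem lD_zpow (D : Derivation k K K) {x : K} (hx : x ≠ 0) (n : ℤ) :
    lD D (x ^ n) = n * lD D x := by
  induction n using Int.induction_on with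
  | zero => simp [lD_one]
  | succ i ih =>
    rw [zpow_add_one₀ hx, lD_mul D (zpow_ne_zero _ hx) hx, ih]
    push_cast; ring
  | pred i ih =>
    rw [zpow_sub_one₀ hx, lD_mul D (zpow_ne_zero _ hx) (inv_ne_zero hx), ih, lD_inv D hx]
    push_cast; ring

theorem lD_prod (D : Derivation k K K) {ι : Type*} (s : Finset ι) (f : ι → K)
    (hf : ∀ i ∈ s, f i ≠ 0) : lD D (∏ i ∈ s, f i) = ∑ i ∈ s, lD D (f i) := by
  classical
  induction s using Finset.induction_on with
  | empty => simp [lD_one]
  | insert a s ha ih =>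
    rw [Finset.prod_insert ha, Finset.sum_insert ha, lD_mul D (hf a (by simp))
      (Finset.prod_ne_zero_iff.mpr fun i hi => hf i (by simp [hi])),
      ih fun i hi => hf i (by simp [hi])]

variable (v : AddValuation K (WithTop ℤ))

theorem v_zpow {x : K} {n : ℤ} (hx : v x = (n : ℤ)) (m : ℤ) : v (x ^ m) = ((m * n : ℤ) : WithTop ℤ) := by
  have hx0 : x ≠ 0 := by
    rintro rfl
    rw [v.map_zero] at hx
    exact WithTop.top_ne_coe hx
  induction m using Int.induction_on with
  | zero => simp
  | succ i ih =>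
    rw [zpow_add_one₀ hx0, v.map_mul, ih, hx, ← WithTop.coe_add]
    congr 1; push_cast; ring
  | pred i ih =>
    rw [zpow_sub_one₀ hx0, v.map_mul, ih, v.map_inv, hx]
    have : (-((n : ℤ) : WithTop ℤ)) = ((-n : ℤ) : WithTop ℤ) := rfl
    rw [this, ← WithTop.coe_add]
    congr 1; push_cast; ring

theorem v_intCast (n : ℤ) : 0 ≤ v (n : K) := by
  induction n using Int.induction_on with
  | zero => simp
  | succ i ih =>
    push_cast
    push_cast at ih
    exact v.map_le_add ih (by simp)
  | pred i ih =>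
    push_cast
    push_cast at ih
    exact v.map_le_sub ih (by simp)

/-- `D y / y = n D t / t + regular`. -/
theorem v_lD {D : Derivation k K K} (hD : ∀ f, 0 ≤ v f → 0 ≤ v (D f)) {t y : K} (ht : v t = 1)
    {n : ℤ} (hy : v y = (n : ℤ)) : 0 ≤ v (lD D y - n * lD D t) := by
  have ht' : v t = ((1 : ℤ) : WithTop ℤ) := by simpa using ht
  have ht0 : t ≠ 0 := by
    rintro rfl
    rw [v.map_zero] at ht'
    exact WithTop.top_ne_coe ht'
  have hy0 : y ≠ 0 := by
    rintro rfl
    rw [v.map_zero] at hy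
    exact WithTop.top_ne_coe hy
  set u := y * t ^ (-n) with hu
  have hvu : v u = 0 := by
    rw [hu, v.map_mul, hy, v_zpow v ht' (-n), ← WithTop.coe_add]
    simp
  have hu0 : u ≠ 0 := mul_ne_zero hy0 (zpow_ne_zero _ ht0)
  have h1 : lD D u = lD D y - n * lD D t := by
    rw [hu, lD_mul D hy0 (zpow_ne_zero _ ht0), lD_zpow D ht0]
    push_cast; ring
  rw [← h1, lD, v.map_div, hvu]
  simpa using hD u hvu.ge

theorem v_lD_t {D : Derivation k K K} (hD : ∀ f, 0 ≤ v f → 0 ≤ v (D f)) {t : K} (ht : v t = 1) :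
    0 ≤ v (t * lD D t) := by
  have ht' : v t = ((1 : ℤ) : WithTop ℤ) := by simpa using ht
  have ht0 : t ≠ 0 := by
    rintro rfl
    rw [v.map_zero] at ht'
    exact WithTop.top_ne_coe ht'
  rw [lD, mul_div_cancel₀ _ ht0]
  exact hD t (by rw [ht]; exact zero_le_one)

end logder

section zeros

variable {k K : Type*} [Field k] [Field K] [Algebra k K] (v : AddValuation K (WithTop ℤ))

theorem v_aeval_nonneg {d : Type*} (hk : ∀ c : k, c ≠ 0 → v (algebraMap k K c) = 0)
    (u : d → K) (hu : ∀ i, v (u i) = 0) (Q : MvPolynomial d k) : 0 ≤ v (aeval u Q) := by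
  induction Q using MvPolynomial.induction_on with
  | C a =>
    rw [aeval_C]
    by_cases h : a = 0
    · simp [h]
    · rw [hk a h]
  | add p q hp hq => rw [map_add]; exact v.map_le_add hp hq
  | mul_X p i hp => rw [map_mul, aeval_X, v.map_mul, hu, add_zero]; exact hp

theorem nullst [IsAlgClosed k] {d : Type*} [Fintype d] {ι : Type*} (P : ι → MvPolynomial d k)
    (hP : ∀ p : d → k, (∀ i, p i ≠ 0) → ∃ a, eval p (P a) ≠ 0)
    (hk : ∀ c : k, c ≠ 0 → v (algebraMap k K c) = 0) (u : d → K) (hu : ∀ i, v (u i) = 0) :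
    ∃ a, ¬ 0 < v (aeval u (P a)) := by
  classical
  by_contra hc
  push Not at hc
  set I : Ideal (MvPolynomial d k) := Ideal.span (Set.range P) with hI
  have h1 : (∏ i : d, (X i : MvPolynomial d k)) ∈ vanishingIdeal k (zeroLocus k I) := by
    rw [mem_vanishingIdeal_iff]
    intro p hp
    by_contra hne
    have hpi : ∀ i, p i ≠ 0 := by
      intro i hi
      apply hne
      rw [map_prod]
      exact Finset.prod_eq_zero (Finset.mem_univ i) (by simpa using hi)
    obtain ⟨a, ha⟩ := hP p hpi
    have := hp (P a) (Ideal.subset_span ⟨a, rfl⟩)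
    rw [aeval_eq_eval] at this
    exact ha this
  rw [vanishingIdeal_zeroLocus_eq_radical] at h1
  obtain ⟨n, hn⟩ := h1
  have h2 : ∀ Q ∈ I, 0 < v (aeval u Q) := by
    intro Q hQ
    induction hQ using Submodule.span_induction with
    | mem x hx =>
      obtain ⟨a, rfl⟩ := hx
      exact hc a
    | zero => simp
    | add x y _ _ hx hy => rw [map_add]; exact v.map_lt_add hx hy
    | smul a x _ hx =>
      rw [smul_eq_mul, map_mul, v.map_mul]
      exact lt_of_lt_of_le hx (le_add_of_nonneg_left (v_aeval_nonneg v hk u hu a))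
  have h3 := h2 _ hn
  rw [map_pow, v.map_pow, map_prod] at h3
  have h4 : v (∏ i, aeval u (X i : MvPolynomial d k)) = 0 := by
    have : ∀ s : Finset d, v (∏ i ∈ s, aeval u (X i : MvPolynomial d k)) = 0 := by
      intro s
      induction s using Finset.induction_on with
      | empty => simp
      | insert a s ha ih => rw [Finset.prod_insert ha, v.map_mul, ih, aeval_X, hu, add_zero]
    exact this _
  rw [h4] at h3
  simp at h3

end zeros

section congr

variable {K : Type*} [Field K] (v : AddValuation K (WithTop ℤ))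

theorem v_prod_congr {ι : Type*} (s : Finset ι) (f g : ι → K)
    (hf : ∀ i ∈ s, 0 ≤ v (f i)) (hg : ∀ i ∈ s, 0 ≤ v (g i)) (h : ∀ i ∈ s, 0 < v (f i - g i)) :
    0 ≤ v (∏ i ∈ s, f i) ∧ 0 ≤ v (∏ i ∈ s, g i) ∧ 0 < v (∏ i ∈ s, f i - ∏ i ∈ s, g i) := by
  classical
  induction s using Finset.induction_on with
  | empty => simp
  | insert a s ha ih =>
    obtain ⟨i1, i2, i3⟩ := ih (fun i hi => hf i (by simp [hi])) (fun i hi => hg i (by simp [hi]))
      (fun i hi => h i (by simp [hi]))
    rw [Finset.prod_insert ha, Finset.prod_insert ha]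
    have e : f a * ∏ i ∈ s, f i - g a * ∏ i ∈ s, g i =
        f a * (∏ i ∈ s, f i - ∏ i ∈ s, g i) + (f a - g a) * ∏ i ∈ s, g i := by ring
    have j1 := hf a (by simp)
    have j2 := hg a (by simp)
    have j3 := h a (by simp)
    refine ⟨?_, ?_, ?_⟩
    · rw [v.map_mul]; exact add_nonneg j1 i1
    · rw [v.map_mul]; exact add_nonneg j2 i2
    · rw [e]
      apply v.map_lt_add
      · rw [v.map_mul]; exact lt_of_lt_of_le i3 (le_add_of_nonneg_left j1)
      · rw [v.map_mul]; exact lt_of_lt_of_le j3 (le_add_of_nonneg_right i2)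

theorem v_det_congr {n : Type*} [Fintype n] [DecidableEq n] (A B : Matrix n n K)
    (hA : ∀ i j, 0 ≤ v (A i j)) (hB : ∀ i j, 0 ≤ v (B i j)) (h : ∀ i j, 0 < v (A i j - B i j)) :
    0 < v (A.det - B.det) := by
  classical
  rw [Matrix.det_apply', Matrix.det_apply', ← Finset.sum_sub_distrib]
  refine v.map_lt_sum' (WithTop.coe_lt_top (0 : ℤ)) fun σ _ => ?_
  rw [← mul_sub, v.map_mul]
  have h1 : 0 ≤ v (((Equiv.Perm.sign σ : ℤ) : K)) := by
    rcases Int.units_eq_one_or (Equiv.Perm.sign σ) with h | h <;> rw [h] <;> simp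
  exact lt_of_lt_of_le (v_prod_congr v _ _ _ (fun i _ => hA _ _) (fun i _ => hB _ _)
    (fun i _ => h _ _)).2.2 (le_add_of_nonneg_left h1)

end congr

section mono

variable {L : Type*} [Field L]

theorem mono_add {d : ℕ} {y : Fin d → L} (hy : ∀ i, y i ≠ 0) (m n : Fin d → ℤ) :
    mono y (m + n) = mono y m * mono y n := by
  unfold mono
  rw [← Finset.prod_mul_distrib]
  exact Finset.prod_congr rfl fun i _ => zpow_add₀ (hy i) _ _

theorem mono_ne_zero {d : ℕ} {y : Fin d → L} (hy : ∀ i, y i ≠ 0) (m : Fin d → ℤ) :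
    mono y m ≠ 0 := Finset.prod_ne_zero_iff.mpr fun i _ => zpow_ne_zero _ (hy i)

theorem mono_mul {d : ℕ} (y z : Fin d → L) (m : Fin d → ℤ) :
    mono (fun i => y i * z i) m = mono y m * mono z m := by
  unfold mono
  rw [← Finset.prod_mul_distrib]
  exact Finset.prod_congr rfl fun i _ => mul_zpow _ _ _

theorem mono_zpow {d : ℕ} {t : L} (ht : t ≠ 0) (w m : Fin d → ℤ) :
    mono (fun i => t ^ w i) m = t ^ (m ⬝ᵥ w) := by
  unfold mono
  rw [dotProduct]
  have : ∀ s : Finset (Fin d), ∏ i ∈ s, (t ^ w i) ^ m i = t ^ (∑ i ∈ s, m i * w i) := by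
    intro s
    induction s using Finset.induction_on with
    | empty => simp
    | insert a s ha ih =>
      rw [Finset.prod_insert ha, Finset.sum_insert ha, ih, zpow_add₀ ht, ← _root_.zpow_mul, mul_comm (w a)]
  exact this _

end mono

section poly

variable {k : Type*} [Field k]

/-- the polynomial `∑ g_m X^(m+N)` -/
noncomputable def shP {d : ℕ} (N : Fin d → ℕ) (S : Finset (Fin d → ℤ)) (g : (Fin d → ℤ) → k) :
    MvPolynomial (Fin d) k :=
  ∑ m ∈ S, C (g m) * ∏ i, X i ^ (m i + N i).toNat

theorem aeval_shP {L : Type*} [Field L] [Algebra k L] {d : ℕ} (N : Fin d → ℕ)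
    (S : Finset (Fin d → ℤ)) (g : (Fin d → ℤ) → k) {y : Fin d → L} (hy : ∀ i, y i ≠ 0)
    (hN : ∀ m ∈ S, ∀ i, 0 ≤ m i + N i) :
    aeval y (shP N S g) = mono y (fun i => (N i : ℤ)) * ∑ m ∈ S, algebraMap k L (g m) * mono y m := by
  unfold shP
  rw [map_sum, Finset.mul_sum]
  refine Finset.sum_congr rfl fun m hm => ?_
  rw [map_mul, aeval_C, map_prod]
  have : ∏ i, aeval y (X i ^ (m i + N i).toNat : MvPolynomial (Fin d) k) =
      mono y (m + fun i => (N i : ℤ)) := by
    unfold mono
    refine Finset.prod_congr rfl fun i _ => ?_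
    rw [map_pow, aeval_X, ← zpow_natCast, Int.toNat_of_nonneg (hN m hm i)]
    rfl
  rw [this, mono_add hy]
  ring

end poly

section expo

variable {k K : Type*} [Field k] [Field K] [Algebra k K] {d : ℕ}

theorem phi_le {f : (Fin d → ℤ) →₀ k} (w : Fin d → ℤ) {m : Fin d → ℤ} (hm : m ∈ f.support) :
    phi f w ≤ m ⬝ᵥ w :=
  csInf_le (f.support.finite_toSet.image _).bddBelow ⟨m, hm, rfl⟩

theorem exists_phi {f : (Fin d → ℤ) →₀ k} (hf : f ≠ 0) (w : Fin d → ℤ) :
    ∃ m ∈ f.support, m ⬝ᵥ w = phi f w := by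
  have hne : ((fun m => m ⬝ᵥ w) '' (f.support : Set (Fin d → ℤ))).Nonempty := by
    obtain ⟨m, hm⟩ := Finsupp.support_nonempty_iff.mpr hf
    exact ⟨_, m, hm, rfl⟩
  obtain ⟨m, hm, h⟩ := Int.csInf_mem hne (f.support.finite_toSet.image _).bddBelow
  exact ⟨m, hm, h⟩

theorem init_ne_zero {f : (Fin d → ℤ) →₀ k} (hf : f ≠ 0) (w : Fin d → ℤ) : init f w ≠ 0 := by
  obtain ⟨m, hm, h⟩ := exists_phi hf w
  intro h0
  have h1 : init f w m = f m := Finsupp.filter_apply_pos _ _ h
  rw [h0] at h1
  exact Finsupp.mem_support_iff.mp hm h1.symm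

theorem shP_term (N : Fin d → ℕ) (m : Fin d → ℤ) (c : k) :
    (C c * ∏ i, X i ^ (m i + N i).toNat : MvPolynomial (Fin d) k) =
      monomial (Finsupp.equivFunOnFinite.symm fun i => (m i + N i).toNat) c := by
  rw [monomial_eq, Finsupp.prod_fintype _ _ (fun i => pow_zero _)]
  rfl

theorem coeff_shP {N : Fin d → ℕ} {S : Finset (Fin d → ℤ)} (g : (Fin d → ℤ) → k)
    (hN : ∀ m ∈ S, ∀ i, 0 ≤ m i + N i) {m0 : Fin d → ℤ} (h0 : m0 ∈ S) :
    coeff (Finsupp.equivFunOnFinite.symm fun i => (m0 i + N i).toNat) (shP N S g) = g m0 := by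
  classical
  unfold shP
  rw [coeff_sum, Finset.sum_eq_single m0]
  · rw [shP_term, coeff_monomial, if_pos rfl]
  · intro m hm hne
    rw [shP_term, coeff_monomial, if_neg]
    intro h
    apply hne
    funext i
    have h1 := congrArg (fun q => q i) h
    simp only [Finsupp.equivFunOnFinite_symm_apply_apply] at h1
    have h2 := hN m hm i
    have h3 := hN m0 h0 i
    omega
  · exact fun h => absurd h0 h

/-- a common shift for finitely many exponents -/
def shN (S : Finset (Fin d → ℤ)) : Fin d → ℕ := fun i => ∑ m ∈ S, (m i).natAbs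

theorem shN_le {S : Finset (Fin d → ℤ)} {m : Fin d → ℤ} (hm : m ∈ S) (i : Fin d) :
    0 ≤ m i + shN S i := by
  have h : (m i).natAbs ≤ shN S i :=
    Finset.single_le_sum (f := fun m : Fin d → ℤ => (m i).natAbs) (fun _ _ => Nat.zero_le _) hm
  omega

theorem ev_eq {L : Type*} [Field L] [Algebra k L] (p : Fin d → L) (f : (Fin d → ℤ) →₀ k) :
    ev p f = ∑ m ∈ f.support, algebraMap k L (f m) * mono p m := rfl

theorem dev_eq {L : Type*} [Field L] [Algebra k L] (p : Fin d → L) (l : Fin d)
    (f : (Fin d → ℤ) →₀ k) :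
    dev p l f = ∑ m ∈ f.support, algebraMap k L (f m) * (m l : L) * mono p m := rfl

theorem ev_ne_zero {x : Fin d → K} (hx : AlgebraicIndependent k x) {f : (Fin d → ℤ) →₀ k}
    (hf : f ≠ 0) : ev x f ≠ 0 := by
  intro h0
  have hx0 : ∀ i, x i ≠ 0 := fun i => hx.ne_zero i
  have h1 := aeval_shP (shN f.support) f.support (fun m => f m) hx0 (fun m hm i => shN_le hm i)
  rw [← ev_eq, h0, mul_zero] at h1
  have h2 := (algebraicIndependent_iff.mp hx) _ h1
  obtain ⟨m0, hm0⟩ := Finsupp.support_nonempty_iff.mpr hf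
  have h3 := coeff_shP (fun m => f m) (fun m hm i => shN_le (S := f.support) hm i) hm0
  rw [h2, coeff_zero] at h3
  exact Finsupp.mem_support_iff.mp hm0 h3.symm

theorem v_mono (v : AddValuation K (WithTop ℤ)) {x : Fin d → K} {w : Fin d → ℤ}
    (hx : ∀ i, v (x i) = ((w i : ℤ) : WithTop ℤ)) (m : Fin d → ℤ) :
    v (mono x m) = ((m ⬝ᵥ w : ℤ) : WithTop ℤ) := by
  unfold mono
  rw [v_prod, dotProduct, Finset.sum_congr rfl fun i _ => v_zpow v (hx i) (m i)]
  have : ∀ s : Finset (Fin d), ∑ i ∈ s, ((m i * w i : ℤ) : WithTop ℤ) =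
      ((∑ i ∈ s, m i * w i : ℤ) : WithTop ℤ) := by
    intro s
    induction s using Finset.induction_on with
    | empty => simp
    | insert a s ha ih => rw [Finset.sum_insert ha, Finset.sum_insert ha, ih, WithTop.coe_add]
  exact this _

theorem lD_mono (D : Derivation k K K) {x : Fin d → K} (hx : ∀ i, x i ≠ 0) (m : Fin d → ℤ) :
    lD D (mono x m) = ∑ l, (m l : K) * lD D (x l) := by
  unfold mono
  rw [lD_prod D _ _ fun i _ => zpow_ne_zero _ (hx i)]
  exact Finset.sum_congr rfl fun i _ => lD_zpow D (hx i) _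

theorem D_ev (D : Derivation k K K) {x : Fin d → K} (hx : ∀ i, x i ≠ 0)
    (f : (Fin d → ℤ) →₀ k) : D (ev x f) = ∑ l, lD D (x l) * dev x l f := by
  rw [ev_eq]
  simp only [dev_eq, Finset.mul_sum]
  rw [Finset.sum_comm, map_sum]
  refine Finset.sum_congr rfl fun m _ => ?_
  have h1 : D (mono x m) = mono x m * ∑ l, (m l : K) * lD D (x l) := by
    rw [← lD_mono D hx, lD, mul_div_cancel₀ _ (mono_ne_zero hx m)]
  rw [D.leibniz, D.map_algebraMap, smul_zero, add_zero, smul_eq_mul, h1, Finset.mul_sum,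
    Finset.mul_sum]
  exact Finset.sum_congr rfl fun l _ => by ring

end expo

section core

variable {k K : Type*} [Field k] [Field K] [Algebra k K] {d : ℕ}

theorem v_const_nonneg (v : AddValuation K (WithTop ℤ))
    (hk : ∀ c : k, c ≠ 0 → v (algebraMap k K c) = 0) (c : k) : 0 ≤ v (algebraMap k K c) := by
  by_cases h : c = 0
  · simp [h]
  · rw [hk c h]

omit [Algebra k K] in
theorem g_congr (v : AddValuation K (WithTop ℤ)) {t : K} (ht : v t = 1)
    {x u : Fin d → K} (w : Fin d → ℤ) (hu : ∀ i, v (u i) = 0)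
    (hxu : ∀ m, mono x m = mono u m * t ^ (m ⬝ᵥ w)) (f : (Fin d → ℤ) →₀ k)
    (g : (Fin d → ℤ) → K) (hg : ∀ m, 0 ≤ v (g m)) :
    0 ≤ v (t ^ (-phi f w) * ∑ m ∈ f.support, g m * mono x m) ∧
    0 < v (t ^ (-phi f w) * ∑ m ∈ f.support, g m * mono x m -
      ∑ m ∈ (init f w).support, g m * mono u m) := by
  classical
  have ht' : v t = ((1 : ℤ) : WithTop ℤ) := by simpa using ht
  have ht0 : t ≠ 0 := by
    rintro rfl
    rw [v.map_zero] at ht'
    exact WithTop.top_ne_coe ht'
  have hvm : ∀ m, v (mono u m) = 0 := fun m => by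
    rw [v_mono v (w := fun _ => 0) (fun i => by rw [hu i]; rfl) m]
    simp [dotProduct]
  have h1 : t ^ (-phi f w) * ∑ m ∈ f.support, g m * mono x m =
      ∑ m ∈ f.support, g m * mono u m * t ^ (m ⬝ᵥ w - phi f w) := by
    rw [Finset.mul_sum]
    refine Finset.sum_congr rfl fun m _ => ?_
    rw [hxu m, sub_eq_add_neg, zpow_add₀ ht0]
    ring
  have hv : ∀ m ∈ f.support, v (g m * mono u m * t ^ (m ⬝ᵥ w - phi f w)) =
      v (g m) + ((m ⬝ᵥ w - phi f w : ℤ) : WithTop ℤ) := by
    intro m _
    rw [v.map_mul, v.map_mul, hvm, add_zero, v_zpow v ht', mul_one]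
  rw [h1]
  constructor
  · refine v.map_le_sum fun m hm => ?_
    rw [hv m hm]
    refine add_nonneg (hg m) ?_
    have := phi_le w hm
    exact_mod_cast sub_nonneg.mpr this
  · have h2 : (init f w).support = f.support.filter fun m => m ⬝ᵥ w = phi f w :=
      Finsupp.support_filter _ _
    rw [h2, ← Finset.sum_filter_add_sum_filter_not f.support (fun m => m ⬝ᵥ w = phi f w)]
    have h3 : ∑ m ∈ f.support.filter (fun m => m ⬝ᵥ w = phi f w),
        g m * mono u m * t ^ (m ⬝ᵥ w - phi f w) =
        ∑ m ∈ f.support.filter (fun m => m ⬝ᵥ w = phi f w), g m * mono u m := by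
      refine Finset.sum_congr rfl fun m hm => ?_
      rw [(Finset.mem_filter.mp hm).2, sub_self, zpow_zero, mul_one]
    rw [h3, add_sub_cancel_left]
    refine v.map_lt_sum' (WithTop.coe_lt_top (0 : ℤ)) fun m hm => ?_
    rw [Finset.mem_filter] at hm
    rw [hv m hm.1]
    have h4 := phi_le w hm.1
    have h5 : 0 < m ⬝ᵥ w - phi f w := by
      rcases lt_or_eq_of_le h4 with h | h
      · omega
      · exact absurd h.symm hm.2
    refine lt_of_lt_of_le ?_ (le_add_of_nonneg_left (hg m))
    exact_mod_cast h5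

theorem init_sum {L : Type*} [AddCommMonoid L] (f : (Fin d → ℤ) →₀ k) (w : Fin d → ℤ)
    (F : (Fin d → ℤ) → k → L) :
    ∑ m ∈ (init f w).support, F m (init f w m) = ∑ m ∈ (init f w).support, F m (f m) := by
  classical
  refine Finset.sum_congr rfl fun m hm => ?_
  have h2 : (init f w).support = f.support.filter fun m => m ⬝ᵥ w = phi f w :=
    Finsupp.support_filter _ _
  rw [h2, Finset.mem_filter] at hm
  have h1 : init f w m = f m := Finsupp.filter_apply_pos _ _ hm.2
  rw [h1]

theorem aeval_det {L : Type*} [Field L] [Algebra k L] {J : Type*} [Fintype J] [DecidableEq J]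
    (y : Fin d → L) (M : Matrix J J (MvPolynomial (Fin d) k)) :
    aeval y M.det = (Matrix.of fun i j => aeval y (M i j)).det := by
  rw [AlgHom.map_det]
  rfl

/-- polynomials detecting the degeneracy of the initial forms -/
noncomputable def degP {s : ℕ} (f : Fin s → (Fin d → ℤ) →₀ k) (w : Fin d → ℤ) (J : Fin s → Prop)
    (N : Fin d → ℕ) [DecidablePred J] :
    ({j // J j} ⊕ ({j // J j} → Fin d)) → MvPolynomial (Fin d) k
  | Sum.inl j => shP N (init (f j) w).support (fun m => init (f j) w m)
  | Sum.inr ρ => (Matrix.of fun j j' : {j // J j} =>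
      shP N (init (f j) w).support (fun m => init (f j) w m * (m (ρ j') : k))).det

theorem aeval_degP_inl {L : Type*} [Field L] [Algebra k L] {s : ℕ}
    (f : Fin s → (Fin d → ℤ) →₀ k) (w : Fin d → ℤ) (J : Fin s → Prop) (N : Fin d → ℕ)
    [DecidablePred J] (hN : ∀ j, ∀ m ∈ (init (f j) w).support, ∀ i, 0 ≤ m i + N i)
    {y : Fin d → L} (hy : ∀ i, y i ≠ 0) (j : {j // J j}) :
    aeval y (degP f w J N (Sum.inl j)) =
      mono y (fun i => (N i : ℤ)) * ev y (init (f j) w) := by
  unfold degP
  rw [aeval_shP N _ _ hy (hN j), ev_eq]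

theorem aeval_degP_inr {L : Type*} [Field L] [Algebra k L] {s : ℕ}
    (f : Fin s → (Fin d → ℤ) →₀ k) (w : Fin d → ℤ) (J : Fin s → Prop) (N : Fin d → ℕ)
    [DecidablePred J] (hN : ∀ j, ∀ m ∈ (init (f j) w).support, ∀ i, 0 ≤ m i + N i)
    {y : Fin d → L} (hy : ∀ i, y i ≠ 0) (ρ : {j // J j} → Fin d) :
    aeval y (degP f w J N (Sum.inr ρ)) =
      mono y (fun i => (N i : ℤ)) ^ (Fintype.card {j // J j}) *
        ((Matrix.of fun (j : {j // J j}) (l : Fin d) =>
          dev y l (init (f j) w)).submatrix id ρ).det := by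
  unfold degP
  rw [aeval_det, ← Matrix.det_smul]
  congr 1
  ext j j'
  simp only [Matrix.of_apply, Matrix.smul_apply, Matrix.submatrix_apply, id_eq, smul_eq_mul]
  rw [aeval_shP N _ _ hy (hN j), dev_eq]
  congr 1
  refine Finset.sum_congr rfl fun m _ => ?_
  rw [map_mul, map_intCast]

theorem low_core [IsAlgClosed k] (v : AddValuation K (WithTop ℤ))
    (hk : ∀ c : k, c ≠ 0 → v (algebraMap k K c) = 0) {t : K} (ht : v t = 1)
    (x : Fin d → K) (w : Fin d → ℤ) (hx : ∀ i, v (x i) = ((w i : ℤ) : WithTop ℤ))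
    {s : ℕ} (f : Fin s → (Fin d → ℤ) →₀ k)
    (n : Fin s → ℤ) (hn : ∀ j, v (ev x (f j)) = ((n j : ℤ) : WithTop ℤ))
    (hle : ∀ j, phi (f j) w ≤ n j)
    (nd : ∀ p : Fin d → k, (∀ i, p i ≠ 0) →
      LinearIndependent k fun j : {j : Fin s // ev p (init (f j) w) = 0} =>
        fun l => dev p l (init (f j) w))
    (D : Fin d → Derivation k K K) (hD : ∀ i, ∀ f, 0 ≤ v f → 0 ≤ v (D i f)) :
    ((∑ j, (n j - phi (f j) w) - 1 : ℤ) : WithTop ℤ) ≤
      v (Matrix.det (Matrix.of fun i j => D i (x j) / x j)) := by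
  classical
  have ht' : v t = ((1 : ℤ) : WithTop ℤ) := by simpa using ht
  have ht0 : t ≠ 0 := by
    rintro rfl
    rw [v.map_zero] at ht'
    exact WithTop.top_ne_coe ht'
  have hx0 : ∀ i, x i ≠ 0 := by
    intro i h
    have := hx i
    rw [h, v.map_zero] at this
    exact WithTop.top_ne_coe this
  set u : Fin d → K := fun i => x i * t ^ (-w i) with hudef
  have hu : ∀ i, v (u i) = 0 := fun i => by
    rw [hudef]
    simp only
    rw [v.map_mul, hx, v_zpow v ht', mul_one, ← WithTop.coe_add, add_neg_cancel]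
    rfl
  have hu0 : ∀ i, u i ≠ 0 := fun i => mul_ne_zero (hx0 i) (zpow_ne_zero _ ht0)
  have hxu : ∀ m, mono x m = mono u m * t ^ (m ⬝ᵥ w) := by
    intro m
    rw [← mono_zpow ht0, ← mono_mul]
    congr 1
    funext i
    simp only [hudef]
    rw [mul_assoc, ← zpow_add₀ ht0, neg_add_cancel, zpow_zero, mul_one]
  have hvm : ∀ m, v (mono u m) = 0 := fun m => by
    rw [v_mono v (w := fun _ => 0) (fun i => by rw [hu i]; rfl) m]
    simp [dotProduct]
  set J : Fin s → Prop := fun j => phi (f j) w < n j with hJ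
  set N : Fin d → ℕ := fun i => ∑ j, shN (init (f j) w).support i with hNdef
  have hN : ∀ j, ∀ m ∈ (init (f j) w).support, ∀ i, 0 ≤ m i + N i := by
    intro j m hm i
    have h1 := shN_le hm i
    have h2 : shN (init (f j) w).support i ≤ N i :=
      Finset.single_le_sum (f := fun j => shN (init (f j) w).support i)
        (fun _ _ => Nat.zero_le _) (Finset.mem_univ j)
    omega
  -- congruences
  have hc1 : ∀ j, 0 < v (t ^ (-phi (f j) w) * ev x (f j) - ev u (init (f j) w)) := by
    intro j
    have h1 := (g_congr v ht w hu hxu (f j) (fun m => algebraMap k K (f j m))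
      (fun m => v_const_nonneg v hk _)).2
    rw [ev_eq, ev_eq, init_sum (f j) w (fun m c => algebraMap k K c * mono u m)]
    exact h1
  have hc2 : ∀ j l, 0 ≤ v (t ^ (-phi (f j) w) * dev x l (f j)) ∧
      0 < v (t ^ (-phi (f j) w) * dev x l (f j) - dev u l (init (f j) w)) := by
    intro j l
    have h1 := g_congr v ht w hu hxu (f j) (fun m => algebraMap k K (f j m) * (m l : K))
      (fun m => by
        rw [v.map_mul]
        exact add_nonneg (v_const_nonneg v hk _) (v_intCast v _))
    rw [dev_eq, dev_eq, init_sum (f j) w (fun m c => algebraMap k K c * (m l : K) * mono u m)]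
    exact h1
  have hdu : ∀ j l, 0 ≤ v (dev u l (init (f j) w)) := by
    intro j l
    rw [dev_eq]
    refine v.map_le_sum fun m _ => ?_
    rw [v.map_mul, v.map_mul, hvm, add_zero]
    exact add_nonneg (v_const_nonneg v hk _) (v_intCast v _)
  -- a unit minor
  obtain ⟨ρ, hρ⟩ : ∃ ρ : {j // J j} → Fin d,
      v ((Matrix.of fun (j : {j // J j}) (l : Fin d) =>
        t ^ (-phi (f j) w) * dev x l (f j)).submatrix id ρ).det = 0 := by
    obtain ⟨a, ha⟩ := nullst v (degP f w J N) (by
      intro p hp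
      by_contra hc
      push Not at hc
      have hNp : mono p (fun i => (N i : ℤ)) ≠ 0 := mono_ne_zero hp _
      have h1 : ∀ j : {j // J j}, ev p (init (f j) w) = 0 := by
        intro j
        have h2 := aeval_degP_inl f w J N hN hp j
        rw [aeval_eq_eval] at h2
        have h3 := hc (Sum.inl j)
        rw [h2] at h3
        exact (mul_eq_zero.mp h3).resolve_left hNp
      have h4 : LinearIndependent k (Matrix.of fun (j : {j // J j}) (l : Fin d) =>
          dev p l (init (f j) w)).row :=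
        (nd p hp).comp (fun j : {j // J j} =>
          (⟨j, h1 j⟩ : {j : Fin s // ev p (init (f j) w) = 0})) (by
            intro a b hab
            have h5 := congrArg Subtype.val hab
            exact Subtype.ext h5)
      obtain ⟨ρ, hρ⟩ := exists_minor _ h4
      have h2 := aeval_degP_inr f w J N hN hp ρ
      rw [aeval_eq_eval] at h2
      have h3 := hc (Sum.inr ρ)
      rw [h2] at h3
      rcases mul_eq_zero.mp h3 with h | h
      · exact pow_ne_zero _ hNp h
      · exact hρ h) hk u hu
    rcases a with j | ρ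
    · exfalso
      apply ha
      rw [aeval_degP_inl f w J N hN hu0 j, v.map_mul, hvm, zero_add]
      have h1 := hc1 j
      have h2 : 0 < v (t ^ (-phi (f j) w) * ev x (f j)) := by
        rw [v.map_mul, hn, v_zpow v ht', mul_one, ← WithTop.coe_add]
        have : 0 < -phi (f j) w + n j := by
          have := j.2
          simp only [hJ] at this
          omega
        exact_mod_cast this
      have h3 : ev u (init (f j) w) = t ^ (-phi (f j) w) * ev x (f j) -
          (t ^ (-phi (f j) w) * ev x (f j) - ev u (init (f j) w)) := by ring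
      rw [h3, sub_eq_add_neg]
      exact v.map_lt_add h2 (by rw [v.map_neg]; exact h1)
    · refine ⟨ρ, ?_⟩
      rw [aeval_degP_inr f w J N hN hu0 ρ, v.map_mul, v.map_pow, hvm, smul_zero, zero_add] at ha
      have h1 := v_det_congr v
        ((Matrix.of fun (j : {j // J j}) (l : Fin d) =>
          t ^ (-phi (f j) w) * dev x l (f j)).submatrix id ρ)
        ((Matrix.of fun (j : {j // J j}) (l : Fin d) =>
          dev u l (init (f j) w)).submatrix id ρ)
        (fun i j => (hc2 _ _).1) (fun i j => hdu _ _) (fun i j => (hc2 _ _).2)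
      have h2 := v_det_nonneg v
        ((Matrix.of fun (j : {j // J j}) (l : Fin d) =>
          t ^ (-phi (f j) w) * dev x l (f j)).submatrix id ρ) (fun i j => (hc2 _ _).1)
      rcases h2.lt_or_eq with h | h
      · exfalso
        apply ha
        have h3 := v.map_lt_add h (show (0 : WithTop ℤ) < v (-(_ - _)) by
          rw [v.map_neg]
          exact h1)
        rw [← sub_eq_add_neg, sub_sub_cancel] at h3
        exact h3
      · exact h.symm
  -- the main bound
  set a : Fin d → K := fun i => lD (D i) t with ha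
  set h : {j // J j} → K := fun j => t ^ (-n j) * ev x (f j) with hh
  have hvh : ∀ j, v (h j) = 0 := fun j => by
    rw [hh]
    simp only
    rw [v.map_mul, hn, v_zpow v ht', mul_one, ← WithTop.coe_add, neg_add_cancel]
    rfl
  have hfin := main_bound v (Matrix.of fun i j => D i (x j) / x j)
    (Matrix.of fun (j : {j // J j}) (l : Fin d) => t ^ (-phi (f j) w) * dev x l (f j)) ρ hρ ht
    (fun j => (n j - phi (f j) w).toNat) a (fun l => (w l : K)) (fun j => h j * (n j : K))
    (fun i j => h j * (lD (D i) (ev x (f j)) - n j * lD (D i) t))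
    (fun i => v_lD_t v (hD i) ht) (fun l => v_intCast v _)
    (fun j => by
      rw [v.map_mul, hvh, zero_add]
      exact v_intCast v _)
    (fun i j => by
      rw [v.map_mul, hvh, zero_add]
      exact v_lD v (hD i) ht (hn j))
    (fun i l => by
      have h1 := v_lD v (hD i) ht (hx l)
      rw [mul_comm] at h1
      exact h1)
    (fun i j => by
      have h1 : ∑ l, (Matrix.of fun i j => D i (x j) / x j) i l *
          (Matrix.of fun (j : {j // J j}) (l : Fin d) =>
            t ^ (-phi (f j) w) * dev x l (f j)) j l = t ^ (-phi (f j) w) * D i (ev x (f j)) := by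
        rw [D_ev (D i) hx0, Finset.mul_sum]
        refine Finset.sum_congr rfl fun l _ => ?_
        simp only [Matrix.of_apply, lD]
        ring
      have hne : ev x (f j) ≠ 0 := by
        intro h0
        have := hn j
        rw [h0, v.map_zero] at this
        exact WithTop.top_ne_coe this
      have h2 : D i (ev x (f j)) = ev x (f j) * lD (D i) (ev x (f j)) := by
        rw [lD, mul_div_cancel₀ _ hne]
      have h3 : t ^ (-phi (f j) w) = t ^ ((n j - phi (f j) w).toNat) * t ^ (-n j) := by
        rw [← zpow_natCast, Int.toNat_of_nonneg (sub_nonneg.mpr (hle j)), ← zpow_add₀ ht0]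
        congr 1
        ring
      rw [h1, h2, h3]
      simp only [hh, ha]
      ring)
  have hsum : ∑ j, (n j - phi (f j) w) =
      ((∑ j : {j // J j}, (n j - phi (f j) w).toNat : ℕ) : ℤ) := by
    rw [Nat.cast_sum, Finset.sum_congr rfl fun (j : {j // J j}) _ =>
      Int.toNat_of_nonneg (sub_nonneg.mpr (hle j))]
    symm
    rw [← Finset.sum_subtype (Finset.univ.filter J) (fun j => by simp)
      (fun j => n j - phi (f j) w)]
    apply Finset.sum_subset (Finset.filter_subset _ _)
    intro j _ hj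
    have h1 : ¬ J j := fun h => hj (by simp [h])
    have h2 := hle j
    simp only [hJ, not_lt] at h1
    omega
  rw [v.map_mul, ht] at hfin
  rw [hsum]
  generalize v (Matrix.det (Matrix.of fun i j => D i (x j) / x j)) = q at hfin ⊢
  generalize (∑ j : {j // J j}, (n j - phi (f j) w).toNat) = S at hfin ⊢
  induction q using WithTop.recTopCoe with
  | top => exact le_top
  | coe q =>
    have h1 : ((S : ℤ) : WithTop ℤ) ≤ ((1 + q : ℤ) : WithTop ℤ) := by
      push_cast
      exact_mod_cast hfin
    have h2 : (S : ℤ) ≤ 1 + q := by exact_mod_cast h1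
    exact_mod_cast (by omega : (S : ℤ) - 1 ≤ q)

theorem ord_coe (E : PrimeDivisor k K d) {y : K} (hy : y ≠ 0) :
    E.ord y = ((E.ordZ y : ℤ) : WithTop ℤ) := by
  have h : E.ord y ≠ ⊤ := fun h => hy (E.ord.top_iff.mp h)
  unfold PrimeDivisor.ordZ
  cases h1 : E.ord y with
  | top => exact absurd h1 h
  | coe n => rfl

theorem ord_x (P : ToricPair k K d) (E : PrimeDivisor k K d) (i : Fin d) :
    E.ord (P.x i) = ((P.vec E i : ℤ) : WithTop ℤ) :=
  ord_coe E (P.algInd.ne_zero i)

theorem ord_mono (P : ToricPair k K d) (E : PrimeDivisor k K d) (m : Fin d → ℤ) :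
    E.ord (mono P.x m) = ((m ⬝ᵥ P.vec E : ℤ) : WithTop ℤ) :=
  v_mono E.ord (ord_x P E) m

theorem intPt_vec (P : ToricPair k K d) {E : PrimeDivisor k K d} (hE : P.Over E) :
    IntPt P.v (P.vec E) := by
  intro m hm hm0
  have h := hE m hm hm0
  rw [ord_mono] at h
  exact_mod_cast h

theorem phi_le_ord (P : ToricPair k K d) (E : PrimeDivisor k K d) (j : Fin P.s) :
    phi (P.f j) (P.vec E) ≤ E.ordZ (ev P.x (P.f j)) := by
  have h1 := ord_coe E (ev_ne_zero P.algInd (P.f_ne j))
  have h2 : ((phi (P.f j) (P.vec E) : ℤ) : WithTop ℤ) ≤ E.ord (ev P.x (P.f j)) := by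
    rw [ev_eq]
    refine E.ord.map_le_sum fun m hm => ?_
    rw [E.ord.map_mul, ord_mono]
    refine le_trans ?_ (le_add_of_nonneg_left (v_const_nonneg E.ord E.ord_const _))
    exact_mod_cast phi_le _ hm
  rw [h1] at h2
  exact_mod_cast h2

/-- The main lower bound. -/
theorem low [IsAlgClosed k] (P : ToricPair k K d) (E : PrimeDivisor k K d) (hE : P.Over E)
    (D : Fin d → Derivation k K K) (hD : ∀ i, E.Reg (D i)) :
    ((∑ j, (E.ordZ (ev P.x (P.f j)) - phi (P.f j) (P.vec E)) - 1 : ℤ) : WithTop ℤ) ≤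
      E.ord (Matrix.det (Matrix.of fun i j => D i (P.x j) / P.x j)) := by
  obtain ⟨t, ht⟩ := E.exists_one
  exact low_core E.ord E.ord_const ht P.x (P.vec E) (ord_x P E) P.f
    (fun j => E.ordZ (ev P.x (P.f j)))
    (fun j => ord_coe E (ev_ne_zero P.algInd (P.f_ne j))) (phi_le_ord P E)
    (P.nondeg _ (intPt_vec P hE)) D hD

end core

end Pool.Agent.Work.MP_43381c_ag
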